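import Mathlib
import Pool.Agent.Helper41.CF.Defs

/-!
# CF-D1: the algebra generated by a simple algebra and a frame commuting with it is simple

Proof.  `R` = the set of all `∑_{i, j < n} ρ (a i j) * f ^ i * g ^ j` (a subalgebra since
`g f = ζ⁻¹ f g`, `f ^ n`, `g ^ n` are scalars; or take `R = Algebra.adjoin F (range ρ ∪ {f, g})` and show
that every element has this form).  `f`, `g` are units of `R`.  Projection: for `r` in `R`,
`(1 / n ^ 2) ∑_{k, l < n} ζ ^ (..) g ^ k f ^ l r f ^ (-l) g ^ (-k)` is the `(i, j)`-term of `r`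
(conjugation by `f` multiplies `f ^ i g ^ j` by `ζ ^ j`, conjugation by `g` by `ζ ^ (-i)`; two steps
are easier: first separate `j`, then `i`).  Hence (1) the terms of `r` are determined by `r`, and
`ρ (a i j)`, so `a i j`, too (`ρ` is injective because `A` is simple and `W` nontrivial): the
dimension of `R` is `n ^ 2 * dim A`; (2) a nonzero two-sided ideal `I` of `R` contains some nonzero
`ρ a * f ^ i * g ^ j`, so `ρ a`, so (as `A` is simple, pull back `I` along `ρ`) it contains `1`.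
-/

set_option autoImplicit false

namespace Pool.Agent.Helper41.CF

universe u v w

open Finset

/-- separation of eigenvectors inside an invariant subspace -/
theorem D1_sep {F : Type u} [Field F] {V : Type v} [AddCommGroup V] [Module F V] {n : ℕ}
    (hn : 0 < n) {ζ : F} (hζ : IsPrimitiveRoot ζ n) (I : Submodule F V) (C : V →ₗ[F] V)
    (hC : ∀ v ∈ I, C v ∈ I) (v : Fin n → V) (hv : ∀ j : Fin n, C (v j) = ζ ^ (j : ℕ) • v j)
    (hs : ∑ j, v j ∈ I) (j : Fin n) : v j ∈ I := by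
  have hζ0 : ζ ≠ 0 := hζ.ne_zero hn.ne'
  have hpow : ∀ k : ℕ, ∑ l : Fin n, ζ ^ ((l : ℕ) * k) • v l ∈ I := by
    intro k
    induction k with
    | zero => simpa using hs
    | succ k ih =>
      have h1 := hC _ ih
      rw [map_sum] at h1
      have h2 : ∑ l : Fin n, C (ζ ^ ((l : ℕ) * k) • v l) =
          ∑ l : Fin n, ζ ^ ((l : ℕ) * (k + 1)) • v l := by
        refine sum_congr rfl fun l _ => ?_
        rw [map_smul, hv, smul_smul, ← pow_add, mul_add, mul_one]
      rwa [h2] at h1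
  have hnF : (n : F) ≠ 0 := by
    have : NeZero n := ⟨hn.ne'⟩
    exact (hζ.neZero').out
  have hsum : ∑ k ∈ range n, ((ζ ^ (j : ℕ))⁻¹) ^ k • ∑ l : Fin n, ζ ^ ((l : ℕ) * k) • v l =
      (n : F) • v j := by
    simp only [smul_sum, smul_smul]
    rw [sum_comm]
    simp only [← sum_smul]
    rw [Finset.sum_eq_single j]
    · congr 1
      have h1 : ∀ k ∈ range n, ((ζ ^ (j : ℕ))⁻¹) ^ k * ζ ^ ((j : ℕ) * k) = 1 := by
        intro k _
        rw [pow_mul, ← mul_pow, inv_mul_cancel₀ (pow_ne_zero _ hζ0), one_pow]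
      rw [sum_congr rfl h1, sum_const, card_range, nsmul_eq_mul, mul_one]
    · intro l _ hlj
      have h1 : ∑ k ∈ range n, ((ζ ^ (j : ℕ))⁻¹) ^ k * ζ ^ ((l : ℕ) * k) =
          ∑ k ∈ range n, ((ζ ^ (j : ℕ))⁻¹ * ζ ^ (l : ℕ)) ^ k := by
        refine sum_congr rfl fun k _ => ?_
        rw [pow_mul, ← mul_pow]
      have h2 : ((ζ ^ (j : ℕ))⁻¹ * ζ ^ (l : ℕ)) ≠ 1 := by
        intro h
        apply hlj
        have h3 : ζ ^ (l : ℕ) = ζ ^ (j : ℕ) := by
          have h4 : ζ ^ (j : ℕ) * ((ζ ^ (j : ℕ))⁻¹ * ζ ^ (l : ℕ)) = ζ ^ (j : ℕ) * 1 := by rw [h]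
          rwa [mul_inv_cancel_left₀ (pow_ne_zero _ hζ0), mul_one] at h4
        exact Fin.ext (hζ.pow_inj l.2 j.2 h3)
      have h3 : ((ζ ^ (j : ℕ))⁻¹ * ζ ^ (l : ℕ)) ^ n = 1 := by
        rw [mul_pow, inv_pow, ← pow_mul, ← pow_mul, mul_comm (j : ℕ) n, mul_comm (l : ℕ) n,
          pow_mul, pow_mul, hζ.pow_eq_one, one_pow, one_pow, inv_one, mul_one]
      rw [h1]
      have h4 := mul_neg_geom_sum ((ζ ^ (j : ℕ))⁻¹ * ζ ^ (l : ℕ)) n
      rw [h3, sub_self] at h4
      rcases mul_eq_zero.1 h4 with h5 | h5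
      · exact absurd (sub_eq_zero.1 h5).symm h2
      · rw [h5, zero_smul]
    · intro h
      exact absurd (mem_univ j) h
  have h1 : (n : F) • v j ∈ I := by
    rw [← hsum]
    exact I.sum_mem fun k _ => I.smul_mem _ (hpow k)
  have h2 := I.smul_mem ((n : F)⁻¹) h1
  rwa [smul_smul, inv_mul_cancel₀ hnF, one_smul] at h2

/-- commutation of powers -/
theorem D1_comm {F : Type u} [Field F] {E : Type v} [Ring E] [Algebra F E] {ζ : F} {f g : E}
    (h : f * g = ζ • (g * f)) (i j : ℕ) : f ^ i * g ^ j = ζ ^ (i * j) • (g ^ j * f ^ i) := by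
  have h1 : ∀ j : ℕ, f * g ^ j = ζ ^ j • (g ^ j * f) := by
    intro j
    induction j with
    | zero => simp
    | succ j ih =>
      rw [pow_succ, ← mul_assoc, ih, smul_mul_assoc, mul_assoc, h, mul_smul_comm, smul_smul,
        ← pow_succ, mul_assoc]
  induction i with
  | zero => simp
  | succ i ih =>
    rw [pow_succ, mul_assoc, h1, mul_smul_comm, ← mul_assoc, ih, smul_mul_assoc, smul_smul,
      ← pow_add, mul_assoc]
    congr 2
    ring

/-- the elements `ρ a * f ^ i * g ^ j` -/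
def D1_T {F : Type u} [Field F] {A : Type v} [Ring A] [Algebra F A] {E : Type w} [Ring E]
    [Algebra F E] (ρ : A →ₐ[F] E) (f g : E) : Set E :=
  {x | ∃ (a : A) (i j : ℕ), x = ρ a * f ^ i * g ^ j}

/-- the sum of the terms -/
def D1_phi {F : Type u} [Field F] {A : Type v} [Ring A] [Algebra F A] {E : Type w} [Ring E]
    [Algebra F E] (ρ : A →ₐ[F] E) (f g : E) (n : ℕ) : (Fin n → Fin n → A) →ₗ[F] E where
  toFun a := ∑ i : Fin n, ∑ j : Fin n, ρ (a i j) * f ^ (i : ℕ) * g ^ (j : ℕ)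
  map_add' a b := by
    simp only [Pi.add_apply, map_add, add_mul, sum_add_distrib]
  map_smul' c a := by
    simp only [Pi.smul_apply, map_smul, smul_mul_assoc, smul_sum, RingHom.id_apply]

section

variable {F : Type u} [Field F] {A : Type v} [Ring A] [Algebra F A] {E : Type w} [Ring E]
  [Algebra F E] {n : ℕ} {ζ : F} (ρ : A →ₐ[F] E) (X Y : Fˣ) {f g : E}

theorem D1_mul_mem (hζ0 : ζ ≠ 0) (hc : f * g = ζ • (g * f))
    (hcom : ∀ a, Commute f (ρ a) ∧ Commute g (ρ a)) (x y : E)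
    (hx : x ∈ D1_T ρ f g) (hy : y ∈ D1_T ρ f g) : x * y ∈ D1_T ρ f g := by
  obtain ⟨a, i, j, rfl⟩ := hx
  obtain ⟨b, k, l, rfl⟩ := hy
  refine ⟨(ζ ^ (k * j))⁻¹ • (a * b), i + k, j + l, ?_⟩
  have h1 : g ^ j * ρ b = ρ b * g ^ j := ((hcom b).2.pow_left j).eq
  have h2 : f ^ i * ρ b = ρ b * f ^ i := ((hcom b).1.pow_left i).eq
  have h3 : g ^ j * f ^ k = (ζ ^ (k * j))⁻¹ • (f ^ k * g ^ j) := by
    rw [D1_comm hc k j, smul_smul, inv_mul_cancel₀ (pow_ne_zero _ hζ0), one_smul]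
  calc ρ a * f ^ i * g ^ j * (ρ b * f ^ k * g ^ l)
      = ρ a * f ^ i * (g ^ j * ρ b) * f ^ k * g ^ l := by noncomm_ring
    _ = ρ a * (f ^ i * ρ b) * (g ^ j * f ^ k) * g ^ l := by rw [h1]; noncomm_ring
    _ = ρ a * ρ b * f ^ i * ((ζ ^ (k * j))⁻¹ • (f ^ k * g ^ j)) * g ^ l := by
        rw [h2, h3, mul_assoc (ρ a) (ρ b)]
    _ = ρ ((ζ ^ (k * j))⁻¹ • (a * b)) * f ^ (i + k) * g ^ (j + l) := by
        rw [map_smul, map_mul, pow_add, pow_add]
        simp only [smul_mul_assoc, mul_smul_comm, mul_assoc]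

theorem D1_smul (hfn : f ^ n = algebraMap F E X) (i : ℕ) :
    f ^ i = ((X : F) ^ (i / n)) • f ^ (i % n) := by
  conv_lhs => rw [← Nat.div_add_mod i n]
  rw [pow_add, pow_mul, hfn, ← map_pow, ← Algebra.smul_def]

theorem D1_range (hn : 0 < n) (hfn : f ^ n = algebraMap F E X) (hgn : g ^ n = algebraMap F E Y) :
    LinearMap.range (D1_phi (F := F) ρ f g n) = Submodule.span F (D1_T ρ f g) := by
  classical
  apply le_antisymm
  · rintro _ ⟨a, rfl⟩
    show ∑ i : Fin n, ∑ j : Fin n, ρ (a i j) * f ^ (i : ℕ) * g ^ (j : ℕ) ∈ _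
    refine Submodule.sum_mem _ fun i _ => Submodule.sum_mem _ fun j _ => ?_
    exact Submodule.subset_span ⟨a i j, i, j, rfl⟩
  · rw [Submodule.span_le]
    rintro _ ⟨a, i, j, rfl⟩
    refine ⟨fun k l => if (k : ℕ) = i % n ∧ (l : ℕ) = j % n then
      ((X : F) ^ (i / n) * (Y : F) ^ (j / n)) • a else 0, ?_⟩
    show ∑ k : Fin n, ∑ l : Fin n, ρ (if (k : ℕ) = i % n ∧ (l : ℕ) = j % n then
      ((X : F) ^ (i / n) * (Y : F) ^ (j / n)) • a else 0) * f ^ (k : ℕ) * g ^ (l : ℕ) = _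
    rw [Finset.sum_eq_single (⟨i % n, Nat.mod_lt _ hn⟩ : Fin n)]
    · rw [Finset.sum_eq_single (⟨j % n, Nat.mod_lt _ hn⟩ : Fin n)]
      · simp only [and_self, if_true]
        rw [D1_smul (E := E) X hfn i, D1_smul (E := E) Y hgn j, map_smul]
        simp only [smul_mul_assoc, mul_smul_comm, smul_smul]
        congr 1
        ring
      · intro l _ hl
        have h1 : ¬ ((⟨i % n, Nat.mod_lt _ hn⟩ : Fin n) : ℕ) = i % n ∨ ¬ (l : ℕ) = j % n := by
          right
          intro h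
          exact hl (Fin.ext h)
        rw [if_neg (fun h => by rcases h1 with h2 | h2; exact h2 h.1; exact h2 h.2)]
        simp
      · intro h
        exact absurd (mem_univ _) h
    · intro k _ hk
      refine Finset.sum_eq_zero fun l _ => ?_
      rw [if_neg (fun h => hk (Fin.ext h.1))]
      simp
    · intro h
      exact absurd (mem_univ _) h

theorem D1_inv (hn : 0 < n) (hfn : f ^ n = algebraMap F E X) :
    f * (((X⁻¹ : Fˣ) : F) • f ^ (n - 1)) = 1 ∧ (((X⁻¹ : Fˣ) : F) • f ^ (n - 1)) * f = 1 := by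
  have h1 : ((X⁻¹ : Fˣ) : F) • algebraMap F E X = 1 := by
    rw [Algebra.smul_def, ← map_mul, Units.inv_mul, map_one]
  constructor
  · rw [mul_smul_comm, ← pow_succ', Nat.sub_add_cancel hn, hfn, h1]
  · rw [smul_mul_assoc, ← pow_succ, Nat.sub_add_cancel hn, hfn, h1]

/-- the terms of an element of an invariant subspace lie in it -/
theorem D1_term (hn : 0 < n) (hζ : IsPrimitiveRoot ζ n) (hc : f * g = ζ • (g * f))
    (hcom : ∀ a, Commute f (ρ a) ∧ Commute g (ρ a)) {f' g' : E} (hf : f * f' = 1)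
    (hg : g * g' = 1) (hg' : g' * g = 1) (I : Submodule F E) (hI1 : ∀ v ∈ I, f * v * f' ∈ I)
    (hI2 : ∀ v ∈ I, g' * v * g ∈ I) (a : Fin n → Fin n → A) (ha : D1_phi (F := F) ρ f g n a ∈ I)
    (i j : Fin n) : ρ (a i j) * f ^ (i : ℕ) * g ^ (j : ℕ) ∈ I := by
  have hcg : ∀ b, g' * ρ b = ρ b * g' := by
    intro b
    have h1 : g' * (g * ρ b) * g' = g' * (ρ b * g) * g' := by rw [(hcom b).2.eq]
    have h2 : g' * (g * ρ b) * g' = ρ b * g' := by
      rw [← mul_assoc, hg', one_mul]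
    have h3 : g' * (ρ b * g) * g' = g' * ρ b := by
      rw [mul_assoc, mul_assoc, hg, mul_one]
    rw [← h3, ← h1, h2]
  have step1 : ∀ j : Fin n, ∑ i : Fin n, ρ (a i j) * f ^ (i : ℕ) * g ^ (j : ℕ) ∈ I := by
    refine D1_sep hn hζ I ((LinearMap.mulRight F f').comp (LinearMap.mulLeft F f)) hI1
      (fun j => ∑ i : Fin n, ρ (a i j) * f ^ (i : ℕ) * g ^ (j : ℕ)) ?_ ?_
    · intro j
      rw [map_sum, smul_sum]
      refine sum_congr rfl fun i _ => ?_
      show f * (ρ (a i j) * f ^ (i : ℕ) * g ^ (j : ℕ)) * f' = _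
      have h1 : f * g ^ (j : ℕ) = ζ ^ (j : ℕ) • (g ^ (j : ℕ) * f) := by
        have := D1_comm hc 1 (j : ℕ)
        rwa [pow_one, one_mul] at this
      calc f * (ρ (a i j) * f ^ (i : ℕ) * g ^ (j : ℕ)) * f'
          = (f * ρ (a i j)) * f ^ (i : ℕ) * g ^ (j : ℕ) * f' := by noncomm_ring
        _ = ρ (a i j) * (f * f ^ (i : ℕ)) * g ^ (j : ℕ) * f' := by
            rw [(hcom _).1.eq]; noncomm_ring
        _ = ρ (a i j) * f ^ (i : ℕ) * (f * g ^ (j : ℕ)) * f' := by
            rw [← pow_succ', pow_succ]; noncomm_ring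
        _ = _ := by
            rw [h1]
            simp only [smul_mul_assoc, mul_smul_comm, mul_assoc, hf, mul_one]
    · rw [sum_comm]
      exact ha
  refine D1_sep hn hζ I ((LinearMap.mulRight F g).comp (LinearMap.mulLeft F g')) hI2
    (fun i => ρ (a i j) * f ^ (i : ℕ) * g ^ (j : ℕ)) ?_ (step1 j) i
  intro i
  show g' * (ρ (a i j) * f ^ (i : ℕ) * g ^ (j : ℕ)) * g = _
  have h1 : f ^ (i : ℕ) * g = ζ ^ (i : ℕ) • (g * f ^ (i : ℕ)) := by
    have := D1_comm hc (i : ℕ) 1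
    rwa [pow_one, mul_one] at this
  calc g' * (ρ (a i j) * f ^ (i : ℕ) * g ^ (j : ℕ)) * g
      = (g' * ρ (a i j)) * f ^ (i : ℕ) * (g ^ (j : ℕ) * g) := by noncomm_ring
    _ = ρ (a i j) * g' * (f ^ (i : ℕ) * g) * g ^ (j : ℕ) := by
        rw [hcg, ← pow_succ, pow_succ']; noncomm_ring
    _ = _ := by
        rw [h1]
        simp only [smul_mul_assoc, mul_smul_comm]
        congr 1
        calc ρ (a i j) * g' * (g * f ^ (i : ℕ)) * g ^ (j : ℕ)
            = ρ (a i j) * (g' * g) * f ^ (i : ℕ) * g ^ (j : ℕ) := by noncomm_ring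
          _ = _ := by rw [hg', mul_one]

end

theorem gen_simple {F : Type u} [Field F] {A : Type v} [Ring A] [Algebra F A] [IsSimpleRing A]
    [Module.Finite F A] {W : Type w} [AddCommGroup W] [Module F W] [Module.Finite F W]
    [Nontrivial W] {n : ℕ} (hn : 0 < n) {ζ : F} (hζ : IsPrimitiveRoot ζ n)
    (ρ : A →ₐ[F] Module.End F W) (X Y : Fˣ) (f g : Module.End F W)
    (hfg : IsFr n ζ (X, Y) (f, g)) (hcom : ∀ a, Commute f (ρ a) ∧ Commute g (ρ a)) :
    ∃ R : Subalgebra F (Module.End F W), (∀ a, ρ a ∈ R) ∧ f ∈ R ∧ g ∈ R ∧ IsSimpleRing R ∧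
      Module.finrank F R = n ^ 2 * Module.finrank F A := by
  classical
  obtain ⟨hfn, hgn, hc⟩ := hfg
  simp only at hfn hgn hc
  have hζ0 : ζ ≠ 0 := hζ.ne_zero hn.ne'
  obtain ⟨hf1, hf2⟩ := D1_inv (E := Module.End F W) X hn hfn
  obtain ⟨hg1, hg2⟩ := D1_inv (E := Module.End F W) Y hn hgn
  obtain ⟨f', hf'⟩ : ∃ f' : Module.End F W, f' = ((X⁻¹ : Fˣ) : F) • f ^ (n - 1) := ⟨_, rfl⟩
  obtain ⟨g', hg'⟩ : ∃ g' : Module.End F W, g' = ((Y⁻¹ : Fˣ) : F) • g ^ (n - 1) := ⟨_, rfl⟩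
  rw [← hf'] at hf1 hf2
  rw [← hg'] at hg1 hg2
  have hρ : Function.Injective ρ := RingHom.injective (ρ : A →+* Module.End F W)
  obtain ⟨p, hp⟩ : ∃ p : Submodule F (Module.End F W), p = Submodule.span F (D1_T ρ f g) :=
    ⟨_, rfl⟩
  have hrange : LinearMap.range (D1_phi (F := F) ρ f g n) = p := by
    rw [hp]
    exact D1_range ρ X Y hn hfn hgn
  have h_one : (1 : Module.End F W) ∈ p := by
    rw [hp]
    exact Submodule.subset_span ⟨1, 0, 0, by simp⟩
  have h_mul : ∀ x y : Module.End F W, x ∈ p → y ∈ p → x * y ∈ p := by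
    intro x y hx hy
    rw [hp] at hx hy ⊢
    have h1 := Submodule.mul_mem_mul hx hy
    rw [Submodule.span_mul_span] at h1
    refine Submodule.span_mono ?_ h1
    rintro _ ⟨u, hu, v, hv, rfl⟩
    exact D1_mul_mem ρ hζ0 hc hcom u v hu hv
  -- terms
  have hterm := fun I h1 h2 a ha => D1_term ρ hn hζ hc hcom hf1 hg1 hg2 I h1 h2 a ha
  -- cancellation of the units
  have hcancel : ∀ (u : Module.End F W) (i j : ℕ), u * f ^ i * g ^ j * (g' ^ j * f' ^ i) = u := by
    intro u i j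
    have h1 : g ^ j * g' ^ j = 1 := by
      have h3 : Commute g g' := by
        show g * g' = g' * g
        rw [hg1, hg2]
      rw [← h3.mul_pow, hg1, one_pow]
    have h2 : f ^ i * f' ^ i = 1 := by
      have h3 : Commute f f' := by
        show f * f' = f' * f
        rw [hf1, hf2]
      rw [← h3.mul_pow, hf1, one_pow]
    calc u * f ^ i * g ^ j * (g' ^ j * f' ^ i) = u * f ^ i * (g ^ j * g' ^ j) * f' ^ i := by
          noncomm_ring
      _ = u * (f ^ i * f' ^ i) := by rw [h1]; noncomm_ring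
      _ = u := by rw [h2, mul_one]
  have hinj : Function.Injective (D1_phi (F := F) ρ f g n) := by
    rw [← LinearMap.ker_eq_bot, LinearMap.ker_eq_bot']
    intro a ha
    funext i j
    have h1 := hterm ⊥ (fun v hv => by
        rw [Submodule.mem_bot] at hv ⊢
        rw [hv]
        simp) (fun v hv => by
        rw [Submodule.mem_bot] at hv ⊢
        rw [hv]
        simp) a (by rw [Submodule.mem_bot]; exact ha) i j
    rw [Submodule.mem_bot] at h1
    have h2 := hcancel (ρ (a i j)) i j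
    rw [h1, zero_mul] at h2
    show a i j = 0
    exact hρ (by rw [← h2, map_zero])
  refine ⟨p.toSubalgebra h_one h_mul, ?_, ?_, ?_, ?_, ?_⟩
  · intro a
    show ρ a ∈ p
    rw [hp]
    exact Submodule.subset_span ⟨a, 0, 0, by simp⟩
  · show f ∈ p
    rw [hp]
    exact Submodule.subset_span ⟨1, 1, 0, by simp⟩
  · show g ∈ p
    rw [hp]
    exact Submodule.subset_span ⟨1, 0, 1, by simp⟩
  · have hfp : f ∈ p := by
      rw [hp]
      exact Submodule.subset_span ⟨1, 1, 0, by simp⟩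
    have hgp : g ∈ p := by
      rw [hp]
      exact Submodule.subset_span ⟨1, 0, 1, by simp⟩
    have hpow : ∀ (x : Module.End F W), x ∈ p → ∀ k : ℕ, x ^ k ∈ p := by
      intro x hx k
      induction k with
      | zero => simpa using h_one
      | succ k ih =>
        rw [pow_succ]
        exact h_mul _ _ ih hx
    have hf'p : f' ∈ p := by
      rw [hf']
      exact p.smul_mem _ (hpow f hfp _)
    have hg'p : g' ∈ p := by
      rw [hg']
      exact p.smul_mem _ (hpow g hgp _)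
    have hρp : ∀ a, ρ a ∈ p := by
      intro a
      rw [hp]
      exact Submodule.subset_span ⟨a, 0, 0, by simp⟩
    obtain ⟨R, hR⟩ : ∃ R : Subalgebra F (Module.End F W), R = p.toSubalgebra h_one h_mul :=
      ⟨_, rfl⟩
    have hmem : ∀ x : Module.End F W, x ∈ R ↔ x ∈ p := by
      intro x
      rw [hR]
      exact Iff.rfl
    rw [← hR]
    have hnt : Nontrivial R := by
      refine ⟨0, 1, ?_⟩
      intro h
      have := congrArg (fun x : R => (x : Module.End F W)) h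
      simp at this
    refine IsSimpleRing.of_eq_bot_or_eq_top fun I => ?_
    by_cases hI : I = ⊥
    · exact Or.inl hI
    right
    obtain ⟨r, hrI, hr0⟩ : ∃ r ∈ I, r ≠ 0 := by
      by_contra hcon
      push Not at hcon
      apply hI
      rw [eq_bot_iff]
      intro x hx
      rw [TwoSidedIdeal.mem_bot]
      exact hcon x hx
    let I' : Submodule F (Module.End F W) :=
      { carrier := {v | ∃ h : v ∈ R, (⟨v, h⟩ : R) ∈ I}
        add_mem' := by
          rintro v w ⟨h1, h1'⟩ ⟨h2, h2'⟩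
          exact ⟨R.add_mem h1 h2, I.add_mem h1' h2'⟩
        zero_mem' := ⟨R.zero_mem, I.zero_mem⟩
        smul_mem' := by
          rintro c v ⟨h1, h1'⟩
          refine ⟨R.smul_mem h1 c, ?_⟩
          have h2 := I.mul_mem_left (algebraMap F R c) _ h1'
          rw [← Algebra.smul_def] at h2
          exact h2 }
    have hmul_left : ∀ x v, x ∈ p → v ∈ I' → x * v ∈ I' := by
      rintro x v hx ⟨h1, h1'⟩
      exact ⟨R.mul_mem ((hmem x).2 hx) h1, I.mul_mem_left ⟨x, (hmem x).2 hx⟩ _ h1'⟩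
    have hmul_right : ∀ x v, x ∈ p → v ∈ I' → v * x ∈ I' := by
      rintro x v hx ⟨h1, h1'⟩
      exact ⟨R.mul_mem h1 ((hmem x).2 hx), I.mul_mem_right _ ⟨x, (hmem x).2 hx⟩ h1'⟩
    have hrp : (r : Module.End F W) ∈ p := (hmem _).1 r.2
    rw [← hrange] at hrp
    obtain ⟨a, ha⟩ := hrp
    have hrI' : D1_phi (F := F) ρ f g n a ∈ I' := by
      rw [ha]
      exact ⟨r.2, hrI⟩
    obtain ⟨i, j, hij⟩ : ∃ i j, a i j ≠ 0 := by
      by_contra hcon
      push Not at hcon
      apply hr0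
      apply Subtype.ext
      rw [← ha]
      have : a = 0 := by
        funext i j
        exact hcon i j
      rw [this, map_zero]
      rfl
    have h1 := hterm I' (fun v hv => hmul_right f' _ hf'p (hmul_left f _ hfp hv))
      (fun v hv => hmul_right g _ hgp (hmul_left g' _ hg'p hv)) a hrI' i j
    have h2 := hmul_right (g' ^ (j : ℕ) * f' ^ (i : ℕ)) _
      (h_mul _ _ (hpow g' hg'p _) (hpow f' hf'p _)) h1
    rw [hcancel] at h2
    obtain ⟨h3, h3'⟩ := h2
    obtain ⟨ρ', hρ'⟩ : ∃ ρ' : A →ₐ[F] R, ∀ a, ((ρ' a : R) : Module.End F W) = ρ a :=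
      ⟨ρ.codRestrict R (fun a => (hmem _).2 (hρp a)), fun a => rfl⟩
    have h4 : a i j ∈ I.comap (ρ' : A →+* R) := by
      rw [TwoSidedIdeal.mem_comap]
      have h5 : (ρ' : A →+* R) (a i j) = ⟨ρ (a i j), h3⟩ := Subtype.ext (hρ' _)
      rw [h5]
      exact h3'
    have h5 := IsSimpleRing.one_mem_of_ne_zero_mem _ hij h4
    rw [TwoSidedIdeal.mem_comap, map_one] at h5
    exact (TwoSidedIdeal.one_mem_iff I).1 h5
  · have h1 : Module.finrank F (p.toSubalgebra h_one h_mul) = Module.finrank F p := by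
      rw [← Subalgebra.finrank_toSubmodule, Submodule.toSubalgebra_toSubmodule]
    rw [h1, ← hrange, LinearMap.finrank_range_of_inj hinj, Module.finrank_pi_fintype]
    simp only [Module.finrank_pi_fintype, sum_const, card_univ, Fintype.card_fin, smul_eq_mul]
    ring

end Pool.Agent.Helper41.CF
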