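import Mathlib
import Pool.Agent.Helper41.CF.Defs

/-!
# CF-D2: modules over a simple algebra: dimensions

Proof of `exists_submodule`.  `R` is simple and artinian, so `R` and `W` are isotypic semisimple modules
(`IsSimpleRing`, `IsArtinianRing`, `IsIsotypic.linearEquiv_fun`): there is a simple submodule `S` of `W` with
`W ≃ (Fin k → S)` and `R ≃ (Fin r → S)` (all simple modules are isomorphic).  With `s = dim_F S`:
`k * s = m * N`, `r * s = N ^ 2`.  As `gcd (N ^ 2, m * N) = N` (`m` prime to `N`), `s ∣ N`.  `R` acts
faithfully on `S` (simple ring, `S ≠ 0`), so `N ^ 2 = dim R ≤ dim End_F S = s ^ 2`, `N ≤ s`.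
So `s = N`.
Proof of `equiv_of_finrank_eq`.  `S` and `A` are both powers of the simple module `T`, with the
same number of factors because the dimensions over `F` are equal.
-/

set_option autoImplicit false

namespace Pool.Agent.Helper41.CF

universe u v w

/-- over a simple artinian ring all simple modules are isomorphic -/
theorem D2_type {R : Type u} [Ring R] [IsSimpleRing R] [IsArtinianRing R] {M : Type v}
    [AddCommGroup M] [Module R M] {M' : Type w} [AddCommGroup M'] [Module R M']
    (T : Submodule R M) [IsSimpleModule R T] : IsIsotypicOfType R M' T := by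
  have h := IsSimpleRing.isIsotypic R (M × M')
  have hinl : Function.Injective (LinearMap.inl R M M') := LinearMap.inl_injective
  have hinr : Function.Injective (LinearMap.inr R M M') := LinearMap.inr_injective
  let e := Submodule.equivMapOfInjective (LinearMap.inl R M M') hinl T
  haveI : IsSimpleModule R (Submodule.map (LinearMap.inl R M M') T) :=
    IsSimpleModule.congr e.symm
  have h1 := h (Submodule.map (LinearMap.inl R M M') T)
  have h2 := h1.of_injective (LinearMap.inr R M M') hinr
  exact h2.of_linearEquiv_type e.symm

theorem D2_finrank_fun {F : Type u} [Field F] {R : Type v} [Ring R] [Algebra F R]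
    {M : Type w} [AddCommGroup M] [Module F M] [Module R M] [IsScalarTower F R M]
    {M' : Type*} [AddCommGroup M'] [Module F M'] [Module R M'] [IsScalarTower F R M']
    (T : Submodule R M) (k : ℕ) (e : M' ≃ₗ[R] (Fin k → T)) :
    Module.finrank F M' = k * Module.finrank F T := by
  have e' : M' ≃ₗ[F] (Fin k → T) := e.restrictScalars F
  rw [e'.finrank_eq]
  by_cases hT : Module.Finite F T
  · rw [Module.finrank_pi_fintype]
    simp
  · rcases Nat.eq_zero_or_pos k with rfl | hk
    · rw [zero_mul]
      exact Module.finrank_zero_of_subsingleton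
    · have h1 : ¬ Module.Finite F (Fin k → T) := by
        intro hfin
        exact hT (Module.Finite.of_surjective (LinearMap.proj (R := F) (φ := fun _ : Fin k => T)
          ⟨0, hk⟩) (LinearMap.proj_surjective _))
      rw [Module.finrank_of_infinite_dimensional h1, Module.finrank_of_infinite_dimensional hT]
      simp

theorem exists_submodule {F : Type u} [Field F] {R : Type v} [Ring R] [Algebra F R]
    [IsSimpleRing R] [Module.Finite F R] {W : Type w} [AddCommGroup W] [Module F W] [Module R W]
    [IsScalarTower F R W] [Module.Finite F W] {N m : ℕ} (hN : 0 < N) (hm : m.Coprime N)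
    (hm0 : 0 < m) (hR : Module.finrank F R = N ^ 2) (hW : Module.finrank F W = m * N) :
    ∃ S : Submodule R W, Module.finrank F S = N := by
  haveI : IsArtinianRing R := IsArtinianRing.of_finite F R
  haveI : Module.Finite R W := Module.Finite.of_restrictScalars_finite F R W
  haveI : Nontrivial W := by
    apply Module.nontrivial_of_finrank_pos (R := F)
    rw [hW]; positivity
  obtain ⟨k, _, S, hS, ⟨e⟩⟩ := (IsSimpleRing.isIsotypic R W).linearEquiv_fun
  haveI := hS
  obtain ⟨r, ⟨e'⟩⟩ := (D2_type (M' := R) S).linearEquiv_fun
  have hk := D2_finrank_fun (F := F) S k e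
  have hr := D2_finrank_fun (F := F) S r e'
  rw [hW] at hk
  rw [hR] at hr
  refine ⟨S, ?_⟩
  haveI : Nontrivial S := IsSimpleModule.nontrivial R S
  haveI : Module.Finite F S := by
    haveI : IsNoetherian F W := inferInstance
    exact Module.Finite.of_injective (S.subtype.restrictScalars F) S.injective_subtype
  have hdvd : Module.finrank F S ∣ N := by
    have h1 : Module.finrank F S ∣ m * N := ⟨k, by rw [hk]; ring⟩
    have h2 : Module.finrank F S ∣ N * N := ⟨r, by rw [← sq, hr]; ring⟩
    have h3 := Nat.dvd_gcd h1 h2
    rwa [Nat.gcd_mul_right, Nat.coprime_iff_gcd_eq_one.1 hm, one_mul] at h3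
  have hle : N ≤ Module.finrank F S := by
    have hinj : Function.Injective (Algebra.lsmul F F S : R →ₐ[F] Module.End F S) :=
      RingHom.injective (Algebra.lsmul F F S : R →ₐ[F] Module.End F S).toRingHom
    have h1 : Module.finrank F R ≤ Module.finrank F (Module.End F S) :=
      LinearMap.finrank_le_finrank_of_injective
        (f := (Algebra.lsmul F F S : R →ₐ[F] Module.End F S).toLinearMap) hinj
    rw [hR, Module.finrank_linearMap, ← sq] at h1
    exact (Nat.pow_le_pow_iff_left (by norm_num)).1 h1
  exact le_antisymm (Nat.le_of_dvd hN hdvd) hle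

theorem equiv_of_finrank_eq {F : Type u} [Field F] {A : Type v} [Ring A] [Algebra F A]
    [IsSimpleRing A] [Module.Finite F A] {S : Type w} [AddCommGroup S] [Module F S] [Module A S]
    [IsScalarTower F A S] [Module.Finite F S] (h : Module.finrank F S = Module.finrank F A) :
    Nonempty (S ≃ₗ[A] A) := by
  haveI : IsArtinianRing A := IsArtinianRing.of_finite F A
  haveI : Module.Finite A S := Module.Finite.of_restrictScalars_finite F A S
  obtain ⟨n, _, T, hT, ⟨e⟩⟩ := (IsSimpleRing.isIsotypic A A).linearEquiv_fun
  haveI := hT
  obtain ⟨n', ⟨e'⟩⟩ := (D2_type (M' := S) T).linearEquiv_fun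
  have hk := D2_finrank_fun (F := F) T n e
  have hr := D2_finrank_fun (F := F) T n' e'
  haveI : Nontrivial T := IsSimpleModule.nontrivial A T
  haveI : Module.Finite F T := by
    haveI : IsNoetherian F A := inferInstance
    exact Module.Finite.of_injective (T.subtype.restrictScalars F) T.injective_subtype
  have hpos : 0 < Module.finrank F T := Module.finrank_pos
  have hn : n' = n := by
    have : n' * Module.finrank F T = n * Module.finrank F T := by rw [← hk, ← hr, h]
    exact Nat.eq_of_mul_eq_mul_right hpos this
  subst hn
  exact ⟨e'.trans e.symm⟩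

end Pool.Agent.Helper41.CF
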