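import Mathlib
import Pool.Agent.Helper41.CF.St.D1
import Pool.Agent.Helper41.CF.St.D2

/-!
# CF-D4: descent from an extension of degree prime to `n`

Proof.  `h` gives an `L`-space `V`, `dim_L V = n * n ^ 1 = n ^ 2`, `ρ : A →+* End_L V` and a pair
`(f, g)` of type `(Y, X)` (images in `L` of elements of `F`) commuting with `ρ`.  Regard `V` as an
`F`-space (`Module.compHom V (algebraMap F L)` with the scalar tower, `Module.finrank_mul_finrank`):
`dim_F V = [L : F] * n ^ 2`.  By `gen_simple` (for the `F`-linear operators `f`, `g` and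
`ρ : A →ₐ[F] End_F V`) there is a simple subalgebra `R` of `End_F V` of dimension `n ^ 2 * n ^ 2`.
`exists_submodule` with `N = n ^ 2`, `m = [L : F]`: there is an `R`-submodule `S` of `V` of dimension
`n ^ 2 = dim A`; it is an `A`-module through `ρ`, and `equiv_of_finrank_eq` gives `e : S ≃ₗ[A] A`.
Transport `f`, `g` to `A`: `A`-linear maps `f', g' : A → A` with `f' ^ n = Y`, `g' ^ n = X`,
`f' g' = ζ g' f'`.  They are right multiplications by `v = f' 1`, `u = g' 1`, so `v ^ n = Y`,
`u ^ n = X` and `f' (g' 1) = u v`, `g' (f' 1) = v u`, `u v = ζ v u`.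
-/

set_option autoImplicit false

namespace Pool.Agent.Helper41.CF

universe u

/-- the operators of a commuting pair on a module isomorphic to `A` are right multiplications -/
private theorem D4_right {F : Type*} [Field F] {A : Type*} [Ring A] [Algebra F A] {S : Type*}
    [AddCommGroup S] [Module F S] [Module A S] [IsScalarTower F A S] (e : S ≃ₗ[A] A)
    {n : ℕ} {ζ : F} (X Y : Fˣ) (f g : Module.End F S) (hf : ∀ (a : A) s, f (a • s) = a • f s)
    (hg : ∀ (a : A) s, g (a • s) = a • g s) (hfn : ∀ s, (f ^ n) s = (Y : F) • s)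
    (hgn : ∀ s, (g ^ n) s = (X : F) • s) (hfg : ∀ s, f (g s) = ζ • g (f s)) :
    ∃ u v : A, IsFr n ζ (X, Y) (u, v) := by
  have hF : ∀ (c : F) (s : S), e (c • s) = c • e s := by
    intro c s
    rw [← IsScalarTower.algebraMap_smul A c s, map_smul, smul_eq_mul, Algebra.smul_def]
  have key : ∀ (h : Module.End F S), (∀ (a : A) s, h (a • s) = a • h s) →
      ∀ s, e (h s) = e s * e (h (e.symm 1)) := by
    intro h hh s
    have h1 : s = e s • e.symm 1 := by
      rw [← map_smul, smul_eq_mul, mul_one, LinearEquiv.symm_apply_apply]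
    conv_lhs => rw [h1, hh, map_smul, smul_eq_mul]
  have pw : ∀ (h : Module.End F S), (∀ (a : A) s, h (a • s) = a • h s) →
      ∀ k : ℕ, e ((h ^ k) (e.symm 1)) = (e (h (e.symm 1))) ^ k := by
    intro h hh k
    induction k with
    | zero => simp
    | succ k ih =>
      rw [pow_succ', Module.End.mul_apply, key h hh, ih, pow_succ]
  refine ⟨e (g (e.symm 1)), e (f (e.symm 1)), ⟨?_, ?_, ?_⟩⟩
  · show e (g (e.symm 1)) ^ n = algebraMap F A X
    rw [← pw g hg, hgn, hF, LinearEquiv.apply_symm_apply, Algebra.algebraMap_eq_smul_one]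
  · show e (f (e.symm 1)) ^ n = algebraMap F A Y
    rw [← pw f hf, hfn, hF, LinearEquiv.apply_symm_apply, Algebra.algebraMap_eq_smul_one]
  · show e (g (e.symm 1)) * e (f (e.symm 1)) = ζ • (e (f (e.symm 1)) * e (g (e.symm 1)))
    rw [← key f hf, ← key g hg, hfg, hF]

theorem descent {F L A : Type u} [Field F] [Field L] [Algebra F L] [Module.Finite F L] [Ring A]
    [Algebra F A] [IsSimpleRing A] [Module.Finite F A] {n : ℕ} (hn : 0 < n) {ζ : F}
    (hζ : IsPrimitiveRoot ζ n) (hco : (Module.finrank F L).Coprime n)
    (hA : Module.finrank F A = n ^ 2) (X Y : Fˣ)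
    (h : Spl n (algebraMap F L ζ) F A n
      [(Units.map (algebraMap F L : F →* L) Y, Units.map (algebraMap F L : F →* L) X)]) :
    ∃ u v : A, IsFr n ζ (X, Y) (u, v) := by
  obtain ⟨V, iV, iL, ρ, w, hfin, hρ, hV, hw, -, hcm⟩ := h
  rw [List.forall₂_cons_left_iff] at hw
  obtain ⟨p, w', hp, hw', rfl⟩ := hw
  rw [List.forall₂_nil_left_iff] at hw'
  subst hw'
  have hcp := hcm p (by simp)
  obtain ⟨p1, p2, p3⟩ := hp
  simp only [List.length_cons, List.length_nil, zero_add, pow_one] at hV
  let iF : Module F V := Module.compHom V (algebraMap F L)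
  have hsm : ∀ (c : F) (v : V), c • v = algebraMap F L c • v := fun c v => rfl
  have tow : IsScalarTower F L V := IsScalarTower.of_algebraMap_smul fun c v => rfl
  have : Module.Finite F V := Module.Finite.trans L V
  have hdV : Module.finrank F V = Module.finrank F L * n ^ 2 := by
    rw [← Module.finrank_mul_finrank F L V, hV, sq]
  have : Nontrivial V := by
    have : 0 < Module.finrank L V := by rw [hV]; positivity
    exact Module.nontrivial_of_finrank_pos this
  -- restriction of scalars
  let res : Module.End L V → Module.End F V := fun φ => φ.restrictScalars F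
  have hres : ∀ φ v, res φ v = φ v := fun φ v => rfl
  have hresmul : ∀ φ ψ, res (φ * ψ) = res φ * res ψ := fun φ ψ => rfl
  have hrespow : ∀ φ (k : ℕ), res (φ ^ k) = res φ ^ k := by
    intro φ k
    induction k with
    | zero => rfl
    | succ k ih => rw [pow_succ, pow_succ, hresmul, ih]
  let ρF : A →ₐ[F] Module.End F V :=
    { toFun := fun a => res (ρ a)
      map_one' := by rw [map_one]; rfl
      map_mul' := fun a b => by rw [map_mul]; rfl
      map_zero' := by rw [map_zero]; rfl
      map_add' := fun a b => by rw [map_add]; rfl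
      commutes' := fun c => by
        ext v
        rw [hres, hρ]
        rfl }
  have hρF : ∀ a v, ρF a v = ρ a v := fun a v => rfl
  have hfr : IsFr n ζ (Y, X) (res p.1, res p.2) := by
    refine ⟨?_, ?_, ?_⟩
    · show res p.1 ^ n = algebraMap F (Module.End F V) Y
      rw [← hrespow, p1]
      ext v
      rfl
    · show res p.2 ^ n = algebraMap F (Module.End F V) X
      rw [← hrespow, p2]
      ext v
      rfl
    · show res p.1 * res p.2 = ζ • (res p.2 * res p.1)
      rw [← hresmul, p3]
      ext v
      rfl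
  have hcomF : ∀ a, Commute (res p.1) (ρF a) ∧ Commute (res p.2) (ρF a) := by
    intro a
    refine ⟨?_, ?_⟩
    · have := (hcp a).1
      show res p.1 * res (ρ a) = res (ρ a) * res p.1
      rw [← hresmul, this.eq, hresmul]
    · have := (hcp a).2
      show res p.2 * res (ρ a) = res (ρ a) * res p.2
      rw [← hresmul, this.eq, hresmul]
  obtain ⟨R, hRρ, hRf, hRg, hRs, hRd⟩ := gen_simple hn hζ ρF Y X (res p.1) (res p.2) hfr hcomF
  have := hRs
  have : Module.Finite F R := inferInstance
  have hm0 : 0 < Module.finrank F L := Module.finrank_pos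
  obtain ⟨S, hS⟩ := exists_submodule (F := F) (R := R) (W := V) (N := n ^ 2)
    (m := Module.finrank F L) (by positivity) (hco.pow_right 2) hm0 (by rw [hRd, hA]; ring) hdV
  -- the action of `A`
  let ρR : A →+* R := (ρF.codRestrict R hRρ : A →ₐ[F] R).toRingHom
  let iA : Module A S := Module.compHom S ρR
  have hact : ∀ (a : A) (s : S), a • s = (⟨ρF a, hRρ a⟩ : R) • s := fun a s => rfl
  have towA : IsScalarTower F A S := by
    refine ⟨fun c a s => ?_⟩
    rw [hact, hact, ← smul_assoc]
    congr 1
    apply Subtype.ext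
    show ρF (c • a) = c • ρF a
    rw [map_smul]
  have hSfree : Module.Free F S := Module.Free.of_divisionRing F S
  have hSfin : Module.Finite F S := Module.finite_of_finrank_pos (by rw [hS]; positivity)
  obtain ⟨e⟩ := equiv_of_finrank_eq (F := F) (A := A) (S := S) (by
    show Module.finrank F S = _
    rw [hS, hA])
  let mk : R → Module.End F S := fun r =>
    { toFun := fun s => r • s
      map_add' := fun s t => smul_add _ _ _
      map_smul' := fun c s => by
        rw [RingHom.id_apply]
        exact smul_comm r c s }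
  have hmk : ∀ r s, mk r s = r • s := fun r s => rfl
  have hmkpow : ∀ r (k : ℕ) s, (mk r ^ k) s = (r ^ k) • s := by
    intro r k
    induction k with
    | zero => intro s; rw [pow_zero, pow_zero, one_smul, Module.End.one_apply]
    | succ k ih =>
      intro s
      rw [pow_succ', Module.End.mul_apply, ih, hmk, ← mul_smul, pow_succ']
  have hRc : ∀ (c : F) (r : R) (s : S), (c • r) • s = c • (r • s) := fun c r s => smul_assoc c r s
  refine D4_right (F := F) (A := A) (S := S) (n := n) (ζ := ζ) e X Y (mk ⟨res p.1, hRf⟩) (mk ⟨res p.2, hRg⟩) ?_ ?_ ?_ ?_ ?_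
  · intro a s
    rw [hmk, hmk, hact, hact, ← mul_smul, ← mul_smul]
    congr 1
    apply Subtype.ext
    exact (hcomF a).1.eq
  · intro a s
    rw [hmk, hmk, hact, hact, ← mul_smul, ← mul_smul]
    congr 1
    apply Subtype.ext
    exact (hcomF a).2.eq
  · intro s
    rw [hmkpow]
    have : (⟨res p.1, hRf⟩ : R) ^ n = (Y : F) • (1 : R) := by
      apply Subtype.ext
      show res p.1 ^ n = (Y : F) • (1 : Module.End F V)
      rw [← Algebra.algebraMap_eq_smul_one]
      exact hfr.pow_fst
    rw [this, hRc, one_smul]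
  · intro s
    rw [hmkpow]
    have : (⟨res p.2, hRg⟩ : R) ^ n = (X : F) • (1 : R) := by
      apply Subtype.ext
      show res p.2 ^ n = (X : F) • (1 : Module.End F V)
      rw [← Algebra.algebraMap_eq_smul_one]
      exact hfr.pow_snd
    rw [this, hRc, one_smul]
  · intro s
    rw [hmk, hmk, hmk, hmk, ← mul_smul, ← mul_smul, ← hRc]
    congr 1
    apply Subtype.ext
    exact hfr.comm

end Pool.Agent.Helper41.CF
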