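import Mathlib
import Pool.Agent.Helper41.CF.Defs

/-!
# CF-F1: frames of `L ⊗ A` give splittings

Proof.  `V = L ⊗[F] A`, of dimension `n ^ 2` over `L` (`Module.finrank_baseChange` or
`Module.finrank_tensorProduct`).  First theorem: `ρ a` is left multiplication by `1 ⊗ a`, the operators
of the pair are the right multiplications by `y` and `x` (in this order):
`R_y R_x v = v x y = z v y x = z R_x R_y v`, of type `(b, a)`.  Second theorem: first pair = left
multiplications by `x`, `y` (type `(a, b)`), second pair = right multiplications by `y'`, `x'`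
(type `(d, c)`).  Use `LinearMap.mulLeft`, `LinearMap.mulRight` (`Algebra.lmul`).
-/

set_option autoImplicit false

open TensorProduct

namespace Pool.Agent.Helper41.CF

universe u

variable {F L A : Type u} [Field F] [Field L] [Algebra F L] [Ring A] [Algebra F A]
  [Module.Finite F A] {n : ℕ} {z : L}

private theorem F1_isFr_mulRight {E : Type u} [Ring E] [Algebra L E] {a b : Lˣ} {x y : E}
    (h : IsFr n z (a, b) (x, y)) :
    IsFr n z (b, a) (LinearMap.mulRight L y, LinearMap.mulRight L x) := by
  refine ⟨?_, ?_, ?_⟩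
  · change (LinearMap.mulRight L y) ^ n = _
    rw [LinearMap.pow_mulRight, h.pow_snd]
    ext v
    rw [LinearMap.mulRight_apply, Module.algebraMap_end_apply, ← Algebra.commutes,
      Algebra.smul_def]
  · change (LinearMap.mulRight L x) ^ n = _
    rw [LinearMap.pow_mulRight, h.pow_fst]
    ext v
    rw [LinearMap.mulRight_apply, Module.algebraMap_end_apply, ← Algebra.commutes,
      Algebra.smul_def]
  · ext v
    change v * x * y = z • (v * y * x)
    have h1 : x * y = z • (y * x) := h.comm
    rw [mul_assoc, h1, mul_smul_comm, mul_assoc]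

private theorem F1_isFr_mulLeft {E : Type u} [Ring E] [Algebra L E] {a b : Lˣ} {x y : E}
    (h : IsFr n z (a, b) (x, y)) :
    IsFr n z (a, b) (LinearMap.mulLeft L x, LinearMap.mulLeft L y) := by
  refine ⟨?_, ?_, ?_⟩
  · change (LinearMap.mulLeft L x) ^ n = _
    rw [LinearMap.pow_mulLeft, h.pow_fst]
    ext v
    rw [LinearMap.mulLeft_apply, Module.algebraMap_end_apply, Algebra.smul_def]
  · change (LinearMap.mulLeft L y) ^ n = _
    rw [LinearMap.pow_mulLeft, h.pow_snd]
    ext v
    rw [LinearMap.mulLeft_apply, Module.algebraMap_end_apply, Algebra.smul_def]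
  · ext v
    change x * (y * v) = z • (y * (x * v))
    have h1 : x * y = z • (y * x) := h.comm
    rw [← mul_assoc, h1, smul_mul_assoc, mul_assoc]

private theorem F1_commute {E : Type u} [Ring E] [Algebra L E] (x y : E) :
    Commute (LinearMap.mulLeft L x) (LinearMap.mulRight L y) := by
  ext v
  change x * (v * y) = x * v * y
  rw [mul_assoc]

theorem spl_of_frame (hA : Module.finrank F A = n ^ 2) {a b : Lˣ} {x y : L ⊗[F] A}
    (h : IsFr n z (a, b) (x, y)) : Spl n z F A n [(b, a)] := by
  refine ⟨L ⊗[F] A, inferInstance, inferInstance,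
    (Algebra.lmul L (L ⊗[F] A)).toRingHom.comp
      (Algebra.TensorProduct.includeRight : A →ₐ[F] L ⊗[F] A).toRingHom,
    [(LinearMap.mulRight L y, LinearMap.mulRight L x)], inferInstance, ?_, ?_, ?_, ?_, ?_⟩
  · intro c
    change Algebra.lmul L (L ⊗[F] A)
      ((Algebra.TensorProduct.includeRight : A →ₐ[F] L ⊗[F] A) (algebraMap F A c)) = _
    rw [AlgHom.commutes, IsScalarTower.algebraMap_apply F L (L ⊗[F] A), AlgHom.commutes]
  · rw [Module.finrank_baseChange, hA]
    simp [pow_two]
  · exact List.Forall₂.cons (F1_isFr_mulRight h) List.Forall₂.nil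
  · exact List.pairwise_singleton _ _
  · intro p hp a
    rw [List.mem_singleton] at hp
    subst hp
    exact ⟨(F1_commute _ _).symm, (F1_commute _ _).symm⟩

theorem sp_of_two_frames (hA : Module.finrank F A = n ^ 2) {a b c d : Lˣ} {x y x' y' : L ⊗[F] A}
    (h : IsFr n z (a, b) (x, y)) (h' : IsFr n z (c, d) (x', y')) : Sp n z [(a, b), (d, c)] := by
  refine ⟨L ⊗[F] A, inferInstance, inferInstance, algebraMap L (Module.End L (L ⊗[F] A)),
    [(LinearMap.mulLeft L x, LinearMap.mulLeft L y),
      (LinearMap.mulRight L y', LinearMap.mulRight L x')], inferInstance, ?_, ?_, ?_, ?_, ?_⟩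
  · intro c
    rfl
  · rw [Module.finrank_baseChange, hA]
    simp
  · exact List.Forall₂.cons (F1_isFr_mulLeft h)
      (List.Forall₂.cons (F1_isFr_mulRight h') List.Forall₂.nil)
  · rw [List.pairwise_cons]
    refine ⟨?_, List.pairwise_singleton _ _⟩
    intro p hp
    rw [List.mem_singleton] at hp
    subst hp
    exact ⟨F1_commute _ _, F1_commute _ _, F1_commute _ _, F1_commute _ _⟩
  · intro p _ a
    exact ⟨(Algebra.commutes a p.1).symm, (Algebra.commutes a p.2).symm⟩

end Pool.Agent.Helper41.CF
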