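import Mathlib
import Pool.Agent.Helper41.CF.Defs

/-!
# CF-G1: eigenspaces of an operator of order `n` have the same dimension

Proof.  `(n : L) ≠ 0` and `X ^ n - 1 = ∏ (X - z ^ j)` because `z` is a primitive root.  Put
`P j = (1 / n) ∑_{k < n} z ^ (-j k) U ^ k`; then `∑_{j<n} P j = 1`, `(U - z ^ j) * P j = 0`, and
`T * P j = P (j - 1) * T` or so (`T U = z U T`, hence `T` maps `ker (U - z^j)` to
`ker (U - z^(j-1))`).  The map `(Fin n → ker (U - 1)) → V`, `v ↦ ∑ j, (T ^ j) (v j)` is a linear
equivalence: injective because the vectors `T ^ j (v j)` are eigenvectors of `U` for the distinct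
eigenvalues `z ^ (-j)` (`Module.End.eigenspaces_iSupIndep`), surjective by `∑ P j = 1`.
Alternatively use `Module.End` API for `⨆ eigenspace = ⊤` and the dimension formula for internal
direct sums; any proof is welcome.
-/

set_option autoImplicit false

namespace Pool.Agent.Helper41.CF

universe u v

private theorem G1_map {L : Type u} [Field L] {V : Type v} [AddCommGroup V] [Module L V]
    {z : L} (hz : z ≠ 0) (U T : Module.End L V) (hT : IsUnit T) (hTU : T * U = z • (U * T))
    (μ : L) : (Module.End.eigenspace U μ).map T = Module.End.eigenspace U (z⁻¹ * μ) := by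
  have h0 : ∀ v, T (U v) = z • U (T v) := fun v => by
    have := congrArg (fun f : Module.End L V => f v) hTU
    simpa using this
  obtain ⟨T', hT1, hT2⟩ := isUnit_iff_exists.1 hT
  have h1 : ∀ w, T (T' w) = w := fun w => by
    have := congrArg (fun f : Module.End L V => f w) hT1
    simpa using this
  have hinj : Function.Injective T := by
    intro a b hab
    have h3 : ∀ w, T' (T w) = w := fun w => by
      have := congrArg (fun f : Module.End L V => f w) hT2
      simpa using this
    rw [← h3 a, ← h3 b, hab]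
  ext w
  rw [Submodule.mem_map, Module.End.mem_eigenspace_iff]
  constructor
  · rintro ⟨v, hv, rfl⟩
    rw [Module.End.mem_eigenspace_iff] at hv
    have h2 := h0 v
    rw [hv, map_smul] at h2
    rw [mul_smul, h2, smul_smul, inv_mul_cancel₀ hz, one_smul]
  · intro hw
    refine ⟨T' w, ?_, h1 w⟩
    rw [Module.End.mem_eigenspace_iff]
    apply hinj
    rw [h0, h1, hw, map_smul, h1, smul_smul, ← mul_assoc, mul_inv_cancel₀ hz, one_mul]

private theorem G1_dim {L : Type u} [Field L] {V : Type v} [AddCommGroup V] [Module L V]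
    {z : L} (hz : z ≠ 0) (U T : Module.End L V) (hT : IsUnit T) (hTU : T * U = z • (U * T))
    (k : ℕ) : Module.finrank L (Module.End.eigenspace U (z ^ k)) =
      Module.finrank L (Module.End.eigenspace U (1 : L)) := by
  have hinj : Function.Injective T := by
    obtain ⟨T', hT1, hT2⟩ := isUnit_iff_exists.1 hT
    intro a b hab
    have h3 : ∀ w, T' (T w) = w := fun w => by
      have := congrArg (fun f : Module.End L V => f w) hT2
      simpa using this
    rw [← h3 a, ← h3 b, hab]
  induction k with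
  | zero => rw [pow_zero]
  | succ k ih =>
    rw [← ih]
    have h1 := G1_map hz U T hT hTU (z ^ (k + 1))
    have h2 : z⁻¹ * z ^ (k + 1) = z ^ k := by
      rw [pow_succ', ← mul_assoc, inv_mul_cancel₀ hz, one_mul]
    rw [h2] at h1
    rw [← h1]
    exact (Submodule.equivMapOfInjective T hinj
      (Module.End.eigenspace U (z ^ (k + 1)))).finrank_eq

private theorem G1_top {L : Type u} [Field L] {V : Type v} [AddCommGroup V] [Module L V]
    {n : ℕ} (hn : 0 < n) {z : L} (hz : IsPrimitiveRoot z n) (U : Module.End L V)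
    (hU : U ^ n = 1) :
    ⨆ j : Fin n, Module.End.eigenspace U (z ^ (j : ℕ)) = ⊤ := by
  have hz0 : z ≠ 0 := hz.ne_zero hn.ne'
  have hnL : (n : L) ≠ 0 := by
    have : NeZero n := ⟨hn.ne'⟩
    exact (hz.neZero' ).out
  rw [eq_top_iff]
  intro v _
  set P : ℕ → V := fun j => ∑ k ∈ Finset.range n, ((z ^ j)⁻¹) ^ k • (U ^ k) v with hP
  have hPmem : ∀ j, P j ∈ Module.End.eigenspace U (z ^ j) := by
    intro j
    rw [Module.End.mem_eigenspace_iff]
    have hzj : z ^ j ≠ 0 := pow_ne_zero _ hz0
    have h1 : U (P j) = ∑ k ∈ Finset.range n, z ^ j • (((z ^ j)⁻¹) ^ (k + 1) • (U ^ (k + 1)) v) := by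
      rw [hP, map_sum]
      refine Finset.sum_congr rfl fun k _ => ?_
      rw [map_smul, smul_smul, pow_succ', ← mul_assoc, mul_inv_cancel₀ hzj, one_mul, pow_succ' U]
      rfl
    have h2 : ∑ k ∈ Finset.range n, ((z ^ j)⁻¹) ^ (k + 1) • (U ^ (k + 1)) v = P j := by
      have h3 := Finset.sum_range_succ (fun k => ((z ^ j)⁻¹) ^ k • (U ^ k) v) n
      have h4 := Finset.sum_range_succ' (fun k => ((z ^ j)⁻¹) ^ k • (U ^ k) v) n
      have h5 : ((z ^ j)⁻¹) ^ n = 1 := by
        rw [inv_pow, ← pow_mul, mul_comm, pow_mul, hz.pow_eq_one, one_pow, inv_one]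
      rw [h3] at h4
      simp only [pow_zero, h5, hU] at h4
      exact (add_right_cancel h4).symm
    rw [h1, ← Finset.smul_sum, h2]
  have hsum : ∑ j ∈ Finset.range n, P j = (n : L) • v := by
    rw [hP, Finset.sum_comm]
    have h1 : ∀ k ∈ Finset.range n, ∑ j ∈ Finset.range n, ((z ^ j)⁻¹) ^ k • (U ^ k) v =
        if k = 0 then (n : L) • v else 0 := by
      intro k hk
      rw [← Finset.sum_smul]
      have h2 : ∑ j ∈ Finset.range n, ((z ^ j)⁻¹) ^ k =
          ∑ j ∈ Finset.range n, ((z ^ k)⁻¹) ^ j := by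
        refine Finset.sum_congr rfl fun j _ => ?_
        rw [inv_pow, inv_pow, ← pow_mul, ← pow_mul, mul_comm]
      rw [h2]
      by_cases hk0 : k = 0
      · subst hk0
        simp
      · rw [if_neg hk0]
        have h3 : (z ^ k)⁻¹ ≠ 1 := by
          intro h
          rw [inv_eq_one] at h
          exact hk0 (Nat.eq_zero_of_dvd_of_lt (hz.dvd_of_pow_eq_one k h)
            (Finset.mem_range.1 hk))
        have h4 := geom_sum_mul ((z ^ k)⁻¹) n
        have h5 : ((z ^ k)⁻¹) ^ n = 1 := by
          rw [inv_pow, ← pow_mul, mul_comm, pow_mul, hz.pow_eq_one, one_pow, inv_one]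
        rw [h5, sub_self] at h4
        rcases mul_eq_zero.1 h4 with h6 | h6
        · rw [h6, zero_smul]
        · exact absurd (sub_eq_zero.1 h6) h3
    rw [Finset.sum_congr rfl h1, Finset.sum_ite_eq' (Finset.range n) 0,
      if_pos (Finset.mem_range.2 hn)]
  have hv : v = (n : L)⁻¹ • ∑ j ∈ Finset.range n, P j := by
    rw [hsum, smul_smul, inv_mul_cancel₀ hnL, one_smul]
  rw [hv]
  refine Submodule.smul_mem _ _ (Submodule.sum_mem _ fun j hj => ?_)
  exact Submodule.mem_iSup_of_mem (⟨j, Finset.mem_range.1 hj⟩ : Fin n) (hPmem j)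

theorem eig_finrank {L : Type u} [Field L] {V : Type v} [AddCommGroup V] [Module L V]
    [Module.Finite L V] {n : ℕ} (hn : 0 < n) {z : L} (hz : IsPrimitiveRoot z n)
    (U T : Module.End L V) (hU : U ^ n = 1) (hT : IsUnit T) (hTU : T * U = z • (U * T)) :
    Module.finrank L V = n * Module.finrank L (LinearMap.ker (U - 1)) := by
  have hz0 : z ≠ 0 := hz.ne_zero hn.ne'
  have hind : iSupIndep (fun j : Fin n => Module.End.eigenspace U (z ^ (j : ℕ))) := by
    refine (Module.End.eigenspaces_iSupIndep U).comp (f := fun j : Fin n => z ^ (j : ℕ)) ?_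
    intro a b hab
    exact Fin.ext (hz.pow_inj a.2 b.2 hab)
  have hint : DirectSum.IsInternal (fun j : Fin n => Module.End.eigenspace U (z ^ (j : ℕ))) :=
    DirectSum.isInternal_submodule_of_iSupIndep_of_iSup_eq_top hind (G1_top hn hz U hU)
  have h1 := (LinearEquiv.ofBijective (DirectSum.coeLinearMap
    (fun j : Fin n => Module.End.eigenspace U (z ^ (j : ℕ)))) hint).finrank_eq
  rw [Module.finrank_directSum] at h1
  have h3 : ∑ i : Fin n, Module.finrank L (Module.End.eigenspace U (z ^ (i : ℕ))) =
      ∑ i : Fin n, Module.finrank L (Module.End.eigenspace U (1 : L)) :=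
    Finset.sum_congr rfl fun (j : Fin n) _ => G1_dim hz0 U T hT hTU (j : ℕ)
  rw [← h1, h3, Finset.sum_const, Finset.card_univ, Fintype.card_fin, smul_eq_mul]
  have h2 : Module.End.eigenspace U (1 : L) = LinearMap.ker (U - 1) := by
    rw [Module.End.eigenspace_def]
    simp
  rw [h2]

end Pool.Agent.Helper41.CF
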