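import Mathlib
import Pool.Agent.Helper41.CF.Defs

/-!
# CF-G2: compression to the space of fixed vectors of an operator

Proof.  `c S = π ∘ S ∘ ι` with `ι` the inclusion of `ker (U - 1)` and `π` a linear projection onto it
(`Submodule.exists_isCompl` and `Submodule.linearProjOfIsCompl`, or
`LinearMap.exists_leftInverse_of_injective`).  If `T` commutes with `U` then `T` maps `ker (U - 1)` to itself,
so `ι ∘ π ∘ T ∘ ι = T ∘ ι`.
-/

set_option autoImplicit false

namespace Pool.Agent.Helper41.CF

universe u v

theorem exists_compress {L : Type u} [Field L] {V : Type v} [AddCommGroup V] [Module L V]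
    (U : Module.End L V) :
    ∃ c : Module.End L V →ₗ[L] Module.End L (LinearMap.ker (U - 1)), c 1 = 1 ∧
      (∀ S T, Commute T U → c (S * T) = c S * c T) ∧
      ∀ S, Commute S U → ∀ v, ((c S v : LinearMap.ker (U - 1)) : V) = S v := by
  obtain ⟨π, hπ⟩ := LinearMap.exists_leftInverse_of_injective
    (LinearMap.ker (U - 1)).subtype (Submodule.ker_subtype _)
  have hπ' : ∀ v : LinearMap.ker (U - 1), π (v : V) = v := fun v => by
    have := LinearMap.congr_fun hπ v
    simpa using this
  have hker : ∀ (T : Module.End L V), Commute T U → ∀ v : LinearMap.ker (U - 1),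
      T v ∈ LinearMap.ker (U - 1) := by
    intro T hT v
    have h1 : (U - 1) (v : V) = 0 := v.2
    have h2 : U (v : V) = v := by
      rw [LinearMap.sub_apply, Module.End.one_apply, sub_eq_zero] at h1
      exact h1
    rw [LinearMap.mem_ker, LinearMap.sub_apply, Module.End.one_apply, sub_eq_zero]
    have h3 : (T * U) (v : V) = (U * T) (v : V) := by rw [hT.eq]
    rw [Module.End.mul_apply, Module.End.mul_apply, h2] at h3
    exact h3.symm
  let c : Module.End L V →ₗ[L] Module.End L (LinearMap.ker (U - 1)) :=
    { toFun := fun S => π ∘ₗ S ∘ₗ (LinearMap.ker (U - 1)).subtype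
      map_add' := fun S T => by
        rw [LinearMap.add_comp, LinearMap.comp_add]
      map_smul' := fun a S => by
        rw [LinearMap.smul_comp, LinearMap.comp_smul, RingHom.id_apply] }
  have hc : ∀ S v, c S v = π (S (v : V)) := fun S v => rfl
  have hval : ∀ S, Commute S U → ∀ v, ((c S v : LinearMap.ker (U - 1)) : V) = S v := by
    intro S hS v
    rw [hc, hπ' ⟨S v, hker S hS v⟩]
  refine ⟨c, ?_, ?_, hval⟩
  · ext v
    rw [hc, Module.End.one_apply, hπ', Module.End.one_apply]
  · intro S T hT
    refine LinearMap.ext fun v => ?_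
    rw [hc, Module.End.mul_apply, Module.End.mul_apply, hc, hval T hT v]

end Pool.Agent.Helper41.CF
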