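import Mathlib
import Pool.Agent.Helper41.CF.St.G1
import Pool.Agent.Helper41.CF.St.G2

/-!
# CF-G3: contraction `{a, b} + {a', b} = {a a', b}` and dropping of `{1, b}`

Proof of `contract`.  Let `w = (x, y) :: (x', y') :: w'` be the operators on `V`.  `y'` is a unit with inverse
`y'⁻¹ = b⁻¹ • y' ^ (n - 1)`.  Put `U = y * y'⁻¹`; `U ^ n = 1` (they commute), `T = x` is a unit and
`x * U = z • (U * x)`, so `eig_finrank` gives `dim V = n * dim V₀`, `V₀ = ker (U - 1)`.  The
operators `x * x'`, `y`, all operators of `w'` and all `ρ a` commute with `U`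
(`x' U = z⁻¹ U x'`, `x U = z U x`).  New data: `V₀`, `a ↦ c (ρ a)` (a ring homomorphism, by
`exists_compress`), `(c (x * x'), c y) :: w'.map (Prod.map c c)`; note that `c (S ^ n) = c S ^ n`
if `S` commutes with `U`, and `c (algebraMap r) = algebraMap r`.
Proof of `drop_one`.  `w = (x, y) :: w'` with `x ^ n = 1`; `U = x`, `T = y`, `T U = z⁻¹ U T`
and `z⁻¹` is also a primitive root; restrict `w'` and `ρ` to `ker (x - 1)`.
Please put the common part (restriction of a system of operators to `ker (U - 1)`) in one lemma.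
-/

set_option autoImplicit false

namespace Pool.Agent.Helper41.CF

universe u

private lemma G3_pow {L V : Type u} [Field L] [AddCommGroup V] [Module L V] {U : Module.End L V}
    (c : Module.End L V →ₗ[L] Module.End L (LinearMap.ker (U - 1))) (h1 : c 1 = 1)
    (hc : ∀ S T, Commute T U → c (S * T) = c S * c T) (S : Module.End L V) (hS : Commute S U)
    (k : ℕ) : c (S ^ k) = c S ^ k := by
  induction k with
  | zero => rw [pow_zero, pow_zero, h1]
  | succ k ih => rw [pow_succ, hc _ _ hS, ih, pow_succ]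

private lemma G3_alg {L V : Type u} [Field L] [AddCommGroup V] [Module L V] {U : Module.End L V}
    (c : Module.End L V →ₗ[L] Module.End L (LinearMap.ker (U - 1))) (h1 : c 1 = 1) (r : L) :
    c (algebraMap L (Module.End L V) r) = algebraMap L (Module.End L (LinearMap.ker (U - 1))) r := by
  rw [Algebra.algebraMap_eq_smul_one, Algebra.algebraMap_eq_smul_one, map_smul, h1]

private lemma G3_fr {L V : Type u} [Field L] [AddCommGroup V] [Module L V] {U : Module.End L V}
    {n : ℕ} {z : L}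
    (c : Module.End L V →ₗ[L] Module.End L (LinearMap.ker (U - 1))) (h1 : c 1 = 1)
    (hc : ∀ S T, Commute T U → c (S * T) = c S * c T) {l : List (Lˣ × Lˣ)}
    {w : List (Module.End L V × Module.End L V)} (h : List.Forall₂ (IsFr n z) l w)
    (hU : ∀ p ∈ w, Commute p.1 U ∧ Commute p.2 U) :
    List.Forall₂ (IsFr n z) l (w.map (Prod.map c c)) := by
  induction h with
  | nil => exact List.Forall₂.nil
  | @cons p q l w hpq hlw ih =>
    rw [List.map_cons]
    refine List.Forall₂.cons ?_ (ih fun r hr => hU r (List.mem_cons_of_mem _ hr))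
    obtain ⟨hq1, hq2⟩ := hU q (List.mem_cons_self)
    refine ⟨?_, ?_, ?_⟩
    · show (c q.1) ^ n = _
      rw [← G3_pow c h1 hc q.1 hq1, hpq.pow_fst, G3_alg c h1]
    · show (c q.2) ^ n = _
      rw [← G3_pow c h1 hc q.2 hq2, hpq.pow_snd, G3_alg c h1]
    · show c q.1 * c q.2 = z • (c q.2 * c q.1)
      rw [← hc _ _ hq2, ← hc _ _ hq1, hpq.comm, map_smul]

private lemma G3_restrict {L : Type u} [Field L] {n : ℕ} {z : L} {F : Type u} [Field F]
    [Algebra F L] {A : Type u} [Ring A] [Algebra F A] {N : ℕ} {l : List (Lˣ × Lˣ)}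
    {V : Type u} [AddCommGroup V] [Module L V] [Module.Finite L V] (ρ : A →+* Module.End L V)
    (w : List (Module.End L V × Module.End L V)) (U : Module.End L V)
    (hρ : ∀ c : F, ρ (algebraMap F A c) = algebraMap L (Module.End L V) (algebraMap F L c))
    (hfr : List.Forall₂ (IsFr n z) l w) (hpw : w.Pairwise Com)
    (hcom : ∀ p ∈ w, ∀ a : A, Commute p.1 (ρ a) ∧ Commute p.2 (ρ a))
    (hUw : ∀ p ∈ w, Commute p.1 U ∧ Commute p.2 U) (hUρ : ∀ a : A, Commute (ρ a) U)
    (hdim : Module.finrank L (LinearMap.ker (U - 1)) = N * n ^ l.length) :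
    Spl n z F A N l := by
  obtain ⟨c, h1, hc, -⟩ := exists_compress U
  let ρ₀ : A →+* Module.End L (LinearMap.ker (U - 1)) :=
    { toFun := fun a => c (ρ a)
      map_one' := by rw [map_one, h1]
      map_mul' := fun a b => by rw [map_mul, hc _ _ (hUρ b)]
      map_zero' := by rw [map_zero, map_zero]
      map_add' := fun a b => by rw [map_add, map_add] }
  have hcomm : ∀ S T : Module.End L V, Commute S T → Commute S U → Commute T U →
      Commute (c S) (c T) := by
    intro S T hST hS hT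
    show c S * c T = c T * c S
    rw [← hc _ _ hT, ← hc _ _ hS, hST.eq]
  refine ⟨LinearMap.ker (U - 1), inferInstance, inferInstance, ρ₀, w.map (Prod.map c c),
    inferInstance, ?_, hdim, G3_fr c h1 hc hfr hUw, ?_, ?_⟩
  · intro r
    show c (ρ (algebraMap F A r)) = _
    rw [hρ, G3_alg c h1]
  · rw [List.pairwise_map]
    refine hpw.imp_of_mem ?_
    intro p q hp hq hpq
    exact ⟨hcomm _ _ hpq.1 (hUw p hp).1 (hUw q hq).1, hcomm _ _ hpq.2.1 (hUw p hp).1 (hUw q hq).2,
      hcomm _ _ hpq.2.2.1 (hUw p hp).2 (hUw q hq).1, hcomm _ _ hpq.2.2.2 (hUw p hp).2 (hUw q hq).2⟩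
  · intro p hp a
    rw [List.mem_map] at hp
    obtain ⟨q, hq, rfl⟩ := hp
    exact ⟨hcomm _ _ (hcom q hq a).1 (hUw q hq).1 (hUρ a),
      hcomm _ _ (hcom q hq a).2 (hUw q hq).2 (hUρ a)⟩

/-- an element whose `n`-th power is a nonzero scalar is invertible -/
private lemma G3_inv {L E : Type u} [Field L] [Ring E] [Algebra L E] {n : ℕ} (hn : 0 < n) (b : Lˣ)
    (y : E) (hy : y ^ n = algebraMap L E b) :
    ∃ v : E, y * v = 1 ∧ v * y = 1 ∧ ∀ q : E, Commute q y → Commute q v := by
  have hb : (((b⁻¹ : Lˣ) : L)) * (b : L) = 1 := by simp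
  refine ⟨((b⁻¹ : Lˣ) : L) • y ^ (n - 1), ?_, ?_, ?_⟩
  · rw [mul_smul_comm, ← pow_succ', Nat.sub_add_cancel hn, hy, Algebra.algebraMap_eq_smul_one,
      smul_smul, hb, one_smul]
  · rw [smul_mul_assoc, ← pow_succ, Nat.sub_add_cancel hn, hy, Algebra.algebraMap_eq_smul_one,
      smul_smul, hb, one_smul]
  · intro q hq
    exact (hq.pow_right _).smul_right _

theorem Spl.contract {L : Type u} [Field L] {n : ℕ} (hn : 0 < n) {z : L}
    (hz : IsPrimitiveRoot z n) {F : Type u} [Field F] [Algebra F L] {A : Type u} [Ring A]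
    [Algebra F A] {N : ℕ} {a a' b : Lˣ} {l : List (Lˣ × Lˣ)}
    (h : Spl n z F A N ((a, b) :: (a', b) :: l)) : Spl n z F A N ((a * a', b) :: l) := by
  obtain ⟨V, _, _, ρ, w, hfin, hρ, hdim, hfr, hpw, hcom⟩ := h
  cases hfr with
  | @cons _ p _ w1 hp hfr1 =>
  cases hfr1 with
  | @cons _ p' _ w' hp' hfr' =>
  obtain ⟨x, y⟩ := p
  obtain ⟨x', y'⟩ := p'
  rw [List.pairwise_cons] at hpw
  obtain ⟨hP, hpw1⟩ := hpw
  rw [List.pairwise_cons] at hpw1
  obtain ⟨hP', hpw'⟩ := hpw1
  obtain ⟨hxx, hxy, hyx, hyy⟩ := hP (x', y') List.mem_cons_self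
  simp only at hxx hxy hyx hyy
  have e1 : x ^ n = algebraMap L _ (a : L) := hp.pow_fst
  have e2 : y ^ n = algebraMap L _ (b : L) := hp.pow_snd
  have e3 : x * y = z • (y * x) := hp.comm
  have e1' : x' ^ n = algebraMap L _ (a' : L) := hp'.pow_fst
  have e2' : y' ^ n = algebraMap L _ (b : L) := hp'.pow_snd
  have e3' : x' * y' = z • (y' * x') := hp'.comm
  obtain ⟨v, hv1, hv2, hv⟩ := G3_inv hn b y' e2'
  have hz0 : z ≠ 0 := hz.ne_zero hn.ne'
  have hvx : v * x' = z • (x' * v) := by
    calc v * x' = v * x' * (y' * v) := by rw [hv1, mul_one]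
      _ = v * (x' * y') * v := by noncomm_ring
      _ = z • (v * y' * x' * v) := by
          rw [e3', mul_smul_comm, smul_mul_assoc, mul_assoc v y' x']
      _ = z • (x' * v) := by rw [hv2, one_mul]
  have hyv : Commute y v := hv y hyy
  have hxv : Commute x v := hv x hxy
  have hUn : (y * v) ^ n = 1 := by
    rw [hyv.mul_pow, e2, ← e2']
    have : Commute y' v := by
      show y' * v = v * y'
      rw [hv1, hv2]
    rw [← this.mul_pow, hv1, one_pow]
  have hxU : IsUnit x := by
    obtain ⟨u, hu1, hu2, -⟩ := G3_inv hn a x e1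
    exact ⟨⟨x, u, hu1, hu2⟩, rfl⟩
  have hTU : x * (y * v) = z • (y * v * x) := by
    rw [← mul_assoc, e3, smul_mul_assoc, mul_assoc, hxv.eq, mul_assoc]
  have hd := eig_finrank hn hz (y * v) x hUn hxU hTU
  have hdim0 : Module.finrank L (LinearMap.ker (y * v - 1)) =
      N * n ^ ((a * a', b) :: l).length := by
    have h2 : n * Module.finrank L (LinearMap.ker (y * v - 1)) =
        n * (N * n ^ ((a * a', b) :: l).length) := by
      rw [← hd, hdim]
      simp only [List.length_cons, pow_succ]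
      ring
    exact Nat.eq_of_mul_eq_mul_left hn h2
  have hcomU : ∀ q : Module.End L V, Commute q y → Commute q y' → Commute q (y * v) :=
    fun q h1 h2 => h1.mul_right (hv q h2)
  refine G3_restrict (l := (a * a', b) :: l) ρ ((x * x', y) :: w') (y * v) hρ ?_ ?_ ?_ ?_ ?_ hdim0
  · refine List.Forall₂.cons ⟨?_, e2, ?_⟩ hfr'
    · show (x * x') ^ n = algebraMap L _ ((a * a' : Lˣ) : L)
      rw [hxx.mul_pow, e1, e1', Units.val_mul, map_mul]
    · show x * x' * y = z • (y * (x * x'))
      rw [mul_assoc, ← hyx.eq, ← mul_assoc, e3, smul_mul_assoc, mul_assoc]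
  · rw [List.pairwise_cons]
    refine ⟨?_, hpw'⟩
    intro q hq
    have h1 := hP q (List.mem_cons_of_mem _ hq)
    have h2 := hP' q hq
    exact ⟨h1.1.mul_left h2.1, h1.2.1.mul_left h2.2.1, h1.2.2.1, h1.2.2.2⟩
  · intro q hq r
    rcases List.mem_cons.1 hq with rfl | hq
    · have h1 := hcom (x, y) List.mem_cons_self r
      have h2 := hcom (x', y') (List.mem_cons_of_mem _ List.mem_cons_self) r
      exact ⟨h1.1.mul_left h2.1, h1.2⟩
    · exact hcom q (List.mem_cons_of_mem _ (List.mem_cons_of_mem _ hq)) r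
  · intro q hq
    rcases List.mem_cons.1 hq with rfl | hq
    · refine ⟨?_, hcomU y (Commute.refl y) hyy⟩
      show x * x' * (y * v) = y * v * (x * x')
      have g1 : x * x' * (y * v) = x * y * (x' * v) := by
        rw [mul_assoc, ← mul_assoc x' y v, ← hyx.eq]
        noncomm_ring
      have g2 : y * v * (x * x') = y * x * (v * x') := by
        rw [mul_assoc, ← mul_assoc v x x', ← hxv.eq]
        noncomm_ring
      rw [g1, g2, e3, hvx, smul_mul_assoc, mul_smul_comm]
    · have h1 := hP q (List.mem_cons_of_mem _ hq)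
      have h2 := hP' q hq
      exact ⟨hcomU _ h1.2.2.1.symm h2.2.2.1.symm, hcomU _ h1.2.2.2.symm h2.2.2.2.symm⟩
  · intro r
    have h1 := hcom (x, y) List.mem_cons_self r
    have h2 := hcom (x', y') (List.mem_cons_of_mem _ List.mem_cons_self) r
    exact hcomU _ h1.2.symm h2.2.symm

theorem Spl.drop_one {L : Type u} [Field L] {n : ℕ} (hn : 0 < n) {z : L}
    (hz : IsPrimitiveRoot z n) {F : Type u} [Field F] [Algebra F L] {A : Type u} [Ring A]
    [Algebra F A] {N : ℕ} {b : Lˣ} {l : List (Lˣ × Lˣ)}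
    (h : Spl n z F A N ((1, b) :: l)) : Spl n z F A N l := by
  obtain ⟨V, _, _, ρ, w, hfin, hρ, hdim, hfr, hpw, hcom⟩ := h
  cases hfr with
  | @cons _ p _ w' hp hfr' =>
  obtain ⟨x, y⟩ := p
  rw [List.pairwise_cons] at hpw
  obtain ⟨hP, hpw'⟩ := hpw
  have e1 : x ^ n = algebraMap L _ ((1 : Lˣ) : L) := hp.pow_fst
  have e2 : y ^ n = algebraMap L _ (b : L) := hp.pow_snd
  have e3 : x * y = z • (y * x) := hp.comm
  have hz0 : z ≠ 0 := hz.ne_zero hn.ne'
  have hUn : x ^ n = 1 := by rw [e1, Units.val_one, map_one]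
  have hyU : IsUnit y := by
    obtain ⟨u, hu1, hu2, -⟩ := G3_inv hn b y e2
    exact ⟨⟨y, u, hu1, hu2⟩, rfl⟩
  have hTU : y * x = z⁻¹ • (x * y) := by
    rw [e3, smul_smul, inv_mul_cancel₀ hz0, one_smul]
  have hd := eig_finrank hn hz.inv x y hUn hyU hTU
  have hdim0 : Module.finrank L (LinearMap.ker (x - 1)) = N * n ^ l.length := by
    have h2 : n * Module.finrank L (LinearMap.ker (x - 1)) = n * (N * n ^ l.length) := by
      rw [← hd, hdim]
      simp only [List.length_cons, pow_succ]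
      ring
    exact Nat.eq_of_mul_eq_mul_left hn h2
  refine G3_restrict ρ w' x hρ hfr' hpw' ?_ ?_ ?_ hdim0
  · intro q hq r
    exact hcom q (List.mem_cons_of_mem _ hq) r
  · intro q hq
    have h1 := hP q hq
    exact ⟨h1.1.symm, h1.2.1.symm⟩
  · intro r
    exact (hcom (x, y) List.mem_cons_self r).1.symm

end Pool.Agent.Helper41.CF
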