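import Mathlib
import Pool.Agent.Helper41.CF.Defs

/-!
# CF-G5: permutation, swap, concatenation

* `perm`: `List.Perm`, `List.perm_comp_forall₂` (or `List.Perm` induction) for `Forall₂`, and
  `List.Perm.pairwise_iff` (`Com` is symmetric) for `Pairwise`.
* `swap`: `(x, y) ↦ (y, x⁻¹)` with `x⁻¹ = a⁻¹ • x ^ (n - 1)`: from `x y = z y x` we get
  `y x⁻¹ = z x⁻¹ y`; everything which commutes with `x` commutes with `x⁻¹`.
* `append`: the space `V ⊗ V'` with the operators `S ⊗ 1`, `1 ⊗ S'` (`Module.End.rTensorAlgHom`,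
  `lTensorAlgHom` or `TensorProduct.map`), `ρ` acting on the left factor.
* `nil`: `V = L` (here `A = L`, `N = 1`).
-/

set_option autoImplicit false

namespace Pool.Agent.Helper41.CF

universe u v

variable {L : Type u} [Field L] {n : ℕ} {z : L} {F : Type u} [Field F] [Algebra F L] {A : Type u}
  [Ring A] [Algebra F A] {N : ℕ}

lemma G5_com_symm {E : Type v} [Mul E] {w w' : E × E} (h : Com w w') : Com w' w :=
  ⟨h.1.symm, h.2.2.1.symm, h.2.1.symm, h.2.2.2.symm⟩

theorem Spl.perm {l l' : List (Lˣ × Lˣ)} (hl : l.Perm l') (h : Spl n z F A N l) :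
    Spl n z F A N l' := by
  obtain ⟨V, iV, mV, ρ, w, h1, h2, h3, h4, h5, h6⟩ := h
  obtain ⟨w', h7, h8⟩ := List.perm_comp_forall₂ hl.symm h4
  refine ⟨V, iV, mV, ρ, w', h1, h2, ?_, h7, ?_, fun p hp => h6 p (h8.mem_iff.1 hp)⟩
  · rw [← hl.length_eq]
    exact h3
  · exact (h8.pairwise_iff (fun h => G5_com_symm h)).2 h5

section

variable {E : Type v} [Ring E] [Algebra L E]

/-- the inverse of `x` -/
def G5_inv (n : ℕ) (a : Lˣ) (x : E) : E := ((a⁻¹ : Lˣ) : L) • x ^ (n - 1)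

lemma G5_inv_mul (hn : 0 < n) {a : Lˣ} {x : E} (h : x ^ n = algebraMap L E a) :
    G5_inv n a x * x = 1 := by
  unfold G5_inv
  rw [smul_mul_assoc, ← pow_succ, Nat.sub_add_cancel hn, h, Algebra.algebraMap_eq_smul_one,
    smul_smul, Units.inv_mul, one_smul]

lemma G5_mul_inv (hn : 0 < n) {a : Lˣ} {x : E} (h : x ^ n = algebraMap L E a) :
    x * G5_inv n a x = 1 := by
  unfold G5_inv
  rw [mul_smul_comm, ← pow_succ', Nat.sub_add_cancel hn, h, Algebra.algebraMap_eq_smul_one,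
    smul_smul, Units.inv_mul, one_smul]

lemma G5_commute {a : Lˣ} {x y : E} (h : Commute x y) : Commute (G5_inv n a x) y :=
  (h.pow_left (n - 1)).smul_left _

lemma G5_isFr (hn : 0 < n) {a b : Lˣ} {w : E × E} (h : IsFr n z (a, b) w) :
    IsFr n z (b, a⁻¹) (w.2, G5_inv n a w.1) := by
  obtain ⟨h1, h2, h3⟩ := h
  have e1 := G5_inv_mul hn h1
  have e2 := G5_mul_inv hn h1
  simp only at h1 h2
  refine ⟨h2, ?_, ?_⟩
  · show G5_inv n a w.1 ^ n = algebraMap L E ((a⁻¹ : Lˣ) : L)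
    have e3 : G5_inv n a w.1 ^ n * w.1 ^ n = 1 := by
      rw [← (show Commute (G5_inv n a w.1) w.1 from e1.trans e2.symm).mul_pow, e1, one_pow]
    rw [h1] at e3
    calc G5_inv n a w.1 ^ n
        = G5_inv n a w.1 ^ n * (algebraMap L E a * algebraMap L E ((a⁻¹ : Lˣ) : L)) := by
          rw [← map_mul, Units.mul_inv, map_one, mul_one]
      _ = algebraMap L E ((a⁻¹ : Lˣ) : L) := by rw [← mul_assoc, e3, one_mul]
  · show w.2 * G5_inv n a w.1 = z • (G5_inv n a w.1 * w.2)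
    calc w.2 * G5_inv n a w.1
        = G5_inv n a w.1 * (w.1 * w.2) * G5_inv n a w.1 := by
          rw [← mul_assoc (G5_inv n a w.1), e1, one_mul]
      _ = z • (G5_inv n a w.1 * w.2) := by
          rw [h3, mul_smul_comm, smul_mul_assoc, mul_assoc, mul_assoc w.2, e2, mul_one]

end

theorem Spl.swap (hn : 0 < n) (hz0 : z ≠ 0) {a b : Lˣ} {l : List (Lˣ × Lˣ)}
    (h : Spl n z F A N ((a, b) :: l)) : Spl n z F A N ((b, a⁻¹) :: l) := by
  obtain ⟨V, iV, mV, ρ, w, h1, h2, h3, h4, h5, h6⟩ := h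
  obtain ⟨p, w', h7, h8, rfl⟩ := List.forall₂_cons_left_iff.1 h4
  rw [List.pairwise_cons] at h5
  refine ⟨V, iV, mV, ρ, (p.2, G5_inv n a p.1) :: w', h1, h2, ?_, ?_, ?_, ?_⟩
  · rw [h3]
    rfl
  · exact List.Forall₂.cons (G5_isFr hn h7) h8
  · rw [List.pairwise_cons]
    refine ⟨fun q hq => ?_, h5.2⟩
    obtain ⟨c1, c2, c3, c4⟩ := h5.1 q hq
    exact ⟨c3, c4, G5_commute c1, G5_commute c2⟩
  · intro q hq c
    rw [List.mem_cons] at hq
    rcases hq with rfl | hq
    · obtain ⟨c1, c2⟩ := h6 p (List.mem_cons_self ..) c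
      exact ⟨c2, G5_commute c1⟩
    · exact h6 q (List.mem_cons_of_mem _ hq) c

section

open TensorProduct

variable {V : Type u} [AddCommGroup V] [Module L V] {V' : Type u} [AddCommGroup V'] [Module L V']

lemma G5_isFr_map {E : Type u} [Ring E] [Algebra L E] {E' : Type u} [Ring E'] [Algebra L E']
    (φ : E →ₐ[L] E') {p : Lˣ × Lˣ} {w : E × E} (h : IsFr n z p w) :
    IsFr n z p (φ w.1, φ w.2) := by
  obtain ⟨h1, h2, h3⟩ := h
  refine ⟨?_, ?_, ?_⟩
  · show φ w.1 ^ n = _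
    rw [← map_pow, h1, AlgHom.commutes]
  · show φ w.2 ^ n = _
    rw [← map_pow, h2, AlgHom.commutes]
  · show φ w.1 * φ w.2 = z • (φ w.2 * φ w.1)
    rw [← map_mul, h3, map_smul, map_mul]

lemma G5_com_map {E : Type u} [Ring E] [Algebra L E] {E' : Type u} [Ring E'] [Algebra L E']
    (φ : E →ₐ[L] E') {w w' : E × E} (h : Com w w') :
    Com (φ w.1, φ w.2) (φ w'.1, φ w'.2) :=
  ⟨h.1.map φ, h.2.1.map φ, h.2.2.1.map φ, h.2.2.2.map φ⟩

lemma G5_cross (f : Module.End L V) (g : Module.End L V') :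
    Commute (Module.End.rTensorAlgHom L V V' f) (Module.End.lTensorAlgHom L V' V g) := by
  apply TensorProduct.ext'
  intro x y
  rfl

end

open TensorProduct in
theorem Spl.append {l l' : List (Lˣ × Lˣ)} (h : Spl n z F A N l) (h' : Sp n z l') :
    Spl n z F A N (l ++ l') := by
  obtain ⟨V, iV, mV, ρ, w, h1, h2, h3, h4, h5, h6⟩ := h
  obtain ⟨V', iV', mV', ρ', w', g1, g2, g3, g4, g5, g6⟩ := h'
  set φ := Module.End.rTensorAlgHom L V V' with hφ
  set ψ := Module.End.lTensorAlgHom L V' V with hψ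
  refine ⟨V ⊗[L] V', inferInstance, inferInstance, (φ : Module.End L V →+* _).comp ρ,
    w.map (fun p => (φ p.1, φ p.2)) ++ w'.map (fun p => (ψ p.1, ψ p.2)),
    inferInstance, fun c => ?_, ?_, ?_, ?_, ?_⟩
  · show φ (ρ (algebraMap F A c)) = _
    rw [h2, AlgHom.commutes]
  · rw [Module.finrank_tensorProduct, h3, g3, List.length_append, pow_add]
    ring
  · refine List.rel_append ?_ ?_
    · rw [List.forall₂_map_right_iff]
      exact h4.imp fun p w h => G5_isFr_map φ h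
    · rw [List.forall₂_map_right_iff]
      exact g4.imp fun p w h => G5_isFr_map ψ h
  · rw [List.pairwise_append]
    refine ⟨?_, ?_, ?_⟩
    · rw [List.pairwise_map]
      exact h5.imp fun h => G5_com_map φ h
    · rw [List.pairwise_map]
      exact g5.imp fun h => G5_com_map ψ h
    · intro p hp q hq
      rw [List.mem_map] at hp hq
      obtain ⟨p, -, rfl⟩ := hp
      obtain ⟨q, -, rfl⟩ := hq
      exact ⟨G5_cross _ _, G5_cross _ _, G5_cross _ _, G5_cross _ _⟩
  · intro p hp c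
    rw [List.mem_append, List.mem_map, List.mem_map] at hp
    rcases hp with ⟨p, hp, rfl⟩ | ⟨p, hp, rfl⟩
    · obtain ⟨c1, c2⟩ := h6 p hp c
      exact ⟨c1.map φ, c2.map φ⟩
    · exact ⟨(G5_cross _ _).symm, (G5_cross _ _).symm⟩

theorem Sp.nil : Sp n z ([] : List (Lˣ × Lˣ)) := by
  refine ⟨L, inferInstance, inferInstance, algebraMap L (Module.End L L), [], inferInstance,
    fun c => rfl, by simp, List.Forall₂.nil, List.Pairwise.nil, by simp⟩

end Pool.Agent.Helper41.CF
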