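import Mathlib
import Pool.Agent.Helper41.CF.Defs

/-!
# CF-G6: symbols which split

Let `V = L[X] / (X ^ n - a)`, `S` the multiplication by the root `x`, `D` the algebra endomorphism
`x ↦ z⁻¹ x`.  Then `S ^ n = a`, `D ^ n = 1`, `S D = z D S`.
* `pow_split`: `{a, c ^ n}`: the frame `(S, c D)`.
* `stein_split`: `a + b = 1`: the frame `(S, (1 - S) D)`:
  `((1 - S) D) ^ n = ∏_{k < n} (1 - z ^ (-k) S) * D ^ n = 1 - S ^ n = 1 - a = b`.
* `inv_split`: `{a, b} + {a, b⁻¹}`: on `V ⊗ W`:
  `X₁ = S_a ⊗ 1`, `Y₁ = D ⊗ S_b`, `X₂ = S_a ⊗ D`, `Y₂ = 1 ⊗ S_b⁻¹`.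
-/

set_option autoImplicit false

namespace Pool.Agent.Helper41.CF

universe u

variable {L : Type u} [Field L] {n : ℕ} {z : L}

open Polynomial

/-- the Kummer algebra `L[X] / (X ^ n - a)` -/
abbrev G6_V (n : ℕ) (a : Lˣ) : Type u := AdjoinRoot (X ^ n - C (a : L))

theorem G6_root_pow (n : ℕ) (a : Lˣ) :
    (AdjoinRoot.root (X ^ n - C (a : L))) ^ n = algebraMap L (G6_V n a) (a : L) := by
  have h := AdjoinRoot.eval₂_root (X ^ n - C (a : L))
  rw [eval₂_sub, eval₂_pow, eval₂_X, eval₂_C, sub_eq_zero] at h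
  rw [h]
  rfl

theorem G6_finite (hn : 0 < n) (a : Lˣ) : Module.Finite L (G6_V n a) :=
  (monic_X_pow_sub_C (a : L) hn.ne').finite_adjoinRoot

theorem G6_finrank (hn : 0 < n) (a : Lˣ) : Module.finrank L (G6_V n a) = n := by
  have h := (AdjoinRoot.powerBasis (X_pow_sub_C_ne_zero hn (a : L))).finrank
  rw [h, AdjoinRoot.powerBasis_dim, natDegree_X_pow_sub_C]

/-- the algebra endomorphism `x ↦ z⁻¹ x` -/
noncomputable def G6_D (hz : z ^ n = 1) (a : Lˣ) : G6_V n a →ₐ[L] G6_V n a :=
  AdjoinRoot.liftAlgHom (X ^ n - C (a : L)) (Algebra.ofId L (G6_V n a))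
    (z⁻¹ • AdjoinRoot.root (X ^ n - C (a : L))) (by
      rw [eval₂_sub, eval₂_pow, eval₂_X, eval₂_C, _root_.smul_pow, inv_pow, hz, inv_one, one_smul,
        G6_root_pow, sub_eq_zero]
      rfl)

theorem G6_D_root (hz : z ^ n = 1) (a : Lˣ) :
    G6_D hz a (AdjoinRoot.root (X ^ n - C (a : L))) =
      z⁻¹ • AdjoinRoot.root (X ^ n - C (a : L)) := by
  rw [G6_D, AdjoinRoot.liftAlgHom_root]

theorem G6_D_pow_root (hz : z ^ n = 1) (a : Lˣ) (k : ℕ) :
    (G6_D hz a ^ k) (AdjoinRoot.root (X ^ n - C (a : L))) =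
      z⁻¹ ^ k • AdjoinRoot.root (X ^ n - C (a : L)) := by
  induction k with
  | zero => simp
  | succ k ih =>
    rw [pow_succ', AlgHom.mul_apply, ih, map_smul, G6_D_root, smul_smul, pow_succ]

theorem G6_D_pow (hz : z ^ n = 1) (a : Lˣ) : G6_D hz a ^ n = 1 := by
  apply AdjoinRoot.algHom_ext
  rw [G6_D_pow_root, inv_pow, hz, inv_one, one_smul]
  rfl

/-- multiplication by `f` -/
noncomputable def G6_M (n : ℕ) (a : Lˣ) (f : G6_V n a) : Module.End L (G6_V n a) :=
  Algebra.lmul L (G6_V n a) f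

/-- the operator `D` -/
noncomputable def G6_T (hz : z ^ n = 1) (a : Lˣ) : Module.End L (G6_V n a) :=
  (G6_D hz a).toLinearMap

theorem G6_M_mul (a : Lˣ) (f g : G6_V n a) : G6_M n a (f * g) = G6_M n a f * G6_M n a g := by
  rw [G6_M, map_mul]; rfl

theorem G6_M_pow (a : Lˣ) (f : G6_V n a) (k : ℕ) : G6_M n a f ^ k = G6_M n a (f ^ k) := by
  rw [G6_M, G6_M, map_pow]

theorem G6_M_alg (a : Lˣ) (c : L) :
    G6_M n a (algebraMap L (G6_V n a) c) = algebraMap L (Module.End L (G6_V n a)) c := by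
  rw [G6_M, AlgHom.commutes]

theorem G6_T_apply (hz : z ^ n = 1) (a : Lˣ) (k : ℕ) (v : G6_V n a) :
    (G6_T hz a ^ k) v = (G6_D hz a ^ k) v := by
  induction k generalizing v with
  | zero => rfl
  | succ k ih =>
    rw [pow_succ, pow_succ, Module.End.mul_apply, AlgHom.mul_apply, ih]; rfl

theorem G6_T_pow (hz : z ^ n = 1) (a : Lˣ) : G6_T hz a ^ n = 1 := by
  ext1 v
  rw [G6_T_apply, G6_D_pow]; rfl

theorem G6_T_M (hz : z ^ n = 1) (a : Lˣ) (k : ℕ) (f : G6_V n a) :
    G6_T hz a ^ k * G6_M n a f = G6_M n a ((G6_D hz a ^ k) f) * G6_T hz a ^ k := by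
  ext1 v
  rw [Module.End.mul_apply, Module.End.mul_apply, G6_T_apply, G6_T_apply, G6_M, G6_M,
    Algebra.coe_lmul_eq_mul, LinearMap.mul_apply', LinearMap.mul_apply', map_mul]

theorem G6_S_pow (n : ℕ) (a : Lˣ) :
    G6_M n a (AdjoinRoot.root (X ^ n - C (a : L))) ^ n =
      algebraMap L (Module.End L (G6_V n a)) (a : L) := by
  rw [G6_M_pow, G6_root_pow, G6_M_alg]

theorem G6_M_smul (a : Lˣ) (c : L) (f : G6_V n a) : G6_M n a (c • f) = c • G6_M n a f := by
  rw [G6_M, map_smul]; rfl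

theorem G6_S_T (hz : z ^ n = 1) (hz0 : z ≠ 0) (a : Lˣ) :
    G6_M n a (AdjoinRoot.root (X ^ n - C (a : L))) * G6_T hz a =
      z • (G6_T hz a * G6_M n a (AdjoinRoot.root (X ^ n - C (a : L)))) := by
  have h := G6_T_M hz a 1 (AdjoinRoot.root (X ^ n - C (a : L)))
  rw [pow_one, pow_one, G6_D_root, G6_M_smul] at h
  rw [h, smul_mul_assoc, smul_smul, mul_inv_cancel₀ hz0, one_smul]

/-- one frame on a space of dimension `n` splits the symbol -/
theorem G6_one {V : Type u} [AddCommGroup V] [Module L V] (hf : Module.Finite L V)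
    (hr : Module.finrank L V = n) (p : Lˣ × Lˣ) (w : Module.End L V × Module.End L V)
    (hw : IsFr n z p w) : Sp n z [p] := by
  refine ⟨V, inferInstance, inferInstance, algebraMap L (Module.End L V), [w], hf,
    fun c => rfl, ?_, ?_, ?_, ?_⟩
  · rw [hr]; simp
  · exact List.Forall₂.cons hw List.Forall₂.nil
  · exact List.pairwise_singleton _ _
  · intro p _ a
    exact ⟨(Algebra.commutes a p.1).symm, (Algebra.commutes a p.2).symm⟩

theorem pow_split (hn : 0 < n) (hz : IsPrimitiveRoot z n) (a c : Lˣ) :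
    Sp n z [(a, c ^ n)] := by
  have hz1 := hz.pow_eq_one
  have hz0 := hz.ne_zero hn.ne'
  refine G6_one (G6_finite hn a) (G6_finrank hn a) _
    (G6_M n a (AdjoinRoot.root (X ^ n - C (a : L))), (c : L) • G6_T hz1 a) ⟨?_, ?_, ?_⟩
  · exact G6_S_pow n a
  · simp only
    rw [_root_.smul_pow, G6_T_pow, Units.val_pow_eq_pow_val, Algebra.algebraMap_eq_smul_one]
  · simp only
    rw [mul_smul_comm, G6_S_T hz1 hz0, smul_mul_assoc, smul_comm]

theorem stein_split (hn : 0 < n) (hz : IsPrimitiveRoot z n) (a b : Lˣ) (hab : (a : L) + b = 1) :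
    Sp n z [(a, b)] := by
  have hz1 := hz.pow_eq_one
  have hz0 := hz.ne_zero hn.ne'
  set x : G6_V n a := AdjoinRoot.root (X ^ n - C (a : L)) with hx
  have key : ∀ k : ℕ, (G6_M n a (1 - x) * G6_T hz1 a) ^ k =
      G6_M n a (∏ i ∈ Finset.range k, (1 - z⁻¹ ^ i • x)) * G6_T hz1 a ^ k := by
    intro k
    induction k with
    | zero => rw [pow_zero, pow_zero, Finset.range_zero, Finset.prod_empty, G6_M, map_one, mul_one]
    | succ k ih =>
      rw [pow_succ, ih, Finset.prod_range_succ, G6_M_mul, mul_assoc, ← mul_assoc (G6_T hz1 a ^ k),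
        G6_T_M, map_sub, map_one, hx, G6_D_pow_root, pow_succ, mul_assoc, mul_assoc]
  have hprod : (∏ i ∈ Finset.range n, (1 - z⁻¹ ^ i • x)) = algebraMap L (G6_V n a) (b : L) := by
    have h1 : IsPrimitiveRoot (C z⁻¹ : L[X]) n := hz.inv.map_of_injective C_injective
    have h2 := X_pow_sub_C_eq_prod h1 hn (rfl : (X : L[X]) ^ n = X ^ n)
    have h3 := congrArg (fun q => eval 1 q) h2
    simp only [eval_sub, eval_pow, eval_X, eval_C, one_pow, eval_prod] at h3
    have h5 := congrArg (fun q => aeval x q) h3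
    simp only [map_sub, map_one, map_pow, aeval_X, map_prod, map_mul, aeval_C] at h5
    have h4 : x ^ n = algebraMap L (G6_V n a) (a : L) := G6_root_pow n a
    rw [h4] at h5
    have h6 : (1 : G6_V n a) = algebraMap L (G6_V n a) (a : L) + algebraMap L (G6_V n a) (b : L) := by
      rw [← map_add, hab, map_one]
    have h7 : algebraMap L (G6_V n a) (b : L) = 1 - algebraMap L (G6_V n a) (a : L) := by
      rw [h6, add_sub_cancel_left]
    rw [h7, h5]
    refine Finset.prod_congr rfl fun i _ => ?_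
    rw [Algebra.smul_def, map_pow]
  refine G6_one (G6_finite hn a) (G6_finrank hn a) _
    (G6_M n a x, G6_M n a (1 - x) * G6_T hz1 a) ⟨?_, ?_, ?_⟩
  · exact G6_S_pow n a
  · simp only
    rw [key, hprod, G6_T_pow, mul_one, G6_M_alg]
  · simp only
    rw [← mul_assoc, ← G6_M_mul, mul_comm x, G6_M_mul, mul_assoc, hx, G6_S_T hz1 hz0,
      mul_smul_comm, mul_assoc]

theorem G6_inv_comm {E : Type u} [Ring E] [Algebra L E] {S D R : E} (h : S * D = z • (D * S))
    (h1 : R * S = 1) (h2 : S * R = 1) : D * R = z • (R * D) := by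
  have h3 : R * (S * D) * R = z • (R * (D * S) * R) := by
    rw [h, mul_smul_comm, smul_mul_assoc]
  rw [← mul_assoc, h1, one_mul] at h3
  rw [h3, mul_assoc, mul_assoc D, h2, mul_one]

theorem G6_inv_pow (hn : 0 < n) {E : Type u} [Ring E] [Algebra L E] {S : E} (b : Lˣ)
    (h : S ^ n = algebraMap L E (b : L)) :
    ∃ R : E, R * S = 1 ∧ S * R = 1 ∧ R ^ n = algebraMap L E ((b⁻¹ : Lˣ) : L) := by
  have hRS : ((b⁻¹ : Lˣ) : L) • S ^ (n - 1) * S = 1 := by
    rw [smul_mul_assoc, ← pow_succ, Nat.sub_add_cancel hn, h, Algebra.algebraMap_eq_smul_one,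
      smul_smul, Units.inv_mul, one_smul]
  have hSR : S * ((b⁻¹ : Lˣ) : L) • S ^ (n - 1) = 1 := by
    rw [mul_smul_comm, ← pow_succ', Nat.sub_add_cancel hn, h,
      Algebra.algebraMap_eq_smul_one, smul_smul, Units.inv_mul, one_smul]
  refine ⟨_, hRS, hSR, ?_⟩
  generalize ((b⁻¹ : Lˣ) : L) • S ^ (n - 1) = R at hRS hSR
  have h1 : R ^ n * S ^ n = 1 := by
    have hc : Commute R S := by rw [commute_iff_eq, hRS, hSR]
    rw [← hc.mul_pow, hRS, one_pow]
  have h2 : (algebraMap L E (b : L)) * algebraMap L E ((b⁻¹ : Lˣ) : L) = 1 := by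
    rw [← map_mul, Units.mul_inv, map_one]
  calc R ^ n = R ^ n * (S ^ n * algebraMap L E ((b⁻¹ : Lˣ) : L)) := by
          rw [h, h2, mul_one]
    _ = _ := by rw [← mul_assoc, h1, one_mul]

open TensorProduct in
theorem G6_tens {V W : Type u} [AddCommGroup V] [Module L V] [AddCommGroup W] [Module L W]
    [Module.Finite L V] [Module.Finite L W] (hr1 : Module.finrank L V = n)
    (hr2 : Module.finrank L W = n) {a b b' : Lˣ} {S D : Module.End L V}
    {S' D' R : Module.End L W} (hS : S ^ n = algebraMap L (Module.End L V) (a : L))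
    (hD : D ^ n = 1) (hSD : S * D = z • (D * S))
    (hS' : S' ^ n = algebraMap L (Module.End L W) (b : L)) (hD' : D' ^ n = 1)
    (hR : R ^ n = algebraMap L (Module.End L W) (b' : L))
    (hRS : R * S' = S' * R) (hDR : D' * R = z • (R * D')) (hSD' : S' * D' = z • (D' * S')) :
    Sp n z [(a, b), (a, b')] := by
  have hc : ∀ (f : Module.End L V) (g : Module.End L W) (c : L),
      TensorProduct.map (c • f) g = c • TensorProduct.map f g := fun f g c =>
    TensorProduct.map_smul_left c f g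
  have hc' : ∀ (f : Module.End L V) (g : Module.End L W) (c : L),
      TensorProduct.map f (c • g) = c • TensorProduct.map f g := fun f g c =>
    TensorProduct.map_smul_right c f g
  refine ⟨V ⊗[L] W, inferInstance, inferInstance, algebraMap L (Module.End L (V ⊗[L] W)),
    [(TensorProduct.map S 1, TensorProduct.map D S'), (TensorProduct.map S D',
      TensorProduct.map 1 R)], inferInstance, fun c => rfl, ?_, ?_, ?_, ?_⟩
  · rw [Module.finrank_tensorProduct, hr1, hr2]; simp [sq]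
  · refine List.Forall₂.cons ⟨?_, ?_, ?_⟩ (List.Forall₂.cons ⟨?_, ?_, ?_⟩ List.Forall₂.nil)
    · simp only
      rw [TensorProduct.map_pow, hS, one_pow, Algebra.algebraMap_eq_smul_one, hc,
        TensorProduct.map_one, Algebra.algebraMap_eq_smul_one]
    · simp only
      rw [TensorProduct.map_pow, hD, hS', Algebra.algebraMap_eq_smul_one, hc',
        TensorProduct.map_one, Algebra.algebraMap_eq_smul_one]
    · simp only
      rw [← TensorProduct.map_mul, ← TensorProduct.map_mul, hSD, hc, one_mul, mul_one]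
    · simp only
      rw [TensorProduct.map_pow, hS, hD', Algebra.algebraMap_eq_smul_one, hc,
        TensorProduct.map_one, Algebra.algebraMap_eq_smul_one]
    · simp only
      rw [TensorProduct.map_pow, hR, one_pow, Algebra.algebraMap_eq_smul_one, hc',
        TensorProduct.map_one, Algebra.algebraMap_eq_smul_one]
    · simp only
      rw [← TensorProduct.map_mul, ← TensorProduct.map_mul, hDR, hc', one_mul, mul_one]
  · rw [List.pairwise_pair]
    refine ⟨?_, ?_, ?_, ?_⟩
    · simp only [commute_iff_eq]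
      rw [← TensorProduct.map_mul, ← TensorProduct.map_mul, one_mul, mul_one]
    · simp only [commute_iff_eq]
      rw [← TensorProduct.map_mul, ← TensorProduct.map_mul, one_mul, mul_one, one_mul, mul_one]
    · simp only [commute_iff_eq]
      rw [← TensorProduct.map_mul, ← TensorProduct.map_mul, hSD, hSD', hc, hc']
    · simp only [commute_iff_eq]
      rw [← TensorProduct.map_mul, ← TensorProduct.map_mul, hRS, one_mul, mul_one]
  · intro p _ a
    exact ⟨(Algebra.commutes a p.1).symm, (Algebra.commutes a p.2).symm⟩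

theorem inv_split (hn : 0 < n) (hz : IsPrimitiveRoot z n) (a b : Lˣ) :
    Sp n z [(a, b), (a, b⁻¹)] := by
  have hz1 := hz.pow_eq_one
  have hz0 := hz.ne_zero hn.ne'
  have := G6_finite (L := L) hn a
  have := G6_finite (L := L) hn b
  have hSn := G6_S_pow n a
  have hDn := G6_T_pow hz1 a
  have hSD := G6_S_T hz1 hz0 a
  have hSn' := G6_S_pow n b
  have hDn' := G6_T_pow hz1 b
  have hSD' := G6_S_T hz1 hz0 b
  have hr1 := G6_finrank hn a
  have hr2 := G6_finrank hn b
  generalize G6_M n a (AdjoinRoot.root (X ^ n - C (a : L))) = S at hSn hSD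
  generalize G6_T hz1 a = D at hDn hSD
  generalize G6_M n b (AdjoinRoot.root (X ^ n - C (b : L))) = S' at hSn' hSD'
  generalize G6_T hz1 b = D' at hDn' hSD'
  obtain ⟨R, hRS, hSR, hRn⟩ := G6_inv_pow hn b hSn'
  have hDR := G6_inv_comm (L := L) hSD' hRS hSR
  exact G6_tens hr1 hr2 hSn hDn hSD hSn' hDn' hRn (hRS.trans hSR.symm) hDR hSD'

end Pool.Agent.Helper41.CF
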