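import Mathlib
import Pool.Agent.Helper41.CF.St.G3
import Pool.Agent.Helper41.CF.St.G5
import Pool.Agent.Helper41.CF.St.G6

/-!
# CF-G7: the group generated by the symbols

Proof.  For a list `l` let `neg l = l.map (fun p => (p.1, p.2⁻¹))`.  `l ~ l'` iff
`Sp n z (l ++ neg l')`.  Reflexive: `inv_split`, `append`, `perm` (induction on `l`).  A cancellation
lemma: `Sp n z (neg l ++ l ++ l') → Sp n z l'` (induction, swap `(a, b), (a, b⁻¹)` twice resp. use
`swap` to bring the common entry to the second place: `(a, b) ↦ (b, a⁻¹)`, `(a, b⁻¹) ↦ (b⁻¹, a⁻¹)`,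
contract to `(1, a⁻¹)`, `drop_one`).  Symmetric: if `Sp (l ++ neg l')` then, with the reflexivity of
`l ++ l'` .. cancellation gives `Sp (l' ++ neg l)`; transitive by cancellation.  The quotient of
lists by `~` is an additive commutative group (`+` is `++`, `-` is `neg`), e.g. with `AddCon` on
`Multiset (Lˣ × Lˣ)` or directly a `Quotient`.  `s a b = class of [(a, b)]`.  Bilinearity from
`contract`, `swap` and reflexivity; `s a b = s c d ↔ Sp [(a, b), (d, c)]`: `(d, c) ↦ (c, d⁻¹)` by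
`swap`; conversely `swap` three more times.  `n • s a b = s a (b ^ n) = 0` by `pow_split`.
-/

set_option autoImplicit false

namespace Pool.Agent.Helper41.CF

universe u

namespace G7

/-- the predicate `Sp n z` on multisets -/
private def PM {L : Type u} [Field L] (n : ℕ) (z : L) (m : Multiset (Lˣ × Lˣ)) : Prop :=
  ∃ l : List (Lˣ × Lˣ), (l : Multiset (Lˣ × Lˣ)) = m ∧ Sp n z l

/-- the formal inverse -/
private def ng {L : Type u} [Field L] (m : Multiset (Lˣ × Lˣ)) : Multiset (Lˣ × Lˣ) :=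
  m.map fun p => (p.1, p.2⁻¹)

section

variable {L : Type u} [Field L] {n : ℕ} {z : L}

private lemma PM_coe (l : List (Lˣ × Lˣ)) :
    PM n z (l : Multiset (Lˣ × Lˣ)) ↔ Sp n z l := by
  constructor
  · rintro ⟨l', h, h'⟩
    exact Spl.perm (Multiset.coe_eq_coe.1 h) h'
  · intro h
    exact ⟨l, rfl, h⟩

private lemma PM_zero : PM n z (0 : Multiset (Lˣ × Lˣ)) := ⟨[], rfl, Sp.nil⟩

private lemma PM_add {m m' : Multiset (Lˣ × Lˣ)} (h : PM n z m) (h' : PM n z m') :
    PM n z (m + m') := by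
  obtain ⟨l, rfl, hl⟩ := h
  obtain ⟨l', rfl, hl'⟩ := h'
  exact ⟨l ++ l', rfl, Spl.append hl hl'⟩

private lemma PM_swap (hn : 0 < n) (hz0 : z ≠ 0) {a b : Lˣ} {m : Multiset (Lˣ × Lˣ)}
    (h : PM n z ((a, b) ::ₘ m)) : PM n z ((b, a⁻¹) ::ₘ m) := by
  induction m using Quotient.inductionOn with
  | h l =>
    have h1 : PM n z (((a, b) :: l : List (Lˣ × Lˣ)) : Multiset (Lˣ × Lˣ)) := h
    exact (PM_coe ((b, a⁻¹) :: l)).2 (Spl.swap hn hz0 ((PM_coe _).1 h1))

private lemma PM_swap_iff (hn : 0 < n) (hz0 : z ≠ 0) (a b : Lˣ) (m : Multiset (Lˣ × Lˣ)) :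
    PM n z ((a, b) ::ₘ m) ↔ PM n z ((b, a⁻¹) ::ₘ m) := by
  refine ⟨PM_swap hn hz0, fun h => ?_⟩
  have := PM_swap hn hz0 (PM_swap hn hz0 (PM_swap hn hz0 h))
  rwa [inv_inv, inv_inv] at this

private lemma PM_contract (hn : 0 < n) (hz : IsPrimitiveRoot z n) {a a' b : Lˣ}
    {m : Multiset (Lˣ × Lˣ)} (h : PM n z ((a, b) ::ₘ (a', b) ::ₘ m)) :
    PM n z ((a * a', b) ::ₘ m) := by
  induction m using Quotient.inductionOn with
  | h l =>
    have h1 : PM n z (((a, b) :: (a', b) :: l : List (Lˣ × Lˣ)) : Multiset (Lˣ × Lˣ)) := h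
    exact (PM_coe ((a * a', b) :: l)).2 (Spl.contract hn hz ((PM_coe _).1 h1))

private lemma PM_drop (hn : 0 < n) (hz : IsPrimitiveRoot z n) {b : Lˣ}
    {m : Multiset (Lˣ × Lˣ)} (h : PM n z ((1, b) ::ₘ m)) : PM n z m := by
  induction m using Quotient.inductionOn with
  | h l =>
    have h1 : PM n z (((1, b) :: l : List (Lˣ × Lˣ)) : Multiset (Lˣ × Lˣ)) := h
    exact (PM_coe l).2 (Spl.drop_one hn hz ((PM_coe _).1 h1))

private lemma PM_cancel (hn : 0 < n) (hz : IsPrimitiveRoot z n) (hz0 : z ≠ 0) {a b : Lˣ}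
    {m : Multiset (Lˣ × Lˣ)} (h : PM n z ((a, b) ::ₘ (a, b⁻¹) ::ₘ m)) : PM n z m := by
  have h1 := PM_swap hn hz0 h
  rw [Multiset.cons_swap] at h1
  have h2 := PM_contract hn hz (PM_swap hn hz0 h1)
  rw [inv_mul_cancel] at h2
  exact PM_drop hn hz h2

private lemma PM_pair (hn : 0 < n) (hz : IsPrimitiveRoot z n) (a b : Lˣ)
    {m : Multiset (Lˣ × Lˣ)} (h : PM n z m) : PM n z ((a, b) ::ₘ (a, b⁻¹) ::ₘ m) := by
  have h1 : PM n z (([(a, b), (a, b⁻¹)] : List (Lˣ × Lˣ)) : Multiset (Lˣ × Lˣ)) :=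
    (PM_coe _).2 (inv_split hn hz a b)
  have h2 := PM_add h1 h
  rw [← Multiset.cons_coe, ← Multiset.cons_coe, Multiset.coe_nil, Multiset.cons_add,
    Multiset.cons_add, zero_add] at h2
  exact h2

private lemma ng_zero : ng (0 : Multiset (Lˣ × Lˣ)) = 0 := rfl

private lemma ng_add (m m' : Multiset (Lˣ × Lˣ)) : ng (m + m') = ng m + ng m' :=
  Multiset.map_add _ _ _

private lemma ng_cons (a b : Lˣ) (m : Multiset (Lˣ × Lˣ)) :
    ng ((a, b) ::ₘ m) = (a, b⁻¹) ::ₘ ng m := by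
  unfold ng
  rw [Multiset.map_cons]

private lemma ng_ng (m : Multiset (Lˣ × Lˣ)) : ng (ng m) = m := by
  unfold ng
  rw [Multiset.map_map]
  conv_rhs => rw [← Multiset.map_id m]
  refine Multiset.map_congr rfl fun p _ => ?_
  simp

private lemma PM_cancel_iff (hn : 0 < n) (hz : IsPrimitiveRoot z n) (hz0 : z ≠ 0)
    (l m : Multiset (Lˣ × Lˣ)) : PM n z (l + ng l + m) ↔ PM n z m := by
  induction l using Multiset.induction_on generalizing m with
  | empty => rw [ng_zero, zero_add, zero_add]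
  | cons p l ih =>
    obtain ⟨a, b⟩ := p
    have e1 : (a, b) ::ₘ l + ng ((a, b) ::ₘ l) + m =
        (a, b) ::ₘ (a, b⁻¹) ::ₘ (l + ng l + m) := by
      rw [ng_cons, Multiset.cons_add, Multiset.add_cons, Multiset.cons_add, Multiset.cons_add]
    rw [e1]
    constructor
    · intro h
      exact (ih m).1 (PM_cancel hn hz hz0 h)
    · intro h
      exact PM_pair hn hz a b ((ih m).2 h)

private lemma PM_refl (hn : 0 < n) (hz : IsPrimitiveRoot z n) (hz0 : z ≠ 0)
    (l : Multiset (Lˣ × Lˣ)) : PM n z (l + ng l) := by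
  have := (PM_cancel_iff hn hz hz0 l 0).2 PM_zero
  rwa [add_zero] at this

private lemma PM_uncontract (hn : 0 < n) (hz : IsPrimitiveRoot z n) (hz0 : z ≠ 0) {a a' b : Lˣ}
    {m : Multiset (Lˣ × Lˣ)} (h : PM n z ((a * a', b) ::ₘ m)) :
    PM n z ((a, b) ::ₘ (a', b) ::ₘ m) := by
  have h1 := PM_refl hn hz hz0 ((a, b) ::ₘ (a', b) ::ₘ (0 : Multiset (Lˣ × Lˣ)))
  rw [ng_cons, ng_cons, ng_zero] at h1
  have e1 : (a, b) ::ₘ (a', b) ::ₘ (0 : Multiset (Lˣ × Lˣ)) +
      (a, b⁻¹) ::ₘ (a', b⁻¹) ::ₘ (0 : Multiset (Lˣ × Lˣ)) =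
      (a, b⁻¹) ::ₘ (a', b⁻¹) ::ₘ ((a, b) ::ₘ (a', b) ::ₘ (0 : Multiset (Lˣ × Lˣ))) := by
    rw [Multiset.add_cons, Multiset.add_cons, add_zero]
  rw [e1] at h1
  have h2 := PM_add (PM_contract hn hz h1) h
  have e2 : (a * a', b⁻¹) ::ₘ (a, b) ::ₘ (a', b) ::ₘ (0 : Multiset (Lˣ × Lˣ)) +
      (a * a', b) ::ₘ m = (a * a', b) ::ₘ (a * a', b⁻¹) ::ₘ ((a, b) ::ₘ (a', b) ::ₘ m) := by
    rw [Multiset.add_cons, Multiset.cons_add, Multiset.cons_add, Multiset.cons_add, zero_add]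
  rw [e2] at h2
  exact PM_cancel hn hz hz0 h2

private lemma PM_uncontract_pow (hn : 0 < n) (hz : IsPrimitiveRoot z n) (hz0 : z ≠ 0) {a b : Lˣ}
    (k : ℕ) {m : Multiset (Lˣ × Lˣ)} (h : PM n z ((a ^ k, b) ::ₘ m)) :
    PM n z (k • ((a, b) ::ₘ (0 : Multiset (Lˣ × Lˣ))) + m) := by
  induction k generalizing m with
  | zero =>
    rw [zero_smul, zero_add]
    rw [pow_zero] at h
    exact PM_drop hn hz h
  | succ k ih =>
    rw [pow_succ] at h
    have h1 := ih (PM_uncontract hn hz hz0 h)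
    have e1 : k • ((a, b) ::ₘ (0 : Multiset (Lˣ × Lˣ))) + (a, b) ::ₘ m =
        (k + 1) • ((a, b) ::ₘ (0 : Multiset (Lˣ × Lˣ))) + m := by
      rw [add_smul, one_smul, add_assoc, Multiset.cons_add, zero_add]
    rwa [e1] at h1

private lemma PM_tors_single (hn : 0 < n) (hz : IsPrimitiveRoot z n) (hz0 : z ≠ 0) (a b : Lˣ) :
    PM n z (n • ((a, b) ::ₘ (0 : Multiset (Lˣ × Lˣ)))) := by
  have h1 : PM n z ((b⁻¹, a ^ n) ::ₘ (0 : Multiset (Lˣ × Lˣ))) :=
    (PM_coe [(b⁻¹, a ^ n)]).2 (pow_split hn hz b⁻¹ a)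
  have h2 := PM_swap hn hz0 h1
  rw [inv_inv] at h2
  have h3 := PM_uncontract_pow hn hz hz0 n h2
  rwa [add_zero] at h3

private lemma PM_tors (hn : 0 < n) (hz : IsPrimitiveRoot z n) (hz0 : z ≠ 0)
    (m : Multiset (Lˣ × Lˣ)) : PM n z (n • m) := by
  induction m using Multiset.induction_on with
  | empty => rw [smul_zero]; exact PM_zero
  | cons p m ih =>
    obtain ⟨a, b⟩ := p
    have e1 : (a, b) ::ₘ m = (a, b) ::ₘ (0 : Multiset (Lˣ × Lˣ)) + m := by
      rw [Multiset.cons_add, zero_add]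
    rw [e1, smul_add]
    exact PM_add (PM_tors_single hn hz hz0 a b) ih

private lemma PM_nsmul {m : Multiset (Lˣ × Lˣ)} (h : PM n z m) (k : ℕ) : PM n z (k • m) := by
  induction k with
  | zero => rw [zero_smul]; exact PM_zero
  | succ k ih =>
    rw [add_smul, one_smul]
    exact PM_add ih h

private lemma PM_ng (hn : 0 < n) (hz : IsPrimitiveRoot z n) (hz0 : z ≠ 0)
    {m : Multiset (Lˣ × Lˣ)} (h : PM n z m) : PM n z (ng m) := by
  obtain ⟨k, hk⟩ : ∃ k, n = k + 1 := ⟨n - 1, by omega⟩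
  have h1 := PM_add (PM_nsmul h k) (PM_tors hn hz hz0 (ng m))
  have e1 : k • m + n • ng m = k • m + ng (k • m) + ng m := by
    have e2 : ng (k • m) = k • ng m := by
      unfold ng
      rw [Multiset.map_nsmul]
    rw [e2]
    nth_rewrite 1 [hk]
    rw [add_smul, one_smul, add_assoc]
  rw [e1] at h1
  exact (PM_cancel_iff hn hz hz0 (k • m) (ng m)).1 h1

/-- the congruence -/
private def con (hn : 0 < n) (hz : IsPrimitiveRoot z n) (hz0 : z ≠ 0) :
    AddCon (Multiset (Lˣ × Lˣ)) where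
  r m m' := PM n z (m + ng m')
  iseqv :=
    { refl := fun m => PM_refl hn hz hz0 m
      symm := by
        intro m m' h
        have h1 := PM_ng hn hz hz0 h
        rw [ng_add, ng_ng, add_comm] at h1
        exact h1
      trans := by
        intro m m' m'' h h'
        have h1 := PM_add h h'
        have e1 : m + ng m' + (m' + ng m'') = m' + ng m' + (m + ng m'') := by abel
        rw [e1] at h1
        exact (PM_cancel_iff hn hz hz0 m' _).1 h1 }
  add' := by
    intro m m' k k' h h'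
    have h1 := PM_add h h'
    have e1 : m + ng m' + (k + ng k') = m + k + ng (m' + k') := by
      rw [ng_add]
      abel
    rw [e1] at h1
    exact h1

end

end G7

theorem exists_group {L : Type u} [Field L] {n : ℕ} (hn : 0 < n) {z : L}
    (hz : IsPrimitiveRoot z n) :
    ∃ (Q : Type u) (_ : AddCommGroup Q) (s : Lˣ → Lˣ → Q), IsSymb n s ∧
      ∀ a b c d, s a b = s c d ↔ Sp n z [(a, b), (d, c)] := by
  have hz0 : z ≠ 0 := hz.ne_zero hn.ne'
  obtain ⟨C, hC⟩ : ∃ C : AddCon (Multiset (Lˣ × Lˣ)), ∀ m m', C m m' ↔ G7.PM n z (m + G7.ng m') :=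
    ⟨G7.con hn hz hz0, fun m m' => Iff.rfl⟩
  have hrel : ∀ m m' : Multiset (Lˣ × Lˣ), (m : C.Quotient) = (m' : C.Quotient) ↔
      G7.PM n z (m + G7.ng m') := fun m m' => by
    rw [AddCon.eq, hC]
  letI instN : Neg C.Quotient := ⟨fun q => Quotient.map' G7.ng (fun m m' h => by
        have h1 : C m m' := h
        have h2 : C (G7.ng m) (G7.ng m') := by
          rw [hC] at h1 ⊢
          rw [← G7.ng_add]
          exact G7.PM_ng hn hz hz0 h1
        exact h2) q⟩
  let inst : AddCommGroup C.Quotient :=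
    { (inferInstance : AddCommMonoid C.Quotient), instN with
      zsmul := zsmulRec
      neg_add_cancel := by
        intro q
        induction q using Quotient.inductionOn' with
        | h m =>
          have h1 : ((G7.ng m + m : Multiset (Lˣ × Lˣ)) : C.Quotient) =
              ((0 : Multiset (Lˣ × Lˣ)) : C.Quotient) := by
            rw [hrel, G7.ng_zero, add_zero, add_comm]
            exact G7.PM_refl hn hz hz0 m
          exact h1 }
  refine ⟨C.Quotient, inst, fun a b => (({(a, b)} : Multiset (Lˣ × Lˣ)) : C.Quotient), ?_, ?_⟩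
  · refine ⟨?_, ?_, ?_, ?_⟩
    · intro a a' b
      have h1 : ((({(a * a', b)} : Multiset (Lˣ × Lˣ))) : C.Quotient) =
          (({(a, b)} + {(a', b)} : Multiset (Lˣ × Lˣ)) : C.Quotient) := by
        rw [hrel]
        have h2 := G7.PM_refl hn hz hz0 ((a, b) ::ₘ (a', b) ::ₘ (0 : Multiset (Lˣ × Lˣ)))
        rw [Multiset.cons_add, Multiset.cons_add, zero_add] at h2
        have h3 := G7.PM_contract hn hz h2
        exact h3
      exact h1
    · intro a b b'
      have h1 : ((({(a, b * b')} : Multiset (Lˣ × Lˣ))) : C.Quotient) =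
          (({(a, b)} + {(a, b')} : Multiset (Lˣ × Lˣ)) : C.Quotient) := by
        rw [hrel]
        have e1 : ({(a, b * b')} : Multiset (Lˣ × Lˣ)) + G7.ng ({(a, b)} + {(a, b')}) =
            (a, b * b') ::ₘ (a, b⁻¹) ::ₘ (a, b'⁻¹) ::ₘ (0 : Multiset (Lˣ × Lˣ)) := rfl
        rw [e1]
        -- move everything to the first place
        have h0 : G7.PM n z ((1, a⁻¹) ::ₘ (0 : Multiset (Lˣ × Lˣ))) := by
          have h4 : G7.PM n z ((a, 1 ^ n) ::ₘ (0 : Multiset (Lˣ × Lˣ))) :=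
            (G7.PM_coe [(a, 1 ^ n)]).2 (pow_split hn hz a 1)
          rw [one_pow] at h4
          exact G7.PM_swap hn hz0 h4
        have h5 : G7.PM n z ((b * b', a⁻¹) ::ₘ (b⁻¹, a⁻¹) ::ₘ (b'⁻¹, a⁻¹) ::ₘ
            (0 : Multiset (Lˣ × Lˣ))) := by
          refine G7.PM_uncontract hn hz hz0 ?_
          refine G7.PM_uncontract hn hz hz0 ?_
          have e2 : b * b' * b⁻¹ * b'⁻¹ = 1 := by
            rw [mul_comm b b']
            group
          rw [e2]
          exact h0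
        rw [G7.PM_swap_iff hn hz0, Multiset.cons_swap, G7.PM_swap_iff hn hz0, Multiset.cons_swap,
          Multiset.cons_swap (b⁻¹, a⁻¹), Multiset.cons_swap, G7.PM_swap_iff hn hz0]
        have e3 : (b'⁻¹, a⁻¹) ::ₘ (b * b', a⁻¹) ::ₘ (b⁻¹, a⁻¹) ::ₘ (0 : Multiset (Lˣ × Lˣ)) =
            (b * b', a⁻¹) ::ₘ (b⁻¹, a⁻¹) ::ₘ (b'⁻¹, a⁻¹) ::ₘ (0 : Multiset (Lˣ × Lˣ)) := by
          rw [Multiset.cons_swap, Multiset.cons_swap (b'⁻¹, a⁻¹)]
        rw [e3]
        exact h5
      exact h1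
    · intro a b hab
      have h1 : ((({(a, b)} : Multiset (Lˣ × Lˣ))) : C.Quotient) =
          ((0 : Multiset (Lˣ × Lˣ)) : C.Quotient) := by
        rw [hrel, G7.ng_zero, add_zero]
        exact (G7.PM_coe [(a, b)]).2 (stein_split hn hz a b hab)
      exact h1
    · intro a b
      have h2 : ((n • ({(a, b)} : Multiset (Lˣ × Lˣ)) : Multiset (Lˣ × Lˣ)) : C.Quotient) =
          ((0 : Multiset (Lˣ × Lˣ)) : C.Quotient) := by
        rw [hrel, G7.ng_zero, add_zero]
        exact G7.PM_tors hn hz hz0 _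
      exact h2
  · intro a b c d
    rw [hrel]
    have e1 : ({(a, b)} : Multiset (Lˣ × Lˣ)) + G7.ng {(c, d)} =
        (c, d⁻¹) ::ₘ (a, b) ::ₘ (0 : Multiset (Lˣ × Lˣ)) := by
      rw [Multiset.cons_swap]
      rfl
    rw [e1, ← G7.PM_swap_iff hn hz0 d c, Multiset.cons_swap, ← G7.PM_coe]
    rfl

end Pool.Agent.Helper41.CF
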