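import Mathlib
import Pool.Agent.Helper41.CF.St.G3
import Pool.Agent.Helper41.CF.St.G5

/-!
# CF-G8: transfer of a splitting

Proof.  `h.append h'` is `[(b, a), (a, b), (Y, X)]`.  `swap` twice: `(b, a) ↦ (a, b⁻¹) ↦ (b⁻¹, a⁻¹)`;
`(a, b) ↦ (b, a⁻¹)` (after a permutation); `contract` to `(b⁻¹ * b, a⁻¹) = (1, a⁻¹)`, `drop_one`.
-/

set_option autoImplicit false

namespace Pool.Agent.Helper41.CF

universe u

theorem Spl.transfer {L : Type u} [Field L] {n : ℕ} (hn : 0 < n) {z : L}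
    (hz : IsPrimitiveRoot z n) {F : Type u} [Field F] [Algebra F L] {A : Type u} [Ring A]
    [Algebra F A] {N : ℕ} {a b X Y : Lˣ} (h : Spl n z F A N [(b, a)])
    (h' : Sp n z [(a, b), (Y, X)]) : Spl n z F A N [(Y, X)] := by
  have hz0 : z ≠ 0 := hz.ne_zero hn.ne'
  have h1 : Spl n z F A N ((b, a) :: (a, b) :: [(Y, X)]) := h.append h'
  have h2 : Spl n z F A N ((b⁻¹, a⁻¹) :: (a, b) :: [(Y, X)]) := (h1.swap hn hz0).swap hn hz0
  have h3 : Spl n z F A N ((a, b) :: (b⁻¹, a⁻¹) :: [(Y, X)]) := h2.perm (List.Perm.swap _ _ _)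
  have h4 : Spl n z F A N ((b * b⁻¹, a⁻¹) :: [(Y, X)]) := (h3.swap hn hz0).contract hn hz
  rw [mul_inv_cancel] at h4
  exact h4.drop_one hn hz

end Pool.Agent.Helper41.CF
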