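import Mathlib
import Pool.Agent.Helper41.CF.Defs

/-!
# CF-M1: finite groups of integral `2 × 2` matrices

Proof.  `det (ρ g)` is a unit of `ℤ`.  Put `S = ∑ g, (ρ g)ᵀ * ρ g`, a symmetric positive definite integral
matrix with `(ρ h)ᵀ * S * ρ h = S`.  With `J = !![0, 1; -1, 0]` one has `Mᵀ J M = det M • J`, so if
`det (ρ h) = 1` then `N = J * S` (up to sign / inverse) commutes with `ρ h`: `N = !![p, q; r, -p]`,
`N ^ 2 = -d`, `d = det S > 0`, so `r ≠ 0`.  Let `τ = (-p + i √d) / r ∈ ℂ` (not real); the row vector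
`(1, τ)` is a left eigenvector of `N`, hence (as `N` is not scalar) of every `M` commuting with
`N`: `(1, τ) M = χ(M) (1, τ)`, `χ(M) = M 0 0 + M 1 0 * τ`.  `χ` is multiplicative on the matrices
commuting with `N` and `χ(M) = 1` implies `M = 1`.  Hence the group `{g | det (ρ g) = 1}` modulo
`ker ρ` embeds into a finite subgroup of `ℂˣ`, which is cyclic (`isCyclic_of_subgroup_isDomain` or
`rootsOfUnity`); let `σ` be a generator.  `χ(ρ σ)` is a root of unity and `trace (ρ σ) = 2 Re χ` is an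
integer in `[-2, 2]`; if it is `2` then `χ = 1`, if it is `-2` then `χ = -1` and `χ(-ρ σ) = 1`; in the
other cases use Cayley-Hamilton.
(Any other proof is welcome.)
-/

set_option autoImplicit false

open Matrix

namespace Pool.Agent.Helper41.CF

universe u

/-- an invariant positive definite form -/
theorem M1_form {G : Type u} [Group G] [Finite G] (ρ : G →* Matrix (Fin 2) (Fin 2) ℤ) :
    ∃ p q r : ℤ, 0 < p ∧ 0 < p * r - q * q ∧ ∀ h : G,
      p * (ρ h 0 0) ^ 2 + 2 * q * ρ h 0 0 * ρ h 1 0 + r * (ρ h 1 0) ^ 2 = p ∧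
      p * ρ h 0 0 * ρ h 0 1 + q * (ρ h 0 0 * ρ h 1 1 + ρ h 0 1 * ρ h 1 0) +
        r * ρ h 1 0 * ρ h 1 1 = q := by
  cases nonempty_fintype G
  set S : Matrix (Fin 2) (Fin 2) ℤ := ∑ g : G, (ρ g)ᵀ * ρ g with hS
  have hinv : ∀ h : G, (ρ h)ᵀ * S * ρ h = S := by
    intro h
    have h1 : (ρ h)ᵀ * S * ρ h = ∑ g : G, (ρ (g * h))ᵀ * ρ (g * h) := by
      rw [hS, Matrix.mul_sum, Matrix.sum_mul]
      refine Finset.sum_congr rfl fun g _ => ?_
      rw [map_mul, Matrix.transpose_mul]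
      simp only [Matrix.mul_assoc]
    rw [h1, hS]
    exact Fintype.sum_equiv (Equiv.mulRight h) _ _ (fun g => rfl)
  have e00 : S 0 0 = ∑ g : G, ((ρ g 0 0) ^ 2 + (ρ g 1 0) ^ 2) := by
    rw [hS, Matrix.sum_apply]
    refine Finset.sum_congr rfl fun g _ => ?_
    simp [Matrix.mul_apply, Fin.sum_univ_two]
    ring
  have e01 : S 0 1 = ∑ g : G, (ρ g 0 0 * ρ g 0 1 + ρ g 1 0 * ρ g 1 1) := by
    rw [hS, Matrix.sum_apply]
    refine Finset.sum_congr rfl fun g _ => ?_
    simp [Matrix.mul_apply, Fin.sum_univ_two]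
  have e10 : S 1 0 = S 0 1 := by
    rw [e01, hS, Matrix.sum_apply]
    refine Finset.sum_congr rfl fun g _ => ?_
    simp [Matrix.mul_apply, Fin.sum_univ_two]
    ring
  have e11 : S 1 1 = ∑ g : G, ((ρ g 0 1) ^ 2 + (ρ g 1 1) ^ 2) := by
    rw [hS, Matrix.sum_apply]
    refine Finset.sum_congr rfl fun g _ => ?_
    simp [Matrix.mul_apply, Fin.sum_univ_two]
    ring
  have hq : ∀ x y : ℤ, x ^ 2 + y ^ 2 ≤ x ^ 2 * S 0 0 + 2 * x * y * S 0 1 + y ^ 2 * S 1 1 := by
    intro x y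
    have h1 : x ^ 2 * S 0 0 + 2 * x * y * S 0 1 + y ^ 2 * S 1 1 =
        ∑ g : G, ((ρ g 0 0 * x + ρ g 0 1 * y) ^ 2 + (ρ g 1 0 * x + ρ g 1 1 * y) ^ 2) := by
      rw [e00, e01, e11, Finset.mul_sum, Finset.mul_sum, Finset.mul_sum,
        ← Finset.sum_add_distrib, ← Finset.sum_add_distrib]
      refine Finset.sum_congr rfl fun g _ => ?_
      ring
    rw [h1]
    have h2 := Finset.single_le_sum
      (f := fun g : G => (ρ g 0 0 * x + ρ g 0 1 * y) ^ 2 + (ρ g 1 0 * x + ρ g 1 1 * y) ^ 2)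
      (fun g _ => by positivity) (Finset.mem_univ (1 : G))
    simpa using h2
  have hp : 0 < S 0 0 := by
    have := hq 1 0
    simp at this
    linarith
  refine ⟨S 0 0, S 0 1, S 1 1, hp, ?_, ?_⟩
  · have h1 := hq (-(S 0 1)) (S 0 0)
    have h2 : 0 < S 0 0 * (S 0 0 * S 1 1 - S 0 1 * S 0 1) := by
      have h3 : S 0 0 * (S 0 0 * S 1 1 - S 0 1 * S 0 1) =
          (-(S 0 1)) ^ 2 * S 0 0 + 2 * (-(S 0 1)) * S 0 0 * S 0 1 + S 0 0 ^ 2 * S 1 1 := by ring
      rw [h3]
      have h4 : 0 < (-(S 0 1)) ^ 2 + S 0 0 ^ 2 := by positivity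
      linarith
    exact (mul_pos_iff_of_pos_left hp).1 h2
  · intro h
    have h1 := congrFun (congrFun (hinv h) 0) 0
    have h2 := congrFun (congrFun (hinv h) 0) 1
    simp only [Matrix.mul_apply, Matrix.transpose_apply, Fin.sum_univ_two, e10] at h1 h2
    constructor
    · linear_combination h1
    · linear_combination h2

/-- the linear relations for determinant one -/
theorem M1_rel {a b c d p q r : ℤ} (h1 : p * a ^ 2 + 2 * q * a * c + r * c ^ 2 = p)
    (h2 : p * a * b + q * (a * d + b * c) + r * c * d = q) (hdet : a * d - b * c = 1) :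
    p * (d - a) = 2 * q * c ∧ p * b = - (r * c) := by
  constructor
  · linear_combination (-d) * h1 + c * h2 + (p * a + q * c) * hdet
  · linear_combination (-b) * h1 + a * h2 - (q * a + r * c) * hdet

theorem M1_tr {a b c d p q r : ℤ} (h1 : p * a ^ 2 + 2 * q * a * c + r * c ^ 2 = p)
    (h2 : p * a * b + q * (a * d + b * c) + r * c * d = q) (hdet : a * d - b * c = -1)
    (hp : 0 < p) : a + d = 0 := by
  have h3 : p * (a + d) = 0 := by
    linear_combination (-d) * h1 + c * h2 + (p * a + q * c) * hdet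
  rcases mul_eq_zero.1 h3 with h | h
  · omega
  · exact h

theorem M1_ext {M N : Matrix (Fin 2) (Fin 2) ℤ} (h00 : M 0 0 = N 0 0) (h01 : M 0 1 = N 0 1)
    (h10 : M 1 0 = N 1 0) (h11 : M 1 1 = N 1 1) : M = N := by
  ext i j
  fin_cases i <;> fin_cases j <;> assumption

/-- elements of determinant `-1` are reflections -/
theorem refl_sq {G : Type u} [Group G] [Finite G] (ρ : G →* Matrix (Fin 2) (Fin 2) ℤ) (g : G)
    (h : (ρ g).det = -1) : (ρ g) ^ 2 = 1 := by
  obtain ⟨p, q, r, hp, -, hform⟩ := M1_form ρ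
  obtain ⟨h1, h2⟩ := hform g
  rw [Matrix.det_fin_two] at h
  have h3 := M1_tr h1 h2 h hp
  rw [sq]
  apply M1_ext <;> simp [Matrix.mul_apply, Fin.sum_univ_two]
  · linear_combination ρ g 0 0 * h3 - h
  · linear_combination ρ g 0 1 * h3
  · linear_combination ρ g 1 0 * h3
  · linear_combination ρ g 1 1 * h3 - h

theorem exists_rot {G : Type u} [Group G] [Finite G]
    (ρ : G →* Matrix (Fin 2) (Fin 2) ℤ) :
    ∃ σ : G, (ρ σ).det = 1 ∧ (∀ g, (ρ g).det = 1 → ∃ k : ℕ, ρ g = ρ σ ^ k) ∧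
      (ρ σ = 1 ∨ ρ σ = -1 ∨ (ρ σ) ^ 2 + ρ σ + 1 = 0 ∨ (ρ σ) ^ 2 + 1 = 0 ∨
        (ρ σ) ^ 2 - ρ σ + 1 = 0) := by
  obtain ⟨p, q, r, hp, hdisc, hform⟩ := M1_form ρ
  have hrel : ∀ g : G, (ρ g).det = 1 → p * (ρ g 1 1 - ρ g 0 0) = 2 * q * ρ g 1 0 ∧
      p * ρ g 0 1 = - (r * ρ g 1 0) := by
    intro g hg
    rw [Matrix.det_fin_two] at hg
    exact M1_rel (hform g).1 (hform g).2 hg
  -- the eigenvalue
  obtain ⟨τ, hτ, hτi⟩ : ∃ τ : ℂ, (p : ℂ) * τ ^ 2 - 2 * q * τ + r = 0 ∧ τ.im ≠ 0 := by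
    have hd : (0 : ℝ) < ((p * r - q * q : ℤ) : ℝ) := by exact_mod_cast hdisc
    have hs : Real.sqrt ((p * r - q * q : ℤ) : ℝ) ^ 2 = ((p * r - q * q : ℤ) : ℝ) :=
      Real.sq_sqrt hd.le
    have hs0 : 0 < Real.sqrt ((p * r - q * q : ℤ) : ℝ) := Real.sqrt_pos.2 hd
    have hpr : (0 : ℝ) < (p : ℝ) := by exact_mod_cast hp
    set s : ℝ := Real.sqrt ((p * r - q * q : ℤ) : ℝ) with hsdef
    refine ⟨⟨(q : ℝ) / p, s / p⟩, ?_, ?_⟩
    · have hs' : s ^ 2 = (p : ℝ) * r - q * q := by rw [hs]; push_cast; ring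
      apply Complex.ext
      · simp [sq]
        field_simp
        linear_combination (-1) * hs'
      · simp [sq]
        field_simp
        ring
    · exact (div_pos hs0 hpr).ne'
  have hpc : (p : ℂ) ≠ 0 := by exact_mod_cast hp.ne'
  have heig : ∀ g : G, (ρ g).det = 1 →
      ((ρ g 0 1 : ℤ) : ℂ) + (ρ g 1 1 : ℤ) * τ = ((ρ g 0 0 : ℤ) + (ρ g 1 0 : ℤ) * τ) * τ := by
    intro g hg
    obtain ⟨h1, h2⟩ := hrel g hg
    have h1' : (p : ℂ) * ((ρ g 1 1 : ℤ) - (ρ g 0 0 : ℤ)) = 2 * q * (ρ g 1 0 : ℤ) := by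
      exact_mod_cast h1
    have h2' : (p : ℂ) * (ρ g 0 1 : ℤ) = - (r * (ρ g 1 0 : ℤ)) := by exact_mod_cast h2
    apply mul_left_cancel₀ hpc
    linear_combination τ * h1' + h2' - (ρ g 1 0 : ℤ) * hτ
  set H : Subgroup G := (Matrix.detMonoidHom.comp ρ).ker with hH
  have hHm : ∀ g : G, g ∈ H ↔ (ρ g).det = 1 := by
    intro g
    rw [hH, MonoidHom.mem_ker]
    rfl
  let χ : H →* ℂ :=
    { toFun := fun g => ((ρ g 0 0 : ℤ) : ℂ) + (ρ g 1 0 : ℤ) * τ
      map_one' := by simp
      map_mul' := by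
        intro g h
        have h1 := heig g ((hHm g).1 g.2)
        simp only [Subgroup.coe_mul, map_mul, Matrix.mul_apply, Fin.sum_univ_two]
        push_cast
        linear_combination (-(ρ h 1 0 : ℤ)) * (-h1) }
  have hχ : ∀ g : H, χ g = ((ρ g 0 0 : ℤ) : ℂ) + (ρ g 1 0 : ℤ) * τ := fun g => rfl
  have hker : ∀ g : H, χ g = 1 → ρ g = 1 := by
    intro g hg
    rw [hχ] at hg
    have him := congrArg Complex.im hg
    simp at him
    have hc : ρ g 1 0 = 0 := by
      rcases him with h | h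
      · exact_mod_cast h
      · exact absurd h hτi
    rw [hc] at hg
    have ha : ρ g 0 0 = 1 := by
      simp at hg
      exact_mod_cast hg
    obtain ⟨h1, h2⟩ := hrel g ((hHm g).1 g.2)
    rw [hc] at h1 h2
    have hb : ρ g 0 1 = 0 := by
      simp at h2
      rcases h2 with h | h
      · omega
      · exact h
    have hd : ρ g 1 1 = 1 := by
      simp at h1
      rcases h1 with h | h
      · omega
      · omega
    apply M1_ext <;> simp [ha, hb, hc, hd]
  have : Finite (MonoidHom.toHomUnits χ).range :=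
    (Set.finite_range (MonoidHom.toHomUnits χ)).to_subtype
  have hcyc : IsCyclic (MonoidHom.toHomUnits χ).range := inferInstance
  obtain ⟨⟨y, σ, hσy⟩, hy⟩ := IsCyclic.exists_monoid_generator (α := (MonoidHom.toHomUnits χ).range)
  refine ⟨σ, (hHm σ).1 σ.2, ?_, ?_⟩
  · intro g hg
    obtain ⟨k, hk⟩ := hy ⟨MonoidHom.toHomUnits χ ⟨g, (hHm g).2 hg⟩, ⟨_, rfl⟩⟩
    refine ⟨k, ?_⟩
    have hk' : (MonoidHom.toHomUnits χ σ) ^ k = MonoidHom.toHomUnits χ ⟨g, (hHm g).2 hg⟩ := by
      have := congrArg Subtype.val hk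
      simpa [hσy] using this
    have hk2 : χ (σ ^ k * ⟨g, (hHm g).2 hg⟩⁻¹) = 1 := by
      have h3 : MonoidHom.toHomUnits χ (σ ^ k * ⟨g, (hHm g).2 hg⟩⁻¹) = 1 := by
        rw [map_mul, map_pow, map_inv, hk', mul_inv_cancel]
      have h4 := congrArg Units.val h3
      simpa using h4
    have h5 := hker _ hk2
    have h6 : ρ ((σ : G) ^ k * g⁻¹) = 1 := by simpa using h5
    calc ρ g = ρ ((σ : G) ^ k * g⁻¹) * ρ g := by rw [h6, one_mul]
      _ = ρ σ ^ k := by rw [← map_mul, inv_mul_cancel_right, map_pow]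
  · have hdet := (hHm σ).1 σ.2
    obtain ⟨h1, h2⟩ := hrel σ hdet
    rw [Matrix.det_fin_two] at hdet
    set a := ρ (σ : G) 0 0 with ha
    set b := ρ (σ : G) 0 1 with hb
    set c := ρ (σ : G) 1 0 with hc
    set d := ρ (σ : G) 1 1 with hd
    have hCH : ρ (σ : G) ^ 2 = (a + d) • ρ (σ : G) - 1 := by
      rw [sq]
      apply M1_ext <;>
        simp only [Matrix.mul_apply, Fin.sum_univ_two, ← ha, ← hb, ← hc, ← hd, Matrix.sub_apply,
          Matrix.smul_apply, Matrix.one_apply_eq, smul_eq_mul,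
          Matrix.one_apply_ne (zero_ne_one (α := Fin 2)), Matrix.one_apply_ne (one_ne_zero (α := Fin 2))]
      · linear_combination (-1) * hdet
      · ring
      · ring
      · linear_combination (-1) * hdet
    have h3 : p ^ 2 * ((a + d) ^ 2 - 4) = - (4 * c ^ 2 * (p * r - q * q)) := by
      linear_combination (p * (d - a) + 2 * q * c) * h1 + 4 * c * p * h2 + 4 * p ^ 2 * hdet
    have hp2 : 0 < p ^ 2 := by positivity
    by_cases hc0 : c = 0
    · rw [hc0] at h1 h2 h3
      have hb0 : b = 0 := by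
        simp at h2
        rcases h2 with h | h
        · omega
        · exact h
      have hda : d = a := by
        simp at h1
        rcases h1 with h | h
        · omega
        · omega
      rw [hb0, hc0, hda] at hdet
      have : a = 1 ∨ a = -1 := by
        have : a * a = 1 := by linarith
        exact mul_self_eq_one_iff.1 this
      rcases this with h | h
      · left
        apply M1_ext <;> simp [← ha, ← hb, ← hc, ← hd, hc0, hb0, hda, h]
      · right; left
        apply M1_ext <;> simp [← ha, ← hb, ← hc, ← hd, hc0, hb0, hda, h]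
    · have h4 : (a + d) ^ 2 < 4 := by
        have : 0 < c ^ 2 := by positivity
        have h5 : 0 < 4 * c ^ 2 * (p * r - q * q) := by positivity
        nlinarith
      have h6 : -2 < a + d := by nlinarith
      have h7 : a + d < 2 := by nlinarith
      have h8 : a + d = -1 ∨ a + d = 0 ∨ a + d = 1 := by omega
      rcases h8 with h | h | h
      · right; right; left
        rw [hCH, h, neg_one_smul]; abel
      · right; right; right; left
        rw [hCH, h, zero_smul]; abel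
      · right; right; right; right
        rw [hCH, h, one_smul]; abel

end Pool.Agent.Helper41.CF
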