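import Mathlib
import Pool.Agent.Helper41.CF.Defs

/-!
# CF-M2: integral vectors with determinant prime to `n`

`dt v w = v 0 * w 1 - v 1 * w 0`.
Proof of `vec_rot`: otherwise (`v = e₁, e₂, e₁ + e₂`) `S` is scalar modulo `n`: `S = λ`,
`λ² = 1` and `λ² - t λ + 1 = 0` in `ZMod n`, so `t λ = 2`, `t ^ 2 = 4` in `ZMod n`,
impossible for `t = -1, 0, 1` and `n ≥ 5`.
Proof of `vec_refl`: over `ZMod n`, `C ≠ ±1` (determinant), so some column `v` of `1 + C` and some
column `w` of `1 - C` are nonzero modulo `n`; `C v = v`, `C w = -w` (over `ℤ`, as `C ^ 2 = 1`),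
and `v`, `w` are independent modulo `n` because `2 ≠ 0`.
Proof of `vec_dih`: take `v` a column of `1 + ε C` which is nonzero modulo `n`, `C v = ε v`.  If
`dt v (S v) = 0` in `ZMod n` then `S v = λ v` for some `λ`; `C S v = S⁻¹ C v = ε S⁻¹ v`
(`C S C S = 1`), so `λ = λ⁻¹`, `λ ^ 2 = 1`; with `λ ^ 2 - t λ + 1 = 0` this is impossible as above.
-/

set_option autoImplicit false

open Matrix

namespace Pool.Agent.Helper41.CF

/-- the determinant of two integral vectors -/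
def dt (v w : Fin 2 → ℤ) : ℤ := v 0 * w 1 - v 1 * w 0

theorem m2_trace_one (S : Matrix (Fin 2) (Fin 2) ℤ) (t : ℤ) (hS : S ^ 2 - t • S + 1 = 0)
    (hdet : S.det = 1) : S 0 0 + S 1 1 = t := by
  rw [Matrix.det_fin_two] at hdet
  have h00 := congrFun (congrFun hS 0) 0
  have h01 := congrFun (congrFun hS 0) 1
  have h10 := congrFun (congrFun hS 1) 0
  have h11 := congrFun (congrFun hS 1) 1
  simp [pow_two, Matrix.mul_apply, Fin.sum_univ_two, Matrix.smul_apply, -zsmul_eq_mul]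
    at h00 h01 h10 h11
  by_contra hne
  have hne' : S 0 0 + S 1 1 - t ≠ 0 := fun h => hne (by linarith)
  have ha : S 0 0 = 0 := by
    have : S 0 0 * (S 0 0 + S 1 1 - t) = 0 := by linear_combination h00 + hdet
    exact (mul_eq_zero.1 this).resolve_right hne'
  have hb : S 0 1 = 0 := by
    have : S 0 1 * (S 0 0 + S 1 1 - t) = 0 := by linear_combination h01
    exact (mul_eq_zero.1 this).resolve_right hne'
  rw [ha, hb] at hdet
  simp at hdet

theorem m2_trace_two (C : Matrix (Fin 2) (Fin 2) ℤ) (hC : C ^ 2 = 1) (hdet : C.det = -1) :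
    C 0 0 + C 1 1 = 0 := by
  rw [Matrix.det_fin_two] at hdet
  have h00 := congrFun (congrFun hC 0) 0
  have h01 := congrFun (congrFun hC 0) 1
  have h10 := congrFun (congrFun hC 1) 0
  have h11 := congrFun (congrFun hC 1) 1
  simp [pow_two, Matrix.mul_apply, Fin.sum_univ_two] at h00 h01 h10 h11
  by_contra hne
  have ha : C 0 0 = 0 := by
    have : C 0 0 * (C 0 0 + C 1 1) = 0 := by linear_combination h00 + hdet
    exact (mul_eq_zero.1 this).resolve_right hne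
  have hb : C 0 1 = 0 := by
    have : C 0 1 * (C 0 0 + C 1 1) = 0 := by linear_combination h01
    exact (mul_eq_zero.1 this).resolve_right hne
  rw [ha, hb] at hdet
  simp at hdet

theorem m2_not_dvd {n : ℕ} (h5 : 5 ≤ n) {k : ℤ} (h0 : 0 < k) (h4 : k ≤ 4) : ¬ (n : ℤ) ∣ k := by
  intro h
  have := Int.le_of_dvd h0 h
  omega

theorem m2_not_dvd_disc {n : ℕ} (h5 : 5 ≤ n) (t : ℤ) (ht : t = -1 ∨ t = 0 ∨ t = 1) :
    ¬ (n : ℤ) ∣ t ^ 2 - 4 := by
  intro h
  rw [← dvd_neg] at h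
  refine m2_not_dvd h5 ?_ ?_ h
  · rcases ht with rfl | rfl | rfl <;> norm_num
  · rcases ht with rfl | rfl | rfl <;> norm_num

theorem vec_rot {n : ℕ} (hp : n.Prime) (h5 : 5 ≤ n) (S : Matrix (Fin 2) (Fin 2) ℤ) (t : ℤ)
    (ht : t = -1 ∨ t = 0 ∨ t = 1) (hS : S ^ 2 - t • S + 1 = 0) (hdet : S.det = 1) :
    ∃ v : Fin 2 → ℤ, ¬ (n : ℤ) ∣ dt v (S *ᵥ v) := by
  have htr := m2_trace_one S t hS hdet
  rw [Matrix.det_fin_two] at hdet
  by_contra hcon
  push Not at hcon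
  have h1 := hcon ![1, 0]
  have h2 := hcon ![0, 1]
  have h3 := hcon ![1, 1]
  simp [dt, Matrix.mulVec, dotProduct, Fin.sum_univ_two] at h1 h2 h3
  refine m2_not_dvd_disc h5 t ht ?_
  have h4 : (n : ℤ) ∣ S 1 1 - S 0 0 := by
    have : S 1 1 - S 0 0 = (S 1 0 + S 1 1 - (S 0 0 + S 0 1)) - S 1 0 + S 0 1 := by ring
    rw [this]
    exact dvd_add (dvd_sub h3 h1) h2
  have h6 : t ^ 2 - 4 = (S 1 1 - S 0 0) * (S 1 1 - S 0 0) + S 1 0 * (4 * S 0 1) := by
    rw [← htr]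
    linear_combination 4 * hdet
  rw [h6]
  exact dvd_add (h4.mul_right _) (h1.mul_right _)

theorem m2_mulVec (C : Matrix (Fin 2) (Fin 2) ℤ) (x y : ℤ) :
    C *ᵥ ![x, y] = ![C 0 0 * x + C 0 1 * y, C 1 0 * x + C 1 1 * y] := by
  funext i
  fin_cases i <;> simp [Matrix.mulVec, dotProduct, Fin.sum_univ_two]

theorem m2_sq (C : Matrix (Fin 2) (Fin 2) ℤ) (hC : C ^ 2 = 1) :
    C 0 0 * C 0 0 + C 0 1 * C 1 0 = 1 := by
  have h00 := congrFun (congrFun hC 0) 0
  simpa [pow_two, Matrix.mul_apply, Fin.sum_univ_two] using h00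

theorem vec_refl {n : ℕ} (hp : n.Prime) (h5 : 5 ≤ n) (C : Matrix (Fin 2) (Fin 2) ℤ)
    (hC : C ^ 2 = 1) (hdet : C.det = -1) :
    ∃ v w : Fin 2 → ℤ, C *ᵥ v = v ∧ C *ᵥ w = -w ∧ ¬ (n : ℤ) ∣ dt v w := by
  have htr := m2_trace_two C hC hdet
  have hsq := m2_sq C hC
  have hs : C 1 1 = -C 0 0 := by linarith
  by_cases h : (n : ℤ) ∣ 2 * (1 + C 0 0)
  · refine ⟨![C 0 1, 1 - C 0 0], ![1 - C 0 0, -C 1 0], ?_, ?_, ?_⟩
    · rw [m2_mulVec, hs]
      congr 1
      · ring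
      · congr 1
        linear_combination hsq
    · rw [m2_mulVec, hs]
      funext i
      fin_cases i
      · simp
        linear_combination (-1 : ℤ) * hsq
      · simp
        ring
    · intro h2
      have h3 : dt ![C 0 1, 1 - C 0 0] ![1 - C 0 0, -C 1 0] = -(4 - 2 * (1 + C 0 0)) := by
        simp [dt]
        linear_combination (-1 : ℤ) * hsq
      rw [h3, dvd_neg] at h2
      have h4 := dvd_add h2 h
      rw [sub_add_cancel] at h4
      exact m2_not_dvd h5 (by norm_num) (by norm_num) h4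
  · refine ⟨![1 + C 0 0, C 1 0], ![-C 0 1, 1 + C 0 0], ?_, ?_, ?_⟩
    · rw [m2_mulVec, hs]
      congr 1
      · linear_combination hsq
      · congr 1
        ring
    · rw [m2_mulVec, hs]
      funext i
      fin_cases i
      · simp
        ring
      · simp
        linear_combination (-1 : ℤ) * hsq
    · intro h2
      have h3 : dt ![1 + C 0 0, C 1 0] ![-C 0 1, 1 + C 0 0] = 2 * (1 + C 0 0) := by
        simp [dt]
        linear_combination hsq
      rw [h3] at h2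
      exact h h2

theorem vec_dih {n : ℕ} (hp : n.Prime) (h5 : 5 ≤ n) (S C : Matrix (Fin 2) (Fin 2) ℤ) (t : ℤ)
    (ht : t = -1 ∨ t = 0 ∨ t = 1) (hS : S ^ 2 - t • S + 1 = 0) (hdetS : S.det = 1)
    (hC : C ^ 2 = 1) (hdet : C.det = -1) (hCS : C * S * C * S = 1) (ε : ℤ)
    (hε : ε = 1 ∨ ε = -1) :
    ∃ v : Fin 2 → ℤ, C *ᵥ v = ε • v ∧ ¬ (n : ℤ) ∣ dt v (S *ᵥ v) := by
  have hpi : Prime (n : ℤ) := Nat.prime_iff_prime_int.1 hp
  have htr := m2_trace_one S t hS hdetS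
  have htrC := m2_trace_two C hC hdet
  have hsq := m2_sq C hC
  have hs : C 1 1 = -C 0 0 := by linarith
  have hCS2 : (C * S) ^ 2 = 1 := by
    rw [pow_two, ← hCS, Matrix.mul_assoc (C * S) C S]
  have hdCS : (C * S).det = -1 := by
    rw [Matrix.det_mul, hdet, hdetS]
    norm_num
  have htrCS := m2_trace_two (C * S) hCS2 hdCS
  rw [Matrix.mul_apply, Matrix.mul_apply, Fin.sum_univ_two, Fin.sum_univ_two, hs] at htrCS
  rw [Matrix.det_fin_two] at hdetS
  have hdisc : t ^ 2 - 4 = (S 1 1 - S 0 0) ^ 2 + 4 * (S 0 1 * S 1 0) := by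
    rw [← htr]
    linear_combination 4 * hdetS
  have hnd := m2_not_dvd_disc h5 t ht
  have hε2 : ε * ε = 1 := by rcases hε with rfl | rfl <;> norm_num
  by_cases h : (n : ℤ) ∣ 1 + ε * C 0 0
  · have hn : ¬ (n : ℤ) ∣ 1 - ε * C 0 0 := by
      intro h'
      have h2 := dvd_add h h'
      have h3 : 1 + ε * C 0 0 + (1 - ε * C 0 0) = 2 := by ring
      rw [h3] at h2
      exact m2_not_dvd h5 (by norm_num) (by norm_num) h2
    refine ⟨![ε * C 0 1, 1 - ε * C 0 0], ?_, ?_⟩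
    · rw [m2_mulVec, hs]
      funext i
      fin_cases i
      · simp
        linear_combination (-C 0 1) * hε2
      · simp
        linear_combination ε * hsq + C 0 0 * hε2
    · intro hd
      have key : (1 - ε * C 0 0) ^ 2 * (t ^ 2 - 4) =
          -(dt ![ε * C 0 1, 1 - ε * C 0 0] (S *ᵥ ![ε * C 0 1, 1 - ε * C 0 0]) *
            (2 * S 1 0 * (1 - ε * C 0 0) - ε * (S 1 1 - S 0 0) * C 1 0)) := by
        rw [hdisc, m2_mulVec]
        simp only [dt, Matrix.cons_val_zero, Matrix.cons_val_one]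
        rcases hε with rfl | rfl
        · linear_combination (-((S 1 1 - S 0 0) ^ 2 + S 0 1 * (2 * S 1 0 * (1 - C 0 0) -
            (S 1 1 - S 0 0) * C 1 0))) * hsq + (2 * (1 - C 0 0) * (S 1 1 - S 0 0) +
            C 0 1 * (2 * S 1 0 * (1 - C 0 0) - (S 1 1 - S 0 0) * C 1 0)) * htrCS
        · linear_combination (-((S 1 1 - S 0 0) ^ 2 + S 0 1 * (2 * S 1 0 * (1 + C 0 0) +
            (S 1 1 - S 0 0) * C 1 0))) * hsq + (-2 * (1 + C 0 0) * (S 1 1 - S 0 0) +
            C 0 1 * (2 * S 1 0 * (1 + C 0 0) + (S 1 1 - S 0 0) * C 1 0)) * htrCS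
      have h7 : (n : ℤ) ∣ (1 - ε * C 0 0) ^ 2 * (t ^ 2 - 4) := by
        rw [key, dvd_neg]
        exact hd.mul_right _
      rcases hpi.dvd_or_dvd h7 with h8 | h8
      · exact hn (hpi.dvd_of_dvd_pow h8)
      · exact hnd h8
  · refine ⟨![1 + ε * C 0 0, ε * C 1 0], ?_, ?_⟩
    · rw [m2_mulVec, hs]
      funext i
      fin_cases i
      · simp
        linear_combination ε * hsq - C 0 0 * hε2
      · simp
        linear_combination (-C 1 0) * hε2
    · intro hd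
      have key : (1 + ε * C 0 0) ^ 2 * (t ^ 2 - 4) =
          dt ![1 + ε * C 0 0, ε * C 1 0] (S *ᵥ ![1 + ε * C 0 0, ε * C 1 0]) *
            (2 * S 0 1 * (1 + ε * C 0 0) + ε * C 0 1 * (S 1 1 - S 0 0)) := by
        rw [hdisc, m2_mulVec]
        simp only [dt, Matrix.cons_val_zero, Matrix.cons_val_one]
        rcases hε with rfl | rfl
        · linear_combination (-((S 1 1 - S 0 0) ^ 2 + S 1 0 * (2 * S 0 1 * (1 + C 0 0) +
            C 0 1 * (S 1 1 - S 0 0)))) * hsq - (2 * (1 + C 0 0) * (S 1 1 - S 0 0) -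
            C 1 0 * (2 * S 0 1 * (1 + C 0 0) + C 0 1 * (S 1 1 - S 0 0))) * htrCS
        · linear_combination (-((S 1 1 - S 0 0) ^ 2 + S 1 0 * (2 * S 0 1 * (1 - C 0 0) -
            C 0 1 * (S 1 1 - S 0 0)))) * hsq - (-2 * (1 - C 0 0) * (S 1 1 - S 0 0) -
            C 1 0 * (2 * S 0 1 * (1 - C 0 0) - C 0 1 * (S 1 1 - S 0 0))) * htrCS
      have h7 : (n : ℤ) ∣ (1 + ε * C 0 0) ^ 2 * (t ^ 2 - 4) := by
        rw [key]
        exact hd.mul_right _
      rcases hpi.dvd_or_dvd h7 with h8 | h8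
      · exact h (hpi.dvd_of_dvd_pow h8)
      · exact hnd h8

end Pool.Agent.Helper41.CF
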