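import Mathlib
import Pool.Agent.Helper41.CF.Stable

/-!
# CF-M4: from relations modulo `n`-th powers to exact relations

`ev a b v = a ^ v 0 * b ^ v 1`.  `G` acts on the group of units of a field by automorphisms.
Proof.  `e' v = ∏ h : G, h • ev a b (ρ h⁻¹ v)`; it is multiplicative in `v`,
`g • e' v = e' (ρ g v)` (reindex), and modulo `n`-th powers every factor is `ev a b v`, because
`h • ev a b w` and `ev a b (ρ h w)` are equal modulo `n`-th powers.  Put `a' = e' (1, 0)`,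
`b' = e' (0, 1)`.
-/

set_option autoImplicit false

open Matrix

namespace Pool.Agent.Helper41.CF

universe u v

/-- the monomial with exponent vector `v` -/
def ev {E : Type u} [Field E] (a b : Eˣ) (v : Fin 2 → ℤ) : Eˣ := a ^ v 0 * b ^ v 1

private theorem M4_ev_mulVec {E : Type u} [Field E] (a b : Eˣ) (M : Matrix (Fin 2) (Fin 2) ℤ)
    (v : Fin 2 → ℤ) :
    ev a b (M *ᵥ v) = (a ^ M 0 0 * b ^ M 1 0) ^ v 0 * (a ^ M 0 1 * b ^ M 1 1) ^ v 1 := by
  have h0 : (M *ᵥ v) 0 = M 0 0 * v 0 + M 0 1 * v 1 := by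
    simp [Matrix.mulVec, dotProduct, Fin.sum_univ_two]
  have h1 : (M *ᵥ v) 1 = M 1 0 * v 0 + M 1 1 * v 1 := by
    simp [Matrix.mulVec, dotProduct, Fin.sum_univ_two]
  rw [ev, h0, h1, _root_.zpow_add, _root_.zpow_add, _root_.mul_zpow, _root_.mul_zpow, _root_.zpow_mul,
    _root_.zpow_mul, _root_.zpow_mul, _root_.zpow_mul]
  exact mul_mul_mul_comm _ _ _ _

private theorem M4_map_ev {E : Type u} [Field E] (φ : Eˣ →* Eˣ) (a b : Eˣ) (v : Fin 2 → ℤ) :
    φ (ev a b v) = ev (φ a) (φ b) v := by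
  rw [ev, ev, map_mul, map_zpow, map_zpow]

private theorem M4_np_prod {E : Type u} [Field E] {n : ℕ} {G : Type v} [Fintype G] (f : G → Eˣ)
    (x : Eˣ) (h : ∀ g, NP n (f g) x) : NP n (∏ g, f g) (x ^ Fintype.card G) := by
  choose c hc using h
  refine ⟨∏ g, c g, ?_⟩
  rw [← Finset.prod_pow, Finset.prod_congr rfl fun g _ => hc g, Finset.prod_mul_distrib,
    Finset.prod_const, Finset.card_univ]

theorem exists_exact {E : Type u} [Field E] {n : ℕ} {G : Type v} [Group G] [Fintype G]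
    (φ : G → Eˣ →* Eˣ) (h1 : ∀ x, φ 1 x = x) (hmul : ∀ g h x, φ (g * h) x = φ g (φ h x))
    (ρ : G →* Matrix (Fin 2) (Fin 2) ℤ) (a b : Eˣ)
    (ha : ∀ g, NP n (φ g a) (a ^ (ρ g 0 0) * b ^ (ρ g 1 0)))
    (hb : ∀ g, NP n (φ g b) (a ^ (ρ g 0 1) * b ^ (ρ g 1 1))) :
    ∃ a' b' : Eˣ, NP n a' (a ^ Fintype.card G) ∧ NP n b' (b ^ Fintype.card G) ∧
      ∀ g v, φ g (ev a' b' v) = ev a' b' (ρ g *ᵥ v) := by
  -- one factor
  have hfac : ∀ g v, NP n (φ g (ev a b v)) (ev a b (ρ g *ᵥ v)) := by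
    intro g v
    rw [M4_map_ev, M4_ev_mulVec, ev]
    exact ((ha g).zpow _).mul ((hb g).zpow _)
  have hinv : ∀ (g : G) (v : Fin 2 → ℤ), ρ g *ᵥ (ρ g⁻¹ *ᵥ v) = v := by
    intro g v
    rw [Matrix.mulVec_mulVec, ← map_mul, mul_inv_cancel, map_one, Matrix.one_mulVec]
  let e' : (Fin 2 → ℤ) → Eˣ := fun v => ∏ h : G, φ h (ev a b (ρ h⁻¹ *ᵥ v))
  have he' : ∀ v, e' v = ∏ h : G, φ h (ev a b (ρ h⁻¹ *ᵥ v)) := fun v => rfl
  have hnp : ∀ v, NP n (e' v) ((ev a b v) ^ Fintype.card G) := by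
    intro v
    apply M4_np_prod
    intro h
    have := hfac h (ρ h⁻¹ *ᵥ v)
    rwa [hinv] at this
  have hact : ∀ g v, φ g (e' v) = e' (ρ g *ᵥ v) := by
    intro g v
    rw [he', he', map_prod]
    rw [← Equiv.prod_comp (Equiv.mulLeft g)
      (fun h : G => φ h (ev a b (ρ h⁻¹ *ᵥ (ρ g *ᵥ v))))]
    apply Finset.prod_congr rfl
    intro h _
    rw [Equiv.coe_mulLeft, hmul, Matrix.mulVec_mulVec, ← map_mul, _root_.mul_inv_rev,
      inv_mul_cancel_right]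
  have hev : ∀ v, ev (e' ![1, 0]) (e' ![0, 1]) v = e' v := by
    intro v
    rw [ev, he', he', he', ← Finset.prod_zpow, ← Finset.prod_zpow, ← Finset.prod_mul_distrib]
    apply Finset.prod_congr rfl
    intro h _
    rw [← map_zpow, ← map_zpow, ← map_mul]
    congr 1
    rw [M4_ev_mulVec, M4_ev_mulVec, M4_ev_mulVec]
    simp
  refine ⟨e' ![1, 0], e' ![0, 1], ?_, ?_, ?_⟩
  · have := hnp ![1, 0]
    simpa [ev] using this
  · have := hnp ![0, 1]
    simpa [ev] using this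
  · intro g v
    rw [hev, hev, hact]

end Pool.Agent.Helper41.CF
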