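import Mathlib
import Pool.Agent.Helper41.CF.Defs

/-!
# CF-M5: restriction of automorphisms to `F(a, b)`

Short: `K = IntermediateField.adjoin F {a, b}`; `K ≤ K.comap g`-type argument
(`IntermediateField.adjoin_le_iff`), restrict codomain; two `F`-algebra homomorphisms `K → L` which agree on
`a`, `b` are equal (`IntermediateField.algHom_ext_of_eq_adjoin`, or
`AlgHom.equalizer` and `IntermediateField.adjoin_le_iff`).
-/

set_option autoImplicit false

namespace Pool.Agent.Helper41.CF

universe u

theorem exists_restrict {F L : Type u} [Field F] [Field L] [Algebra F L] (a b : L)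
    (g : L ≃ₐ[F] L) (ha : g a ∈ IntermediateField.adjoin F {a, b})
    (hb : g b ∈ IntermediateField.adjoin F {a, b}) :
    ∃ τ : IntermediateField.adjoin F ({a, b} : Set L) →+* IntermediateField.adjoin F ({a, b} : Set L),
      ∀ x, ((τ x : IntermediateField.adjoin F ({a, b} : Set L)) : L) = g x := by
  have hK : IntermediateField.adjoin F ({a, b} : Set L) ≤
      (IntermediateField.adjoin F ({a, b} : Set L)).comap (g : L →ₐ[F] L) := by
    rw [IntermediateField.adjoin_le_iff]
    rintro x (rfl | rfl)
    · exact ha
    · exact hb
  exact ⟨((g : L →+* L).comp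
      (algebraMap (IntermediateField.adjoin F ({a, b} : Set L)) L)).codRestrict
      (IntermediateField.adjoin F ({a, b} : Set L)) (fun x => hK x.2), fun x => rfl⟩

theorem eq_on_adjoin {F L : Type u} [Field F] [Field L] [Algebra F L] (a b : L)
    (g h : L ≃ₐ[F] L) (ha : g a = h a) (hb : g b = h b) (x : L)
    (hx : x ∈ IntermediateField.adjoin F ({a, b} : Set L)) : g x = h x := by
  induction hx using IntermediateField.adjoin_induction with
  | mem x hx =>
    rcases hx with rfl | rfl
    · exact ha
    · exact hb
  | algebraMap x => simp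
  | add x y _ _ hx hy => rw [map_add, map_add, hx, hy]
  | inv x _ hx => rw [map_inv₀, map_inv₀, hx]
  | mul x y _ _ hx hy => rw [map_mul, map_mul, hx, hy]

end Pool.Agent.Helper41.CF
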