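import Mathlib
import Pool.Agent.Helper41.CF.Defs

/-!
# CF-D5: the algebra generated by a central simple algebra and a commuting radical field

Proof.  `X ^ n - α` is irreducible (`X_pow_sub_C_irreducible_of_prime`), so `K = F[g]` (the subalgebra
generated by `g`) is a field of dimension `n` with basis `1, g, .., g ^ (n - 1)`.  `R` is the set of
all `∑ i < n, ρ (a i) * g ^ i`.  Standard: if `A` is central simple over `F` then every nonzero two-sided ideal
`I` of `R` contains `1`, and the representation of an element is unique.  Proof of both: let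
`r = ∑ k ∈ K-basis` .. take a nonzero tuple `(a i)` (for uniqueness: one with `∑ ρ (a i) g ^ i = 0`;
for ideals: one with `∑ ρ (a i) g ^ i ∈ I`) with the least number of nonzero entries; multiplying
by elements of `ρ A` on both sides and adding (`A` is simple: `1` is in the two-sided ideal
generated by `a i₀`) we may assume `a i₀ = 1`; commuting with `ρ a` kills the `i₀` entry, so all
`a a i = a i a` by minimality, `a i ∈ F` (central), and the element is in `K`; it is nonzero because
`1, g, ..` are independent, hence invertible in `R` (contradiction in the first case, `I = R` in the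
second).  Alternatively show first that `A ⊗[F] K` is simple and map it to `End W`.
-/

set_option autoImplicit false

namespace Pool.Agent.Helper41.CF

universe u v w

open Polynomial

theorem d5_key {F : Type u} [Field F] {A : Type v} [Ring A] [Algebra F A] [IsSimpleRing A]
    [Algebra.IsCentral F A] {n : ℕ} (hp : n.Prime) (α : F)
    (hα : ∀ β : F, β ^ n ≠ α) (J : TwoSidedIdeal A[X])
    (hP : (X ^ n - C (algebraMap F A α) : A[X]) ∈ J) (hJ : (1 : A[X]) ∉ J) :
    ∀ f ∈ J, f.degree < n → f = 0 := by
  classical
  have hn1 : n ≠ 0 := hp.ne_zero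
  -- the least degree
  suffices H : ∀ d : ℕ, d < n → ∀ f ∈ J, f.degree < (d + 1 : ℕ) → f = 0 by
    intro f hf hd
    refine H (n - 1) (by omega) f hf ?_
    have : n - 1 + 1 = n := by omega
    rw [this]; exact hd
  intro d
  induction d using Nat.strong_induction_on with
  | _ d ih =>
  intro hdn f hf hfd
  have hlow : ∀ h ∈ J, h.degree < (d : ℕ) → h = 0 := by
    intro h hh hd
    rcases Nat.eq_zero_or_pos d with rfl | hpos
    · have : h.degree < 0 := by simpa using hd
      by_contra hne
      have := Polynomial.zero_le_degree_iff.2 hne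
      exact absurd ‹h.degree < 0› (not_lt.2 this)
    · refine ih (d - 1) (by omega) (by omega) h hh ?_
      have : d - 1 + 1 = d := by omega
      rw [this]; exact hd
  by_contra hf0
  -- the coefficient at d is nonzero
  have ha : f.coeff d ≠ 0 := by
    intro h0
    apply hf0
    apply hlow f hf
    rw [Polynomial.degree_lt_iff_coeff_zero] at hfd ⊢
    intro m hm
    rcases eq_or_lt_of_le hm with rfl | hlt
    · exact h0
    · exact hfd m hlt
  -- the set of d-th coefficients of elements of J of degree ≤ d is an ideal of A
  let I : TwoSidedIdeal A := TwoSidedIdeal.mk' {a : A | ∃ h ∈ J, h.degree < (d + 1 : ℕ) ∧ h.coeff d = a}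
    ⟨0, J.zero_mem, by simp [Polynomial.degree_zero], by simp⟩
    (by
      rintro x y ⟨h, hh, hd, rfl⟩ ⟨k, hk, kd, rfl⟩
      exact ⟨h + k, J.add_mem hh hk, lt_of_le_of_lt (Polynomial.degree_add_le _ _) (max_lt hd kd), by simp⟩)
    (by
      rintro x ⟨h, hh, hd, rfl⟩
      exact ⟨-h, J.neg_mem hh, by rwa [Polynomial.degree_neg], by simp⟩)
    (by
      rintro x y ⟨h, hh, hd, rfl⟩
      refine ⟨C x * h, J.mul_mem_left _ _ hh, ?_, by simp⟩
      rw [Polynomial.degree_lt_iff_coeff_zero] at hd ⊢
      intro m hm
      simp [hd m hm])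
    (by
      rintro x y ⟨h, hh, hd, rfl⟩
      refine ⟨h * C y, J.mul_mem_right _ _ hh, ?_, by simp⟩
      rw [Polynomial.degree_lt_iff_coeff_zero] at hd ⊢
      intro m hm
      simp [hd m hm])
  have hmem : ∀ a : A, a ∈ I ↔ ∃ h ∈ J, h.degree < (d + 1 : ℕ) ∧ h.coeff d = a := by
    intro a
    rw [TwoSidedIdeal.mem_mk']
    rfl
  have hI1 : (1 : A) ∈ I := by
    have : I ≠ ⊥ := by
      intro hb
      have : f.coeff d ∈ I := (hmem _).2 ⟨f, hf, hfd, rfl⟩
      rw [hb] at this
      exact ha ((TwoSidedIdeal.mem_bot _).1 this)
    have htop : I = ⊤ := (eq_bot_or_eq_top I).resolve_left this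
    rw [htop]; trivial
  obtain ⟨h, hh, hd, h1⟩ := (hmem 1).1 hI1
  have hcen : ∀ a : A, C a * h = h * C a := by
    intro a
    have hz : C a * h - h * C a = 0 := by
      apply hlow _ (J.sub_mem (J.mul_mem_left _ _ hh) (J.mul_mem_right _ _ hh))
      rw [Polynomial.degree_lt_iff_coeff_zero] at hd ⊢
      intro m hm
      rcases eq_or_lt_of_le hm with rfl | hlt
      · simp [h1]
      · simp [hd m hlt]
    exact sub_eq_zero.1 hz
  -- coefficients are central
  have hco : ∀ m, ∃ c : F, algebraMap F A c = h.coeff m := by
    intro m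
    have : h.coeff m ∈ Subalgebra.center F A := by
      rw [Subalgebra.mem_center_iff]
      intro a
      have := congrArg (fun q => coeff q m) (hcen a)
      simpa using this
    rw [Algebra.IsCentral.center_eq_bot] at this
    exact Algebra.mem_bot.1 this
  choose c hc using hco
  have hinj : Function.Injective (algebraMap F A) := (algebraMap F A).injective
  have hcz : ∀ m, d + 1 ≤ m → c m = 0 := by
    intro m hm
    apply hinj
    rw [hc, map_zero]
    rw [Polynomial.degree_lt_iff_coeff_zero] at hd
    exact hd m hm
  -- the polynomial over F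
  let f0 : F[X] := ∑ m ∈ Finset.range (d + 1), Polynomial.monomial m (c m)
  have hf0c : ∀ m, f0.coeff m = c m := by
    intro m
    simp only [f0, Polynomial.finsetSum_coeff, Polynomial.coeff_monomial]
    rw [Finset.sum_ite_eq']
    split_ifs with hm
    · rfl
    · rw [hcz m (by simpa using hm)]
  have hmap : f0.map (algebraMap F A) = h := by
    ext m
    rw [Polynomial.coeff_map, hf0c, hc]
  have hf0ne : f0 ≠ 0 := by
    intro h0
    have : c d = 0 := by rw [← hf0c, h0, coeff_zero]
    have h2 := hc d
    rw [this, map_zero, h1] at h2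
    exact zero_ne_one h2
  have hf0d : f0.degree < n := by
    rw [Polynomial.degree_lt_iff_coeff_zero]
    intro m hm
    rw [hf0c, hcz m (by omega)]
  have hirr : Irreducible (X ^ n - C α : F[X]) := X_pow_sub_C_irreducible_of_prime hp hα
  have hcop : IsCoprime (X ^ n - C α : F[X]) f0 := by
    rcases dvd_or_isCoprime _ f0 hirr with h | h
    · exfalso
      have h3 := Polynomial.degree_le_of_dvd h hf0ne
      rw [Polynomial.degree_X_pow_sub_C (Nat.pos_of_ne_zero hn1)] at h3
      exact absurd hf0d (not_lt.2 h3)
    · exact h
  obtain ⟨u, v, huv⟩ := hcop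
  apply hJ
  have h4 := congrArg (Polynomial.map (algebraMap F A)) huv
  rw [Polynomial.map_add, Polynomial.map_mul, Polynomial.map_mul, hmap, Polynomial.map_one] at h4
  rw [← h4]
  refine J.add_mem (J.mul_mem_left _ _ ?_) (J.mul_mem_left _ _ hh)
  simpa using hP

theorem rad_simple {F : Type u} [Field F] {A : Type v} [Ring A] [Algebra F A] [IsSimpleRing A]
    [Algebra.IsCentral F A] [Module.Finite F A] {W : Type w} [AddCommGroup W] [Module F W]
    [Module.Finite F W] [Nontrivial W] {n : ℕ} (hp : n.Prime) (α : F)
    (hα : ∀ β : F, β ^ n ≠ α) (ρ : A →ₐ[F] Module.End F W) (g : Module.End F W)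
    (hg : g ^ n = algebraMap F (Module.End F W) α) (hcom : ∀ a, Commute g (ρ a)) :
    ∃ R : Subalgebra F (Module.End F W), (∀ a, ρ a ∈ R) ∧ g ∈ R ∧ IsSimpleRing R ∧
      Module.finrank F R = n * Module.finrank F A := by
  classical
  let φ : A[X] →ₐ[F] Module.End F W :=
    { Polynomial.eval₂RingHom' (ρ : A →+* Module.End F W) g (fun a => (hcom a).symm) with
      commutes' := by
        intro c
        show Polynomial.eval₂ (ρ : A →+* Module.End F W) g (algebraMap F A[X] c) = _
        rw [Polynomial.algebraMap_apply, Polynomial.eval₂_C]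
        exact ρ.commutes c }
  have hφC : ∀ a, φ (C a) = ρ a := fun a => Polynomial.eval₂_C (ρ : A →+* Module.End F W) g
  have hφX : φ X = g := Polynomial.eval₂_X (ρ : A →+* Module.End F W) g
  let P : A[X] := X ^ n - C (algebraMap F A α)
  have hφP : φ P = 0 := by
    simp only [P, map_sub, map_pow, hφX, hφC, hg, AlgHom.commutes, sub_self]
  have hPm : P.Monic := Polynomial.monic_X_pow_sub_C _ hp.ne_zero
  have hPd : P.degree = n := Polynomial.degree_X_pow_sub_C hp.pos _
  -- kernel statement
  have hker : ∀ f : A[X], φ f = 0 → f.degree < n → f = 0 := by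
    intro f hf hd
    refine d5_key hp α hα (TwoSidedIdeal.ker φ) ?_ ?_ f ?_ hd
    · rw [TwoSidedIdeal.mem_ker]; exact hφP
    · rw [TwoSidedIdeal.mem_ker, map_one]; exact one_ne_zero
    · rw [TwoSidedIdeal.mem_ker]; exact hf
  have hred : ∀ f : A[X], φ (f %ₘ P) = φ f := by
    intro f
    conv_rhs => rw [← Polynomial.modByMonic_add_div f P]
    rw [map_add, map_mul, hφP, zero_mul, add_zero]
  have hredd : ∀ f : A[X], (f %ₘ P).degree < n := by
    intro f; rw [← hPd]; exact Polynomial.degree_modByMonic_lt f hPm
  refine ⟨φ.range, fun a => ⟨C a, hφC a⟩, ⟨X, hφX⟩, ?_, ?_⟩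
  · have : Nontrivial φ.range := inferInstance
    refine ⟨⟨fun J => ?_⟩⟩
    by_cases hJ1 : (1 : φ.range) ∈ J
    · right
      rw [eq_top_iff]
      intro x _
      have := J.mul_mem_left x 1 hJ1
      rwa [mul_one] at this
    · left
      rw [eq_bot_iff]
      intro x hx
      obtain ⟨y, f, rfl⟩ := x
      have hcm : TwoSidedIdeal.comap φ.rangeRestrict J = TwoSidedIdeal.comap φ.rangeRestrict J := rfl
      have h0 : f %ₘ P = 0 := by
        refine d5_key hp α hα (TwoSidedIdeal.comap φ.rangeRestrict J) ?_ ?_ _ ?_ (hredd f)
        · rw [TwoSidedIdeal.mem_comap]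
          have : φ.rangeRestrict P = 0 := Subtype.ext hφP
          erw [this]
          exact J.zero_mem
        · rw [TwoSidedIdeal.mem_comap, map_one]
          exact hJ1
        · rw [TwoSidedIdeal.mem_comap]
          have : φ.rangeRestrict (f %ₘ P) = ⟨φ f, f, rfl⟩ := Subtype.ext (hred f)
          rw [this]
          exact hx
      rw [TwoSidedIdeal.mem_bot]
      apply Subtype.ext
      show φ f = 0
      rw [← hred f, h0, map_zero]
  · -- dimension
    let Ψ : (Fin n → A) →ₗ[F] φ.range :=
      { toFun := fun a => ⟨φ (∑ i : Fin n, Polynomial.monomial i (a i)), _, rfl⟩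
        map_add' := by
          intro a b
          apply Subtype.ext
          simp [Finset.sum_add_distrib]
        map_smul' := by
          intro c a
          apply Subtype.ext
          show φ (∑ i : Fin n, Polynomial.monomial i ((c • a) i)) = c • φ (∑ i : Fin n, Polynomial.monomial i (a i))
          rw [← map_smul, Finset.smul_sum]
          congr 1
          refine Finset.sum_congr rfl fun i _ => ?_
          rw [Polynomial.smul_monomial]
          rfl }
    have hcoef : ∀ (a : Fin n → A) (j : Fin n), (∑ i : Fin n, Polynomial.monomial (i : ℕ) (a i)).coeff j = a j := by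
      intro a j
      rw [Polynomial.finsetSum_coeff, Finset.sum_eq_single j]
      · simp
      · intro i _ hij
        rw [Polynomial.coeff_monomial, if_neg]
        intro h; exact hij (Fin.ext h)
      · intro h; exact absurd (Finset.mem_univ _) h
    have hdeg : ∀ (a : Fin n → A), (∑ i : Fin n, Polynomial.monomial (i : ℕ) (a i)).degree < n := by
      intro a
      rw [Polynomial.degree_lt_iff_coeff_zero]
      intro m hm
      rw [Polynomial.finsetSum_coeff]
      refine Finset.sum_eq_zero fun i _ => ?_
      rw [Polynomial.coeff_monomial, if_neg]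
      have := i.2
      omega
    have hinj : Function.Injective Ψ := by
      rw [injective_iff_map_eq_zero]
      intro a ha
      have h1 : φ (∑ i : Fin n, Polynomial.monomial (i : ℕ) (a i)) = 0 := congrArg Subtype.val ha
      have h2 := hker _ h1 (hdeg a)
      funext j
      rw [← hcoef a j, h2]
      rfl
    have hsurj : Function.Surjective Ψ := by
      rintro ⟨y, f, rfl⟩
      refine ⟨fun i => (f %ₘ P).coeff i, ?_⟩
      apply Subtype.ext
      show φ (∑ i : Fin n, Polynomial.monomial (i : ℕ) ((f %ₘ P).coeff i)) = φ f
      rw [← hred f]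
      congr 1
      ext m
      by_cases hm : m < n
      · exact hcoef (fun i => (f %ₘ P).coeff i) ⟨m, hm⟩
      · have h1 := hdeg (fun i : Fin n => (f %ₘ P).coeff i)
        rw [Polynomial.degree_lt_iff_coeff_zero] at h1
        have h2 := hredd f
        rw [Polynomial.degree_lt_iff_coeff_zero] at h2
        rw [h1 m (by omega), h2 m (by omega)]
    have he := (LinearEquiv.ofBijective Ψ ⟨hinj, hsurj⟩).finrank_eq
    have h5 : Module.finrank F φ.range = Module.finrank F (Fin n → A) := he.symm
    rw [h5, Module.finrank_pi_fintype]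
    simp

end Pool.Agent.Helper41.CF
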