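import Mathlib
import Pool.Agent.Helper41.CF.St.D2
import Pool.Agent.Helper41.CF.St.D5

/-!
# CF-D6: descent of one slot

Proof (compare `Pool/Agent/Helper41/CF/St/D4.lean`, `descent`, where two slots are descended).
`h` gives an `L`-space `V`, `dim_L V = n * n ^ 1 = n ^ 2`, `ρ : A →+* End_L V` and a pair
`(f, g)` of type `(Y, α)` commuting with `ρ`.  Regard `V` as an `F`-space: `dim_F V = [L : F] * n ^ 2`.
By `rad_simple` (for `g`, `ρ`) there is a simple subalgebra `R` of `End_F V` of dimension `n * n ^ 2`
containing `ρ A` and `g`.  `R`-modules: `V ≃ S ^ k`, `R ≃ S ^ r`, `s = dim_F S`: `k s = m n ^ 2`,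
`r s = n ^ 3`, `m = [L : F]` prime to `n`, so `s ∣ n ^ 2`; `R` is faithful on `S`, so `n ^ 3 ≤ s ^ 2`;
as `n` is prime, `s = n ^ 2`.  Hence `S` is, as an `A`-module through `ρ`, isomorphic to `A`
(`equiv_of_finrank_eq`); transport `g`: an `A`-linear map `A → A`, so the right multiplication by
`u = g' 1`, `u ^ n = α`.  (The proof of `exists_submodule` in `D2.lean` has the needed facts on
modules over simple algebras, cf. `D2_type`.)
-/

set_option autoImplicit false

namespace Pool.Agent.Helper41.CF

universe u v w

private theorem D6_submodule {F : Type u} [Field F] {R : Type v} [Ring R] [Algebra F R]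
    [IsSimpleRing R] [Module.Finite F R] {W : Type w} [AddCommGroup W] [Module F W] [Module R W]
    [IsScalarTower F R W] [Module.Finite F W] {n m : ℕ} (hp : n.Prime) (hm : m.Coprime n)
    (hm0 : 0 < m) (hR : Module.finrank F R = n * n ^ 2) (hW : Module.finrank F W = m * n ^ 2) :
    ∃ S : Submodule R W, Module.finrank F S = n ^ 2 := by
  have hn0 : 0 < n := hp.pos
  have : IsArtinianRing R := IsArtinianRing.of_finite F R
  have : Module.Finite R W := Module.Finite.of_restrictScalars_finite F R W
  have : Nontrivial W := by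
    apply Module.nontrivial_of_finrank_pos (R := F)
    rw [hW]; positivity
  obtain ⟨k, _, S, hS, ⟨e⟩⟩ := (IsSimpleRing.isIsotypic R W).linearEquiv_fun
  have := hS
  obtain ⟨r, ⟨e'⟩⟩ := (D2_type (M' := R) S).linearEquiv_fun
  have hk := D2_finrank_fun (F := F) S k e
  have hr := D2_finrank_fun (F := F) S r e'
  rw [hW] at hk
  rw [hR] at hr
  refine ⟨S, ?_⟩
  have : Nontrivial S := IsSimpleModule.nontrivial R S
  have : Module.Finite F S := by
    have : IsNoetherian F W := inferInstance
    exact Module.Finite.of_injective (S.subtype.restrictScalars F) S.injective_subtype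
  have hdvd : Module.finrank F S ∣ n ^ 2 := by
    have h1 : Module.finrank F S ∣ m * n ^ 2 := ⟨k, by rw [hk]; ring⟩
    have h2 : Module.finrank F S ∣ n * n ^ 2 := ⟨r, by rw [hr]; ring⟩
    have h3 := Nat.dvd_gcd h1 h2
    rwa [Nat.gcd_mul_right, Nat.coprime_iff_gcd_eq_one.1 hm, one_mul] at h3
  have hle : n ^ 3 ≤ Module.finrank F S ^ 2 := by
    have hinj : Function.Injective (Algebra.lsmul F F S : R →ₐ[F] Module.End F S) :=
      RingHom.injective (Algebra.lsmul F F S : R →ₐ[F] Module.End F S).toRingHom
    have h1 : Module.finrank F R ≤ Module.finrank F (Module.End F S) :=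
      LinearMap.finrank_le_finrank_of_injective
        (f := (Algebra.lsmul F F S : R →ₐ[F] Module.End F S).toLinearMap) hinj
    rw [hR, Module.finrank_linearMap, ← sq] at h1
    calc n ^ 3 = n * n ^ 2 := by ring
      _ ≤ _ := h1
  obtain ⟨j, hj, hjs⟩ := (Nat.dvd_prime_pow hp).1 hdvd
  rw [hjs] at hle ⊢
  rw [← pow_mul] at hle
  have h3 : 3 ≤ j * 2 := (Nat.pow_le_pow_iff_right hp.one_lt).1 hle
  have : j = 2 := by omega
  rw [this]

/-- an operator commuting with the action of `A` on a module isomorphic to `A` is a right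
multiplication -/
private theorem D6_right {F : Type*} [Field F] {A : Type*} [Ring A] [Algebra F A] {S : Type*}
    [AddCommGroup S] [Module F S] [Module A S] [IsScalarTower F A S] (e : S ≃ₗ[A] A)
    {n : ℕ} (α : F) (g : Module.End F S) (hg : ∀ (a : A) s, g (a • s) = a • g s)
    (hgn : ∀ s, (g ^ n) s = α • s) : ∃ u : A, u ^ n = algebraMap F A α := by
  have hF : ∀ (c : F) (s : S), e (c • s) = c • e s := by
    intro c s
    rw [← IsScalarTower.algebraMap_smul A c s, map_smul, smul_eq_mul, Algebra.smul_def]
  have key : ∀ s, e (g s) = e s * e (g (e.symm 1)) := by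
    intro s
    have h1 : s = e s • e.symm 1 := by
      rw [← map_smul, smul_eq_mul, mul_one, LinearEquiv.symm_apply_apply]
    conv_lhs => rw [h1, hg, map_smul, smul_eq_mul]
  have pw : ∀ k : ℕ, e ((g ^ k) (e.symm 1)) = (e (g (e.symm 1))) ^ k := by
    intro k
    induction k with
    | zero => simp
    | succ k ih => rw [pow_succ', Module.End.mul_apply, key, ih, pow_succ]
  refine ⟨e (g (e.symm 1)), ?_⟩
  rw [← pw, hgn, hF, LinearEquiv.apply_symm_apply, Algebra.algebraMap_eq_smul_one]

theorem slot_descent {F L A : Type u} [Field F] [Field L] [Algebra F L] [Module.Finite F L]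
    [Ring A] [Algebra F A] [IsSimpleRing A] [Algebra.IsCentral F A] [Module.Finite F A] {n : ℕ}
    (hp : n.Prime) {z : L} (hco : (Module.finrank F L).Coprime n)
    (hA : Module.finrank F A = n ^ 2) (α : Fˣ) (hα : ∀ β : F, β ^ n ≠ α) (Y : Lˣ)
    (h : Spl n z F A n [(Y, Units.map (algebraMap F L : F →* L) α)]) :
    ∃ u : A, u ^ n = algebraMap F A α := by
  have hn0 : 0 < n := hp.pos
  obtain ⟨V, iV, iL, ρ, w, hfin, hρ, hV, hw, -, hcm⟩ := h
  rw [List.forall₂_cons_left_iff] at hw
  obtain ⟨p, w', hp', hw', rfl⟩ := hw
  have hcp := hcm p (by simp)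
  obtain ⟨-, p2, -⟩ := hp'
  simp only [List.length_cons, List.length_nil, zero_add, pow_one] at hV
  let iF : Module F V := Module.compHom V (algebraMap F L)
  have hsm : ∀ (c : F) (v : V), c • v = algebraMap F L c • v := fun c v => rfl
  have tow : IsScalarTower F L V := IsScalarTower.of_algebraMap_smul fun c v => rfl
  have : Module.Finite F V := Module.Finite.trans L V
  have hdV : Module.finrank F V = Module.finrank F L * n ^ 2 := by
    rw [← Module.finrank_mul_finrank F L V, hV, sq]
  have : Nontrivial V := by
    have : 0 < Module.finrank L V := by rw [hV]; positivity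
    exact Module.nontrivial_of_finrank_pos this
  -- restriction of scalars
  let res : Module.End L V → Module.End F V := fun φ => φ.restrictScalars F
  have hres : ∀ φ v, res φ v = φ v := fun φ v => rfl
  have hresmul : ∀ φ ψ, res (φ * ψ) = res φ * res ψ := fun φ ψ => rfl
  have hrespow : ∀ φ (k : ℕ), res (φ ^ k) = res φ ^ k := by
    intro φ k
    induction k with
    | zero => rfl
    | succ k ih => rw [pow_succ, pow_succ, hresmul, ih]
  let ρF : A →ₐ[F] Module.End F V :=
    { toFun := fun a => res (ρ a)
      map_one' := by rw [map_one]; rfl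
      map_mul' := fun a b => by rw [map_mul]; rfl
      map_zero' := by rw [map_zero]; rfl
      map_add' := fun a b => by rw [map_add]; rfl
      commutes' := fun c => by
        ext v
        rw [hres, hρ]
        rfl }
  have hρF : ∀ a v, ρF a v = ρ a v := fun a v => rfl
  have hgn : res p.2 ^ n = algebraMap F (Module.End F V) α := by
    rw [← hrespow, p2]
    ext v
    rfl
  have hcomF : ∀ a, Commute (res p.2) (ρF a) := by
    intro a
    have := (hcp a).2
    show res p.2 * res (ρ a) = res (ρ a) * res p.2
    rw [← hresmul, this.eq, hresmul]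
  obtain ⟨R, hRρ, hRg, hRs, hRd⟩ := rad_simple hp (α : F) hα ρF (res p.2) hgn hcomF
  have := hRs
  have : Module.Finite F R := inferInstance
  have hm0 : 0 < Module.finrank F L := Module.finrank_pos
  obtain ⟨S, hS⟩ := D6_submodule (F := F) (R := R) (W := V) (n := n)
    (m := Module.finrank F L) hp hco hm0 (by rw [hRd, hA]) hdV
  -- the action of `A`
  let ρR : A →+* R := (ρF.codRestrict R hRρ : A →ₐ[F] R).toRingHom
  let iA : Module A S := Module.compHom S ρR
  have hact : ∀ (a : A) (s : S), a • s = (⟨ρF a, hRρ a⟩ : R) • s := fun a s => rfl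
  have towA : IsScalarTower F A S := by
    refine ⟨fun c a s => ?_⟩
    rw [hact, hact, ← smul_assoc]
    congr 1
    apply Subtype.ext
    show ρF (c • a) = c • ρF a
    rw [map_smul]
  have hSfree : Module.Free F S := Module.Free.of_divisionRing F S
  have hSfin : Module.Finite F S := Module.finite_of_finrank_pos (by rw [hS]; positivity)
  obtain ⟨e⟩ := equiv_of_finrank_eq (F := F) (A := A) (S := S) (by
    show Module.finrank F S = _
    rw [hS, hA])
  let mk : R → Module.End F S := fun r =>
    { toFun := fun s => r • s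
      map_add' := fun s t => smul_add _ _ _
      map_smul' := fun c s => by
        rw [RingHom.id_apply]
        exact smul_comm r c s }
  have hmk : ∀ r s, mk r s = r • s := fun r s => rfl
  have hmkpow : ∀ r (k : ℕ) s, (mk r ^ k) s = (r ^ k) • s := by
    intro r k
    induction k with
    | zero => intro s; rw [pow_zero, pow_zero, one_smul, Module.End.one_apply]
    | succ k ih =>
      intro s
      rw [pow_succ', Module.End.mul_apply, ih, hmk, ← mul_smul, pow_succ']
  have hRc : ∀ (c : F) (r : R) (s : S), (c • r) • s = c • (r • s) := fun c r s => smul_assoc c r s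
  refine D6_right (F := F) (A := A) (S := S) (n := n) e (α : F) (mk ⟨res p.2, hRg⟩) ?_ ?_
  · intro a s
    rw [hmk, hmk, hact, hact, ← mul_smul, ← mul_smul]
    congr 1
    apply Subtype.ext
    exact (hcomF a).eq
  · intro s
    rw [hmkpow]
    have : (⟨res p.2, hRg⟩ : R) ^ n = (α : F) • (1 : R) := by
      apply Subtype.ext
      show res p.2 ^ n = (α : F) • (1 : Module.End F V)
      rw [← Algebra.algebraMap_eq_smul_one]
      exact hgn
    rw [this, hRc, one_smul]

end Pool.Agent.Helper41.CF
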