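import Mathlib
import Pool.Agent.Helper41.CF.St.D2

/-!
# CF-D7: the split case

Proof.  `h` gives an `L`-space `V` with `dim_L V = n` and an action of `A`; as an `F`-space
`dim_F V = m n`, `m = [L : F]` prime to `n`.  `exists_submodule` (`D2.lean`, with `R = A`, `N = n`) gives
an `A`-submodule `S` of `V` with `dim_F S = n`.  `A → End_F S` is injective (`A` simple) and both
sides have dimension `n ^ 2`, so it is an isomorphism.  Take for `u` the preimage of a cyclic permutation
of a basis of `S` (`n ≥ 2`): `u ^ n = 1`, not a scalar.
-/

set_option autoImplicit false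

namespace Pool.Agent.Helper41.CF

universe u

/-- a linear operator of order dividing `n` on a space of dimension `n ≥ 2`, not a scalar -/
private theorem D7_rot {F S : Type*} [Field F] [AddCommGroup S] [Module F S] {n : ℕ} (hn : 2 ≤ n)
    (hS : Module.finrank F S = n) :
    ∃ f : Module.End F S, f ^ n = 1 ∧ ∀ c : F, f ≠ algebraMap F (Module.End F S) c := by
  have hfin : Module.Finite F S := Module.finite_of_finrank_pos (by omega)
  have b : Module.Basis (Fin n) F S := Module.finBasisOfFinrankEq F S hS
  obtain ⟨k, rfl⟩ : ∃ k, n = k + 2 := ⟨n - 2, by omega⟩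
  let f : Module.End F S := (b.equiv b (finRotate (k + 2))).toLinearMap
  have hf : ∀ i, f (b i) = b (i + 1) := by
    intro i
    show b.equiv b (finRotate (k + 2)) (b i) = _
    rw [Module.Basis.equiv_apply, finRotate_apply]
  have hfp : ∀ (j : ℕ) i, (f ^ j) (b i) = b (i + j • (1 : Fin (k + 2))) := by
    intro j
    induction j with
    | zero => intro i; simp
    | succ j ih =>
      intro i
      rw [pow_succ', Module.End.mul_apply, ih, hf, succ_nsmul, add_assoc]
  have hcard : (k + 2) • (1 : Fin (k + 2)) = 0 := by
    have h := card_nsmul_eq_zero (x := (1 : Fin (k + 2)))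
    rwa [Fintype.card_fin] at h
  refine ⟨f, ?_, ?_⟩
  · apply b.ext
    intro i
    rw [hfp, hcard, add_zero, Module.End.one_apply]
  · intro c hc
    have h0 := hf 0
    rw [hc, Module.algebraMap_end_apply] at h0
    have h1 := congrArg (fun v => b.repr v 1) h0
    simp at h1

theorem split_case {F L A : Type u} [Field F] [Field L] [Algebra F L] [Module.Finite F L]
    [Ring A] [Algebra F A] [IsSimpleRing A] [Module.Finite F A] {n : ℕ}
    (hn : 2 ≤ n) {z : L} (hco : (Module.finrank F L).Coprime n)
    (hA : Module.finrank F A = n ^ 2) (h : Spl n z F A n []) :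
    ∃ u : A, u ^ n = 1 ∧ ∀ c : F, u ≠ algebraMap F A c := by
  obtain ⟨V, iV, iL, ρ, w, hfin, hρ, hV, -, -, -⟩ := h
  simp only [List.length_nil, pow_zero, mul_one] at hV
  let iF : Module F V := Module.compHom V (algebraMap F L)
  have hsm : ∀ (c : F) (v : V), c • v = algebraMap F L c • v := fun c v => rfl
  have tow : IsScalarTower F L V := IsScalarTower.of_algebraMap_smul fun c v => rfl
  have hfinF : Module.Finite F V := Module.Finite.trans L V
  have hdV : Module.finrank F V = Module.finrank F L * n := by
    rw [← Module.finrank_mul_finrank F L V, hV]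
  let iA : Module A V := Module.compHom V ρ
  have hact : ∀ (a : A) (v : V), a • v = ρ a v := fun a v => rfl
  have towA : IsScalarTower F A V := by
    refine ⟨fun c a v => ?_⟩
    rw [hact, hact, hsm, Algebra.smul_def, map_mul, hρ, Module.End.mul_apply]
    rfl
  obtain ⟨S, hS⟩ := exists_submodule (F := F) (R := A) (W := V) (N := n)
    (m := Module.finrank F L) (by omega) hco Module.finrank_pos hA hdV
  have hSfree : Module.Free F S := Module.Free.of_divisionRing F S
  have hSfin : Module.Finite F S := Module.finite_of_finrank_pos (by rw [hS]; omega)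
  have hSnt : Nontrivial S := Module.nontrivial_of_finrank_pos (R := F) (by rw [hS]; omega)
  let φ : A →ₐ[F] Module.End F S := Algebra.lsmul F F S
  have hinj : Function.Injective φ := RingHom.injective φ.toRingHom
  have hsurj : Function.Surjective φ := by
    have hd : Module.finrank F A = Module.finrank F (Module.End F S) := by
      rw [hA, Module.finrank_linearMap, hS, sq]
    exact (LinearMap.injective_iff_surjective_of_finrank_eq_finrank hd
      (f := φ.toLinearMap)).1 hinj
  obtain ⟨f, hf1, hf2⟩ := D7_rot hn hS
  obtain ⟨u, hu⟩ := hsurj f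
  refine ⟨u, ?_, ?_⟩
  · apply hinj
    rw [map_pow, hu, hf1, map_one]
  · intro c hc
    apply hf2 c
    rw [← hu, hc, AlgHom.commutes]

end Pool.Agent.Helper41.CF
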